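import Pool.Agent.Helper87.NM.Small

/-! Sharp bounds for the least product `minProd`. -/

open Finset

namespace Pool.H87.NM

theorem log_ge (N x : ℝ) (hN : 0 < N) (hx : 0 < x) (h : x ≤ N ∨ x = N + 1) :
    (x - N) / N - (N + 2) / (2 * (N + 1)) * ((x - N) ^ 2 / (N * x)) ≤ Real.log (x / N) := by
  have hl : (1 : ℝ) / 2 ≤ (N + 2) / (2 * (N + 1)) := by
    rw [div_le_div_iff₀ (by norm_num) (by positivity)]
    linarith
  rcases h with h | h
  · have h1 : 0 ≤ Real.log (N / x) := Real.log_nonneg (by rw [le_div_iff₀ hx]; linarith)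
    have h2 := Real.self_le_sinh_iff.2 h1
    rw [Real.sinh_log (by positivity)] at h2
    have h3 : Real.log (x / N) = - Real.log (N / x) := by
      rw [← Real.log_inv, inv_div]
    rw [h3]
    have h4 : (x - N) / N - 1 / 2 * ((x - N) ^ 2 / (N * x)) = - ((N / x - (N / x)⁻¹) / 2) := by
      field_simp
      ring
    have h5 : 0 ≤ (x - N) ^ 2 / (N * x) := by positivity
    have h6 := mul_le_mul_of_nonneg_right hl h5
    linarith
  · subst h
    have h1 := Real.le_log_one_add_of_nonneg (x := 1 / N) (by positivity)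
    have h2 : (N + 1) / N = 1 + 1 / N := by field_simp
    rw [h2]
    refine le_trans ?_ h1
    have h3 : 2 * (1 / N) / (1 / N + 2) = 2 / (2 * N + 1) := by
      field_simp
      ring
    have h4 : (N + 1 - N) / N - (N + 2) / (2 * (N + 1)) * ((N + 1 - N) ^ 2 / (N * (N + 1))) =
        (2 * N + 3) / (2 * (N + 1) ^ 2) := by
      field_simp
      ring
    rw [h3, h4, div_le_div_iff₀ (by positivity) (by positivity)]
    nlinarith

theorem box_gt (n : ℕ) (hn : 1 ≤ n) (t : Fin n → ℕ) (ht : ∀ i, 1 ≤ t i ∧ t i ≤ n + 1)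
    (hs : ∑ i, (1 : ℚ) / t i < 1) :
    (1 + 1 / (2 * ((n : ℝ) + 1))) * (n : ℝ) ^ n < ((∏ i, t i : ℕ) : ℝ) := by
  have hN : (0 : ℝ) < n := by exact_mod_cast hn
  have hsR : ∑ i, (1 : ℝ) / t i < 1 := by
    have : ((∑ i, (1 : ℚ) / t i : ℚ) : ℝ) < 1 := by exact_mod_cast hs
    simpa using this
  have hx : ∀ i, (0 : ℝ) < t i := fun i => by exact_mod_cast (ht i).1
  -- the sum of squares
  have h1 : ∑ i, (((t i : ℝ) - n) ^ 2 / t i) = ∑ i, (t i : ℝ) - 2 * n * n + n ^ 2 * ∑ i, (1 : ℝ) / t i := by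
    have : ∀ i, (((t i : ℝ) - n) ^ 2 / t i) = (t i : ℝ) - 2 * n + n ^ 2 * (1 / t i) := by
      intro i
      have := hx i
      field_simp
      ring
    rw [sum_congr rfl fun i _ => this i, sum_add_distrib, sum_sub_distrib, mul_sum, sum_const,
      card_univ, Fintype.card_fin, nsmul_eq_mul]
    ring
  have h2 : ∑ i, (((t i : ℝ) - n) ^ 2 / t i) < ∑ i, (t i : ℝ) - n * n := by
    rw [h1]
    have : (n : ℝ) ^ 2 * ∑ i, (1 : ℝ) / t i < n ^ 2 * 1 := mul_lt_mul_of_pos_left hsR (by positivity)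
    nlinarith
  have h3 : (0 : ℝ) ≤ ∑ i, (((t i : ℝ) - n) ^ 2 / t i) :=
    sum_nonneg fun i _ => div_nonneg (sq_nonneg _) (hx i).le
  have h4 : n * n + 1 ≤ ∑ i, t i := by
    have : ((n * n : ℕ) : ℝ) < ((∑ i, t i : ℕ) : ℝ) := by push_cast; linarith
    exact_mod_cast this
  have h4' : (n : ℝ) * n + 1 ≤ ∑ i, (t i : ℝ) := by exact_mod_cast h4
  -- the logarithm
  have h5 : Real.log ((∏ i, (t i : ℝ)) / (n : ℝ) ^ n) = ∑ i, Real.log ((t i : ℝ) / n) := by
    rw [← Real.log_prod (fun i _ => (div_pos (hx i) hN).ne'), prod_div_distrib, prod_const,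
      card_univ, Fintype.card_fin]
  have h6 : ∑ i, (((t i : ℝ) - n) / n - ((n : ℝ) + 2) / (2 * (n + 1)) * (((t i : ℝ) - n) ^ 2 / (n * t i))) ≤
      ∑ i, Real.log ((t i : ℝ) / n) := by
    apply sum_le_sum
    intro i _
    apply log_ge _ _ hN (hx i)
    rcases Nat.lt_or_ge n (t i) with h | h
    · right
      have : t i = n + 1 := by have := (ht i).2; omega
      rw [this]; push_cast; ring
    · left
      exact_mod_cast h
  have h7 : ∑ i, (((t i : ℝ) - n) / n - ((n : ℝ) + 2) / (2 * (n + 1)) * (((t i : ℝ) - n) ^ 2 / (n * t i))) =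
      (∑ i, (t i : ℝ) - n * n) / n - ((n : ℝ) + 2) / (2 * (n + 1)) / n *
        ∑ i, (((t i : ℝ) - n) ^ 2 / t i) := by
    rw [sum_sub_distrib, ← sum_div, sum_sub_distrib, sum_const, card_univ, Fintype.card_fin,
      nsmul_eq_mul, mul_sum]
    congr 1
    apply sum_congr rfl
    intro i _
    have := hx i
    field_simp
  have h8 : 1 / (2 * ((n : ℝ) + 1)) < ∑ i, Real.log ((t i : ℝ) / n) := by
    refine lt_of_lt_of_le ?_ h6
    rw [h7]
    obtain ⟨s, hs'⟩ : ∃ s, s = ∑ i, (t i : ℝ) - n * n := ⟨_, rfl⟩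
    rw [← hs'] at h2 ⊢
    have hs1 : 1 ≤ s := by rw [hs']; linarith
    have hc : (0 : ℝ) < ((n : ℝ) + 2) / (2 * (n + 1)) / n := by positivity
    have h9 := mul_lt_mul_of_pos_left h2 hc
    have h10 : s / n - ((n : ℝ) + 2) / (2 * (n + 1)) / n * s = s * (1 / (2 * ((n : ℝ) + 1))) := by
      field_simp
      ring
    have h11 : 1 * (1 / (2 * ((n : ℝ) + 1))) ≤ s * (1 / (2 * ((n : ℝ) + 1))) :=
      mul_le_mul_of_nonneg_right hs1 (by positivity)
    linarith
  rw [← h5] at h8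
  have h12 : (0 : ℝ) < (∏ i, (t i : ℝ)) / (n : ℝ) ^ n :=
    div_pos (prod_pos fun i _ => hx i) (by positivity)
  have h13 := (Real.lt_log_iff_exp_lt h12).1 h8
  have h14 := Real.add_one_le_exp (1 / (2 * ((n : ℝ) + 1)))
  have h15 : 1 + 1 / (2 * ((n : ℝ) + 1)) < (∏ i, (t i : ℝ)) / (n : ℝ) ^ n := by linarith
  rw [lt_div_iff₀ (by positivity)] at h15
  push_cast
  exact h15

/-- the pattern `m^(q+1) (m-2)^q (m-1)^(rest)` -/
theorem pat_prod {M : Type*} [CommMonoid M] (a b c : ℕ) (f : ℕ → M) (x y z : M)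
    (h1 : ∀ i < a, f i = x) (h2 : ∀ i < b, f (a + i) = y) (h3 : ∀ i < c, f (a + b + i) = z) :
    ∏ i : Fin (a + b + c), f i = x ^ a * y ^ b * z ^ c := by
  rw [Fin.prod_univ_eq_prod_range, prod_range_add, prod_range_add,
    prod_congr rfl (fun i hi => h1 i (mem_range.1 hi)),
    prod_congr rfl (fun i hi => h2 i (mem_range.1 hi)),
    prod_congr rfl (fun i hi => h3 i (mem_range.1 hi))]
  simp

theorem pat_sum {M : Type*} [CommSemiring M] (a b c : ℕ) (f : ℕ → M) (x y z : M)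
    (h1 : ∀ i < a, f i = x) (h2 : ∀ i < b, f (a + i) = y) (h3 : ∀ i < c, f (a + b + i) = z) :
    ∑ i : Fin (a + b + c), f i = a * x + b * y + c * z := by
  rw [Fin.sum_univ_eq_sum_range, sum_range_add, sum_range_add,
    sum_congr rfl (fun i hi => h1 i (mem_range.1 hi)),
    sum_congr rfl (fun i hi => h2 i (mem_range.1 hi)),
    sum_congr rfl (fun i hi => h3 i (mem_range.1 hi))]
  simp

/-- the pattern with `q + 1` factors `n + 1`, `q` factors `n - 1` and `n - 2 q - 1` factors `n` -/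
theorem pat_mem (n q c : ℕ) (hn : n = q + 1 + q + c) (hc : 1 ≤ c) :
    (n + 1) ^ (q + 1) * (n - 1) ^ q * n ^ c ∈ BoxSet n (n + 1) := by
  subst hn
  obtain ⟨n, hn⟩ : ∃ n, n = q + 1 + q + c := ⟨_, rfl⟩
  rw [← hn]
  have key : ∃ t : Fin (q + 1 + q + c) → ℕ, (∀ i, 1 ≤ t i ∧ t i ≤ n + 1) ∧
      ∑ i, (1 : ℚ) / t i < 1 ∧ (n + 1) ^ (q + 1) * (n - 1) ^ q * n ^ c = ∏ i, t i := by
    obtain ⟨f, hf⟩ : ∃ f : ℕ → ℕ, f = fun i => if i < q + 1 then n + 1 else
      if i < q + 1 + q then n - 1 else n := ⟨_, rfl⟩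
    have f1 : ∀ i < q + 1, f i = n + 1 := by
      intro i hi; rw [hf]; simp only; rw [if_pos hi]
    have f2 : ∀ i < q, f (q + 1 + i) = n - 1 := by
      intro i hi; rw [hf]; simp only; rw [if_neg (by omega), if_pos (by omega)]
    have f3 : ∀ i < c, f (q + 1 + q + i) = n := by
      intro i hi; rw [hf]; simp only; rw [if_neg (by omega), if_neg (by omega)]
    refine ⟨fun i => f i, ?_, ?_, ?_⟩
    · intro i
      simp only [hf]
      have hi := i.2
      split_ifs <;> omega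
    · rw [pat_sum (q + 1) q c (fun i => (1 : ℚ) / f i) (1 / (n + 1)) (1 / (n - 1)) (1 / n)]
      · rcases Nat.eq_zero_or_pos q with hq | hq
        · subst hq
          have hn1 : (0 : ℚ) < n := by exact_mod_cast (by omega : 0 < n)
          have hcn : (c : ℚ) = n - 1 := by rw [hn]; push_cast; ring
          rw [hcn]
          have : (((0 + 1 : ℕ)) : ℚ) * (1 / (n + 1)) + ((0 : ℕ) : ℚ) * (1 / (n - 1)) + (n - 1) * (1 / n) =
            1 - 1 / (n * (n + 1)) := by
            push_cast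
            field_simp
            ring
          rw [this]
          have : (0 : ℚ) < 1 / (n * (n + 1)) := by positivity
          linarith
        · have hn1 : (1 : ℚ) < n := by exact_mod_cast (by omega : 1 < n)
          have hn2 : (0 : ℚ) < (n : ℚ) - 1 := by linarith
          have hn0 : (0 : ℚ) < n := by linarith
          have hcn : (c : ℚ) = n - 2 * q - 1 := by rw [hn]; push_cast; ring
          have hc1 : (1 : ℚ) ≤ c := by exact_mod_cast hc
          have : ((q + 1 : ℕ) : ℚ) * (1 / (n + 1)) + (q : ℚ) * (1 / (n - 1)) + c * (1 / n) =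
            1 - c / (n * (n + 1) * (n - 1)) := by
            rw [hcn]
            push_cast
            field_simp
            ring
          rw [this]
          have : (0 : ℚ) < c / (n * (n + 1) * (n - 1)) := by positivity
          linarith
      · intro i hi; rw [f1 i hi]; push_cast; rfl
      · intro i hi; rw [f2 i hi, Nat.cast_sub (by omega)]; push_cast; rfl
      · intro i hi; rw [f3 i hi]
    · exact (pat_prod (q + 1) q c f _ _ _ f1 f2 f3).symm
  rw [← hn] at key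
  obtain ⟨t, h1, h2, h3⟩ := key
  exact ⟨t, h1, h2, h3⟩

theorem pat_le (n q c : ℕ) (hn : n = q + 1 + q + c) (hc : 1 ≤ c) (hc2 : c ≤ 2) :
    (((n + 1) ^ (q + 1) * (n - 1) ^ q * n ^ c : ℕ) : ℝ) ≤
      (1 + 1 / (2 * ((n : ℝ) + 1)) + 4 / ((n : ℝ) + 1) ^ 2) * (n : ℝ) ^ n := by
  rcases Nat.lt_or_ge n 3 with h | h
  · obtain rfl : q = 0 := by omega
    obtain rfl : c = 1 := by omega
    subst hn
    norm_num
  have hq : (n : ℝ) - 3 ≤ 2 * q := by
    have : n ≤ 2 * q + 3 := by omega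
    have h2 : (n : ℝ) ≤ 2 * q + 3 := by exact_mod_cast this
    linarith
  have h3 : (3 : ℝ) ≤ n := by exact_mod_cast h
  have e0 : ((n - 1 : ℕ) : ℝ) = (n : ℝ) - 1 := by rw [Nat.cast_sub (by omega)]; norm_num
  obtain ⟨N, hN⟩ : ∃ N : ℝ, N = n := ⟨_, rfl⟩
  push_cast
  rw [e0, ← hN]
  rw [← hN] at hq h3
  have e1 : (N + 1) ^ (q + 1) * (N - 1) ^ q * N ^ c = (N + 1) * ((N + 1) * (N - 1)) ^ q * N ^ c := by
    rw [mul_pow]; ring
  have e2 : N ^ n = N * (N ^ 2) ^ q * N ^ c := by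
    rw [hn]; ring
  have hNc : (0 : ℝ) < N ^ c := by positivity
  rw [e1, e2, ← mul_assoc]
  apply mul_le_mul_of_nonneg_right _ hNc.le
  -- ((N+1)(N-1))^q (N^2 + q) ≤ (N^2)^q N^2
  have hb := one_add_mul_le_pow (a := 1 / N ^ 2) (by
    have : (0 : ℝ) ≤ 1 / N ^ 2 := by positivity
    linarith) q
  have hA : 0 ≤ ((N + 1) * (N - 1)) ^ q := pow_nonneg (mul_nonneg (by linarith) (by linarith)) _
  have h4 : ((N + 1) * (N - 1)) ^ q * (1 + 1 / N ^ 2) ^ q ≤ (N ^ 2) ^ q := by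
    rw [← mul_pow]
    apply pow_le_pow_left₀
    · apply mul_nonneg (mul_nonneg (by linarith) (by linarith)) (by positivity)
    · have : (N + 1) * (N - 1) * (1 + 1 / N ^ 2) = N ^ 2 - 1 / N ^ 2 := by
        field_simp
        ring
      rw [this]
      have : (0 : ℝ) ≤ 1 / N ^ 2 := by positivity
      linarith
  have h5 : ((N + 1) * (N - 1)) ^ q * (1 + q * (1 / N ^ 2)) ≤ (N ^ 2) ^ q :=
    le_trans (mul_le_mul_of_nonneg_left hb hA) h4
  -- constants
  have hK : 0 < 1 + (q : ℝ) * (1 / N ^ 2) := by positivity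
  have h6 : ((N + 1) * (N - 1)) ^ q ≤ (N ^ 2) ^ q / (1 + q * (1 / N ^ 2)) := by
    rw [le_div_iff₀ hK]; exact h5
  have hB : (0 : ℝ) ≤ (N ^ 2) ^ q := by positivity
  have h7 : (N + 1) / (1 + (q : ℝ) * (1 / N ^ 2)) ≤
      (1 + 1 / (2 * (N + 1)) + 4 / (N + 1) ^ 2) * N := by
    have h8 : (N + 1) / (1 + (q : ℝ) * (1 / N ^ 2)) ≤ (N + 1) / (1 + ((N - 3) / 2) * (1 / N ^ 2)) := by
      apply div_le_div_of_nonneg_left (by linarith)
      · have : (0 : ℝ) ≤ (N - 3) / 2 := by linarith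
        positivity
      · have : ((N - 3) / 2) * (1 / N ^ 2) ≤ (q : ℝ) * (1 / N ^ 2) :=
          mul_le_mul_of_nonneg_right (by linarith) (by positivity)
        linarith
    refine le_trans h8 ?_
    have hD : (0 : ℝ) < 2 * N ^ 2 + N - 3 := by nlinarith
    have e3 : (N + 1) / (1 + ((N - 3) / 2) * (1 / N ^ 2)) = 2 * N ^ 2 * (N + 1) / (2 * N ^ 2 + N - 3) := by
      have : 1 + ((N - 3) / 2) * (1 / N ^ 2) = (2 * N ^ 2 + N - 3) / (2 * N ^ 2) := by
        field_simp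
        ring
      rw [this, div_div_eq_mul_div]
      ring
    have e4 : (1 + 1 / (2 * (N + 1)) + 4 / (N + 1) ^ 2) * N =
        N * (2 * N ^ 2 + 5 * N + 11) / (2 * (N + 1) ^ 2) := by
      field_simp
      ring
    rw [e3, e4, div_le_div_iff₀ hD (by positivity)]
    have h9 : 0 ≤ 9 * N ^ 2 - 8 * N - 33 := by nlinarith
    have h10 : 0 ≤ N * (9 * N ^ 2 - 8 * N - 33) := mul_nonneg (by linarith) h9
    nlinarith
  calc (N + 1) * ((N + 1) * (N - 1)) ^ q
      ≤ (N + 1) * ((N ^ 2) ^ q / (1 + q * (1 / N ^ 2))) :=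
        mul_le_mul_of_nonneg_left h6 (by linarith)
    _ = (N + 1) / (1 + (q : ℝ) * (1 / N ^ 2)) * (N ^ 2) ^ q := by ring
    _ ≤ (1 + 1 / (2 * (N + 1)) + 4 / (N + 1) ^ 2) * N * (N ^ 2) ^ q :=
        mul_le_mul_of_nonneg_right h7 hB
    _ = (1 + 1 / (2 * (N + 1)) + 4 / (N + 1) ^ 2) * (N * (N ^ 2) ^ q) := by ring

end Pool.H87.NM
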