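import Pool.Agent.Helper87.NM.Iso

/-! Linear upper bounds for `Gam`. -/

namespace Pool.H87.NM

/-- the ratio of `Dl` and `T` -/
def rho (k n : ℕ) : ℚ := (Dl k n : ℚ) / T k n

theorem sd_pos {k n : ℕ} (h : k + 1 ≤ n) : 0 < sd k n := le_sd (by omega)

theorem sd_mono (k : ℕ) {n n' : ℕ} (h : n ≤ n') : sd k n ≤ sd k n' := Nat.div_le_div_right h

theorem rho_eq (k n : ℕ) (h : k + 1 ≤ n) :
    rho (k + 1) n = rho k (n - n / (k + 1)) - 1 / sd k n := by
  have h1 : (0 : ℚ) < sd k n := by exact_mod_cast sd_pos h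
  have h2 : (0 : ℚ) < T k (n - n / (k + 1)) := by
    exact_mod_cast b_pos k n (by omega)
  unfold rho
  rw [T_eq, Dl_eq, b, db]
  push_cast
  field_simp

theorem rho_succ (k n : ℕ) (h : k ≤ n) :
    rho (k + 1) (n + 1) = rho k (n - n / (k + 1)) - 1 / (sd k n + 1) := by
  have h1 : (0 : ℚ) < (sd k n : ℚ) + 1 := by positivity
  have h2 : (0 : ℚ) < T k (n - n / (k + 1)) := by
    exact_mod_cast b_pos k n h
  unfold rho
  rw [T_succ, Dl_succ, b, db]
  push_cast
  field_simp

theorem rho_step (k n : ℕ) (h : k + 1 ≤ n) :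
    rho (k + 1) (n + 1) = rho (k + 1) n + 1 / (sd k n * (sd k n + 1)) := by
  have h1 : (0 : ℚ) < sd k n := by exact_mod_cast sd_pos h
  rw [rho_eq k n h, rho_succ k n (by omega)]
  field_simp
  ring

theorem rho_mono (k n n' : ℕ) (h : k + 1 ≤ n) (hn : n ≤ n') : rho (k + 1) n ≤ rho (k + 1) n' := by
  induction n', hn using Nat.le_induction with
  | base => exact le_rfl
  | succ m hm ih =>
    rw [rho_step k m (by omega)]
    have : (0 : ℚ) ≤ 1 / (sd k m * (sd k m + 1)) := by positivity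
    linarith

theorem cone_aux (k n y : ℕ) (hn : k ≤ n) (hy : 0 < y) (hyb : y ≤ b k n)
    (ih : (Gam k y : ℚ) ≤ rho k (n - n / (k + 1)) * y) :
    (Gam (k + 1) (T (k + 1) n + y) : ℚ) ≤
      rho k (n - n / (k + 1)) * ((T (k + 1) n + y : ℕ) : ℚ) - b k n := by
  rw [Gam_cell k n y hy hyb, Dl_eq, T_eq]
  have h2 : (0 : ℚ) < T k (n - n / (k + 1)) := by
    exact_mod_cast b_pos k n hn
  have h3 : (db k n : ℚ) = rho k (n - n / (k + 1)) * b k n := by
    unfold rho db b
    field_simp
  push_cast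
  rw [h3]
  linarith

/-- `Gam` lies below the ray through a Turan point -/
theorem cone (k : ℕ) : ∀ N x, x ≤ T k N → (Gam k x : ℚ) ≤ rho k N * x := by
  induction k with
  | zero =>
    intro N x hx
    have hx1 : x ≤ 1 := hx
    have h1 : rho 0 N = 1 := by simp [rho, Dl, T]
    rw [h1]
    rcases (show x = 0 ∨ x = 1 by omega) with rfl | rfl <;> simp [Gam]
  | succ k ih =>
    intro N x hx
    rcases Nat.eq_zero_or_pos x with rfl | hx0
    · rw [Gam_zero]; simp
    obtain ⟨n, y, hn, hy, hyb, rfl⟩ := exists_cell k x hx0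
    have h1 := cone_aux k n y hn hy hyb (ih _ _ hyb)
    have hN : n + 1 ≤ N := by
      have : n < N := lt_of_T (k := k + 1) (by omega)
      omega
    have h2 := rho_mono k (n + 1) N (by omega) hN
    rw [rho_succ k n hn] at h2
    have h3 : ((T (k + 1) n + y : ℕ) : ℚ) ≤ (sd k n + 1) * b k n := by
      rw [T_eq]
      push_cast
      have : (y : ℚ) ≤ b k n := by exact_mod_cast hyb
      linarith
    obtain ⟨x, hxe⟩ : ∃ x : ℚ, x = ((T (k + 1) n + y : ℕ) : ℚ) := ⟨_, rfl⟩
    rw [← hxe] at h1 h3 ⊢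
    have hx0' : 0 ≤ x := by rw [hxe]; positivity
    have h4 : (1 / ((sd k n : ℚ) + 1)) * x ≤ b k n := by
      rw [one_div, inv_mul_le_iff₀ (by positivity)]
      exact h3
    have h5 := mul_le_mul_of_nonneg_right h2 hx0'
    have h6 : (rho k (n - n / (k + 1)) - 1 / ((sd k n : ℚ) + 1)) * x =
      rho k (n - n / (k + 1)) * x - (1 / ((sd k n : ℚ) + 1)) * x := by ring
    linarith

theorem rho_lip (k N n : ℕ) (hN : k + 1 ≤ N) (hn : N ≤ n) :
    rho (k + 1) n ≤ rho (k + 1) N +
      ((T (k + 1) n : ℚ) - T (k + 1) N) / (sd k N * T (k + 1) N) := by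
  have hT : (0 : ℚ) < T (k + 1) N := by exact_mod_cast T_pos (k + 1) N hN
  have hs : (0 : ℚ) < sd k N := by exact_mod_cast sd_pos hN
  induction n, hn using Nat.le_induction with
  | base => simp
  | succ m hm ih =>
    rw [rho_step k m (by omega), T_step]
    have hsm : (sd k N : ℚ) ≤ sd k m := by exact_mod_cast sd_mono k hm
    have hTm : (T (k + 1) N : ℚ) ≤ T (k + 1) m := by exact_mod_cast T_mono (k + 1) hm
    have hTe : (T (k + 1) m : ℚ) = sd k m * b k m := by rw [T_eq]; push_cast; ring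
    have hsm0 : (0 : ℚ) < sd k m := lt_of_lt_of_le hs hsm
    have h1 : 1 / ((sd k m : ℚ) * (sd k m + 1)) ≤ b k m / (sd k N * T (k + 1) N) := by
      rw [div_le_div_iff₀ (by positivity) (by positivity)]
      have h2 : (sd k N : ℚ) * T (k + 1) N ≤ (sd k m + 1) * T (k + 1) m :=
        mul_le_mul (by linarith) hTm hT.le (by positivity)
      rw [hTe] at h2
      linarith
    have h2 : ((T (k + 1) m + b k m : ℕ) : ℚ) - T (k + 1) N =
      ((T (k + 1) m : ℚ) - T (k + 1) N) + b k m := by push_cast; ring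
    rw [h2, add_div]
    linarith

/-- a quadratic upper bound beyond a Turan point -/
theorem lip (k N x : ℕ) (hN : k + 1 ≤ N) (hx : T (k + 1) N ≤ x) :
    (Gam (k + 1) x : ℚ) ≤ x * (rho (k + 1) N +
      ((x : ℚ) - T (k + 1) N) / (sd k N * T (k + 1) N)) := by
  have hT : (0 : ℚ) < T (k + 1) N := by exact_mod_cast T_pos (k + 1) N hN
  have hs : (0 : ℚ) < sd k N := by exact_mod_cast sd_pos hN
  rcases hx.eq_or_lt with h | hlt
  · rw [← h, sub_self, zero_div, add_zero, mul_comm]
    exact cone (k + 1) N _ le_rfl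
  obtain ⟨n, y, hn, hy, hyb, rfl⟩ := exists_cell k x (by omega)
  have hNn : N ≤ n := by
    have : N < n + 1 := lt_of_T (k := k + 1) (by rw [T_step]; omega)
    omega
  have h1 := cone_aux k n y hn hy hyb (cone k _ _ hyb)
  have hsn : (0 : ℚ) < sd k n := by exact_mod_cast sd_pos (by omega : k + 1 ≤ n)
  have h2 := rho_eq k n (by omega)
  have h3 := rho_lip k N n hN hNn
  obtain ⟨X, hX⟩ : ∃ X : ℚ, X = ((T (k + 1) n + y : ℕ) : ℚ) := ⟨_, rfl⟩
  have hXT : X = T (k + 1) n + y := by rw [hX]; push_cast; ring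
  have hy' : (0 : ℚ) ≤ y := by positivity
  have hsm : (sd k N : ℚ) ≤ sd k n := by exact_mod_cast sd_mono k hNn
  have hTm : (T (k + 1) N : ℚ) ≤ T (k + 1) n := by exact_mod_cast T_mono (k + 1) hNn
  have hTe : (T (k + 1) n : ℚ) = sd k n * b k n := by rw [T_eq]; push_cast; ring
  rw [← hX] at h1 ⊢
  have hX0 : 0 < X := by rw [hXT]; linarith
  -- Gam ≤ rho n X + y / s_n
  have h4 : rho k (n - n / (k + 1)) * X - b k n = rho (k + 1) n * X + y / sd k n := by
    rw [h2, hXT, hTe]
    field_simp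
    ring
  have h5 : (y : ℚ) / sd k n ≤ X * (y / (sd k N * T (k + 1) N)) := by
    rw [← mul_div_assoc, div_le_div_iff₀ hsn (by positivity)]
    have h6 : (sd k N : ℚ) * T (k + 1) N ≤ sd k n * X :=
      mul_le_mul hsm (by rw [hXT]; linarith) hT.le (by positivity)
    have := mul_le_mul_of_nonneg_left h6 hy'
    linarith
  have h7 := mul_le_mul_of_nonneg_right h3 hX0.le
  have h8 : X * (rho (k + 1) N + (X - T (k + 1) N) / (sd k N * T (k + 1) N)) =
      (rho (k + 1) N + ((T (k + 1) n : ℚ) - T (k + 1) N) / (sd k N * T (k + 1) N)) * X +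
      X * (y / (sd k N * T (k + 1) N)) := by
    rw [show X - (T (k + 1) N : ℚ) = ((T (k + 1) n : ℚ) - T (k + 1) N) + y by rw [hXT]; ring,
      add_div]
    ring
  rw [h8]
  rw [h4] at h1
  linarith

/-- explicit Turan numbers -/
theorem TDr (k t : ℕ) (ht : 1 ≤ t) : ∀ r, r ≤ k → T k (t * k + r) = t ^ (k - r) * (t + 1) ^ r ∧
    rho k (t * k + r) = 1 - ((k : ℚ) - r) / t - r / (t + 1) := by
  have ht0 : (0 : ℚ) < t := by exact_mod_cast ht
  induction k with
  | zero =>
    intro r hr
    obtain rfl : r = 0 := by omega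
    simp [T, rho, Dl]
  | succ k ih =>
    intro r hr
    rcases Nat.eq_zero_or_pos r with rfl | hr0
    · -- r = 0
      have h1 : (t * (k + 1) + 0) / (k + 1) = t := div_of t k 0 (by omega)
      have h2 : t * (k + 1) + 0 - t = t * k + 0 := by
        rw [add_zero, add_zero, Nat.mul_succ, Nat.add_sub_cancel]
      obtain ⟨i1, i2⟩ := ih 0 (by omega)
      constructor
      · rw [T_eq, sd, b, h1, h2, i1]
        simp only [Nat.sub_zero, pow_zero, mul_one]
        rw [pow_succ]; ring
      · rw [rho_eq k _ (by nlinarith), sd, h1, h2, i2]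
        push_cast
        field_simp
        ring
    · obtain ⟨r', rfl⟩ : ∃ r', r = r' + 1 := ⟨r - 1, by omega⟩
      have h1 : (t * (k + 1) + r') / (k + 1) = t := div_of t k r' (by omega)
      have h2 : t * (k + 1) + r' - t = t * k + r' := by
        have : t * (k + 1) = t * k + t := by ring
        omega
      obtain ⟨i1, i2⟩ := ih r' (by omega)
      constructor
      · rw [← add_assoc, T_succ, sd, b, h1, h2, i1, Nat.add_sub_add_right, pow_succ]
        ring
      · rw [← add_assoc, rho_succ k _ (by nlinarith), sd, h1, h2, i2]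
        push_cast
        field_simp
        ring

end Pool.H87.NM
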