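import Mathlib

/-! Turan numbers and the extremal function `Gam` of balanced (coloured) complexes. -/

namespace Pool.H87.NM

/-- the number of `k`-cliques of the Turan graph with `n` vertices and `k` parts -/
def T : ℕ → ℕ → ℕ
  | 0, _ => 1
  | k + 1, n => (n / (k + 1)) * T k (n - n / (k + 1))

/-- the number of `k`-cliques minus the number of `(k-1)`-cliques of the Turan graph -/
def Dl : ℕ → ℕ → ℤ
  | 0, _ => 1
  | k + 1, n => ((n / (k + 1) : ℕ) : ℤ) * Dl k (n - n / (k + 1)) - (T k (n - n / (k + 1)) : ℤ)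

/-- the smallest side in dimension `k + 1` -/
def sd (k n : ℕ) : ℕ := n / (k + 1)

/-- the product of the other sides -/
def b (k n : ℕ) : ℕ := T k (n - n / (k + 1))

/-- `Dl` of the other sides -/
def db (k n : ℕ) : ℤ := Dl k (n - n / (k + 1))

theorem T_eq (k n : ℕ) : T (k + 1) n = sd k n * b k n := rfl

theorem Dl_eq (k n : ℕ) : Dl (k + 1) n = sd k n * db k n - b k n := rfl

theorem split (k n : ℕ) : ∃ s r, n = s * (k + 1) + r ∧ r ≤ k ∧ n / (k + 1) = s ∧
    n - n / (k + 1) = s * k + r := by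
  have h0 := Nat.div_add_mod n (k + 1)
  have h1 := Nat.mod_lt n (show 0 < k + 1 by omega)
  obtain ⟨q, hq⟩ : ∃ q, q = n / (k + 1) := ⟨_, rfl⟩
  obtain ⟨r, hr⟩ : ∃ r, r = n % (k + 1) := ⟨_, rfl⟩
  rw [← hq, ← hr] at h0
  rw [← hr] at h1
  rw [← hq]
  have h2 : (k + 1) * q = q * k + q := by ring
  have h3 : q * (k + 1) = q * k + q := by ring
  exact ⟨q, r, by omega, by omega, rfl, by omega⟩

theorem div_of (s k r : ℕ) (hr : r ≤ k) : (s * (k + 1) + r) / (k + 1) = s := by
  rw [Nat.div_eq_of_lt_le]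
  · nlinarith
  · nlinarith

theorem TD_succ (k : ℕ) : ∀ n, T (k + 1) (n + 1) = (sd k n + 1) * b k n ∧
    Dl (k + 1) (n + 1) = (sd k n + 1) * db k n - b k n := by
  induction k with
  | zero =>
    intro n
    constructor
    · simp [T, sd, b]
    · simp only [Dl, T, sd, db, b]
      push_cast
      simp
  | succ k ih =>
    intro n
    obtain ⟨s, r, hn, hr, hs, hns⟩ := split (k + 1) n
    unfold sd b db
    rcases Nat.lt_or_ge r (k + 1) with hlt | hge
    · -- no carry
      have h1 : (n + 1) / (k + 1 + 1) = s := by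
        rw [hn, add_assoc]
        exact div_of s (k + 1) (r + 1) (by omega)
      have h2 : n + 1 - s = (n - n / (k + 1 + 1)) + 1 := by
        rw [hs]
        have : s ≤ n := by rw [← hs]; exact Nat.div_le_self _ _
        omega
      have h3 : (n - n / (k + 1 + 1)) / (k + 1) = s := by
        rw [hns]
        exact div_of s k r (by omega)
      obtain ⟨i1, i2⟩ := ih (n - n / (k + 1 + 1))
      constructor
      · rw [show T (k + 1 + 1) (n + 1) = ((n + 1) / (k + 1 + 1)) *
          T (k + 1) (n + 1 - (n + 1) / (k + 1 + 1)) from rfl, h1, h2, i1]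
        rw [show T (k + 1) (n - n / (k + 1 + 1)) = sd k (n - n / (k + 1 + 1)) *
          b k (n - n / (k + 1 + 1)) from rfl]
        rw [show sd k (n - n / (k + 1 + 1)) = s from h3, hs]
        ring
      · rw [show Dl (k + 1 + 1) (n + 1) = (((n + 1) / (k + 1 + 1) : ℕ) : ℤ) *
          Dl (k + 1) (n + 1 - (n + 1) / (k + 1 + 1)) -
          (T (k + 1) (n + 1 - (n + 1) / (k + 1 + 1)) : ℤ) from rfl, h1, h2, i1, i2]
        rw [show T (k + 1) (n - n / (k + 1 + 1)) = sd k (n - n / (k + 1 + 1)) *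
          b k (n - n / (k + 1 + 1)) from rfl]
        rw [show Dl (k + 1) (n - n / (k + 1 + 1)) = sd k (n - n / (k + 1 + 1)) *
          db k (n - n / (k + 1 + 1)) - b k (n - n / (k + 1 + 1)) from rfl]
        rw [show sd k (n - n / (k + 1 + 1)) = s from h3, hs]
        push_cast
        ring
    · -- carry
      have hr' : r = k + 1 := by omega
      have h1 : (n + 1) / (k + 1 + 1) = s + 1 := by
        rw [hn, hr', show s * (k + 1 + 1) + (k + 1) + 1 = (s + 1) * (k + 1 + 1) + 0 by ring]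
        exact div_of (s + 1) (k + 1) 0 (by omega)
      have h2 : n + 1 - (s + 1) = n - n / (k + 1 + 1) := by
        rw [hs]; omega
      constructor
      · rw [show T (k + 1 + 1) (n + 1) = ((n + 1) / (k + 1 + 1)) *
          T (k + 1) (n + 1 - (n + 1) / (k + 1 + 1)) from rfl, h1, h2, hs]
      · rw [show Dl (k + 1 + 1) (n + 1) = (((n + 1) / (k + 1 + 1) : ℕ) : ℤ) *
          Dl (k + 1) (n + 1 - (n + 1) / (k + 1 + 1)) -
          (T (k + 1) (n + 1 - (n + 1) / (k + 1 + 1)) : ℤ) from rfl, h1, h2, hs]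
        push_cast
        ring

theorem T_succ (k n : ℕ) : T (k + 1) (n + 1) = (sd k n + 1) * b k n := (TD_succ k n).1

theorem T_step (k n : ℕ) : T (k + 1) (n + 1) = T (k + 1) n + b k n := by
  rw [T_succ, T_eq]; ring

theorem Dl_succ (k n : ℕ) : Dl (k + 1) (n + 1) = (sd k n + 1) * db k n - b k n := (TD_succ k n).2

theorem Dl_step (k n : ℕ) : Dl (k + 1) (n + 1) = Dl (k + 1) n + db k n := by
  rw [Dl_succ, Dl_eq]; ring

theorem T_mono (k : ℕ) : Monotone (T k) := by
  cases k with
  | zero => intro a b _; exact le_rfl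
  | succ k =>
    apply monotone_nat_of_le_succ
    intro n
    rw [T_step]; omega

theorem idx_mono (k : ℕ) {n n' : ℕ} (h : n ≤ n') : n - n / (k + 1) ≤ n' - n' / (k + 1) := by
  induction n', h using Nat.le_induction with
  | base => exact le_rfl
  | succ m hm ih =>
    refine ih.trans ?_
    have h1 : (m + 1) / (k + 1) ≤ m / (k + 1) + 1 := by
      rw [← Nat.add_div_right m (show 0 < k + 1 by omega)]
      exact Nat.div_le_div_right (by omega)
    have := Nat.div_le_self m (k + 1)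
    omega

theorem b_mono (k : ℕ) {n n' : ℕ} (h : n ≤ n') : b k n ≤ b k n' := T_mono k (idx_mono k h)

theorem T_zero (k n : ℕ) (h : n < k) : T k n = 0 := by
  cases k with
  | zero => omega
  | succ k =>
    rw [T_eq, sd, Nat.div_eq_of_lt h, zero_mul]

theorem idx_ge (k n : ℕ) (h : k ≤ n) : k ≤ n - n / (k + 1) := by
  have h1 := idx_mono k h
  rw [Nat.div_eq_of_lt (Nat.lt_succ_self k)] at h1
  omega

theorem T_pos (k : ℕ) : ∀ n, k ≤ n → 0 < T k n := by
  induction k with
  | zero => intro n _; exact Nat.one_pos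
  | succ k ih =>
    intro n hn
    rw [T_eq]
    exact Nat.mul_pos (Nat.div_pos hn (Nat.succ_pos k)) (ih _ (idx_ge k n (by omega)))

theorem b_pos (k n : ℕ) (h : k ≤ n) : 0 < b k n := T_pos k _ (idx_ge k n h)

theorem T_self (k : ℕ) : T k k = 1 := by
  induction k with
  | zero => rfl
  | succ k ih =>
    rw [T_eq, sd, b, Nat.div_self (Nat.succ_pos k), Nat.add_sub_cancel, ih]

theorem T_unbounded (k x : ℕ) : x ≤ T (k + 1) (x * (k + 1)) := by
  rcases Nat.eq_zero_or_pos x with rfl | hx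
  · exact Nat.zero_le _
  · rw [T_eq, sd, Nat.mul_div_cancel _ (Nat.succ_pos k)]
    apply Nat.le_mul_of_pos_right
    apply b_pos
    nlinarith

/-- the index of the cell of `x` -/
noncomputable def cell (k x : ℕ) : ℕ := sInf {n | x ≤ T k (n + 1)}

theorem cell_spec (k x : ℕ) (hx : 0 < x) :
    T (k + 1) (cell (k + 1) x) < x ∧ x ≤ T (k + 1) (cell (k + 1) x + 1) := by
  have hne : {n | x ≤ T (k + 1) (n + 1)}.Nonempty := by
    refine ⟨x * (k + 1), ?_⟩
    exact (T_unbounded k x).trans (T_mono _ (Nat.le_succ _))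
  have h2 : x ≤ T (k + 1) (cell (k + 1) x + 1) := Nat.sInf_mem hne
  refine ⟨?_, h2⟩
  by_contra hcon
  push Not at hcon
  rcases Nat.eq_zero_or_pos (cell (k + 1) x) with h0 | h0
  · rw [h0, T_zero (k + 1) 0 (by omega)] at hcon
    omega
  · have h3 : cell (k + 1) x - 1 ∈ {n | x ≤ T (k + 1) (n + 1)} := by
      show x ≤ T (k + 1) (cell (k + 1) x - 1 + 1)
      rw [Nat.sub_add_cancel h0]
      exact hcon
    have h4 : cell (k + 1) x ≤ cell (k + 1) x - 1 := Nat.sInf_le h3
    omega

theorem lt_of_T {k n n' : ℕ} (h : T k n < T k n') : n < n' := by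
  by_contra hcon
  exact absurd (T_mono k (Nat.le_of_not_lt hcon)) (by omega)

theorem cell_unique (k x n : ℕ) (h1 : T (k + 1) n < x) (h2 : x ≤ T (k + 1) (n + 1)) :
    cell (k + 1) x = n := by
  obtain ⟨h3, h4⟩ := cell_spec k x (by omega)
  have h5 : n < cell (k + 1) x + 1 := lt_of_T (lt_of_lt_of_le h1 h4)
  have h6 : cell (k + 1) x < n + 1 := lt_of_T (lt_of_lt_of_le h3 h2)
  omega

/-- the extremal function -/
noncomputable def Gam : ℕ → ℕ → ℤ
  | 0, x => if x = 0 then 0 else 1
  | k + 1, x => if x = 0 then 0 else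
      Dl (k + 1) (cell (k + 1) x) + Gam k (x - T (k + 1) (cell (k + 1) x))

theorem Gam_zero (k : ℕ) : Gam k 0 = 0 := by
  cases k <;> simp [Gam]

theorem Gam_cell (k n w : ℕ) (hw : 0 < w) (hwb : w ≤ b k n) :
    Gam (k + 1) (T (k + 1) n + w) = Dl (k + 1) n + Gam k w := by
  have hc : cell (k + 1) (T (k + 1) n + w) = n :=
    cell_unique k _ n (by omega) (by rw [T_step]; omega)
  rw [Gam, if_neg (by omega), hc, Nat.add_sub_cancel_left]

theorem Gam_T (k : ℕ) : ∀ n, k ≤ n → Gam k (T k n) = Dl k n := by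
  induction k with
  | zero => intro n _; simp [Gam, T, Dl]
  | succ k ih =>
    intro n hn
    obtain ⟨n', rfl⟩ : ∃ n', n = n' + 1 := ⟨n - 1, by omega⟩
    rw [T_step, Gam_cell k n' _ (b_pos k n' (by omega)) le_rfl, b,
      ih _ (idx_ge k n' (by omega)), Dl_step, db]

theorem Gam_cell' (k n w : ℕ) (hn : k + 1 ≤ n) (hwb : w ≤ b k n) :
    Gam (k + 1) (T (k + 1) n + w) = Dl (k + 1) n + Gam k w := by
  rcases Nat.eq_zero_or_pos w with rfl | hw
  · rw [add_zero, Gam_T (k + 1) n hn, Gam_zero, add_zero]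
  · exact Gam_cell k n w hw hwb

/-- every positive number lies in a cell -/
theorem exists_cell (k x : ℕ) (hx : 0 < x) : ∃ n w, k ≤ n ∧ 0 < w ∧ w ≤ b k n ∧
    x = T (k + 1) n + w := by
  obtain ⟨h1, h2⟩ := cell_spec k x hx
  rw [T_step] at h2
  refine ⟨cell (k + 1) x, x - T (k + 1) (cell (k + 1) x), ?_, by omega, by omega, by omega⟩
  by_contra hcon
  have h3 : T (k + 1) (cell (k + 1) x + 1) = 0 := T_zero _ _ (by omega)
  rw [T_step] at h3
  omega

/-- the same with the half open cells `[T n, T (n+1))` -/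
theorem exists_cell' (k x : ℕ) (hx : 0 < x) : ∃ n w, k + 1 ≤ n ∧ w < b k n ∧
    x = T (k + 1) n + w := by
  obtain ⟨n, w, hn, hw, hwb, rfl⟩ := exists_cell k x hx
  rcases hwb.lt_or_eq with h | h
  · rcases Nat.lt_or_ge n (k + 1) with h2 | h2
    · obtain rfl : n = k := by omega
      exfalso
      have : b n n = 1 := by
        rw [b, Nat.div_eq_of_lt (Nat.lt_succ_self n), Nat.sub_zero, T_self]
      omega
    · exact ⟨n, w, h2, h, rfl⟩
  · refine ⟨n + 1, 0, by omega, b_pos k _ (by omega), ?_⟩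
    rw [h, T_step, add_zero]

theorem Gam_one (k : ℕ) : Gam (k + 1) 1 = -1 + Gam k 1 := by
  have h1 : T (k + 1) k = 0 := T_zero _ _ (by omega)
  have h2 : b k k = 1 := by
    rw [b, Nat.div_eq_of_lt (Nat.lt_succ_self k), Nat.sub_zero, T_self]
  have h3 := Gam_cell k k 1 Nat.one_pos (by rw [h2])
  rw [h1, zero_add] at h3
  rw [h3, Dl_eq, h2, sd, Nat.div_eq_of_lt (Nat.lt_succ_self k)]
  simp

end Pool.H87.NM
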