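import Pool.Agent.Helper87.NM.Iso
import Pool.Agent.Helper78.ND.Lower

/-! The bound `i_k - i_{k-1} ≤ Gam k (i_k)` for graphs without independent `(k+1)`-sets. -/

open Finset Polynomial

namespace Pool.H87.NM

open Pool.H78.ND

variable {V : Type}

/-- the number of independent `j`-subsets of `S` -/
noncomputable def ic (G : SimpleGraph V) (j : ℕ) (S : Finset V) : ℕ := (P G S).coeff j

/-- `i_k - i_{k-1}` -/
noncomputable def DD (G : SimpleGraph V) : ℕ → Finset V → ℤ
  | 0, _ => 1
  | k + 1, S => (ic G (k + 1) S : ℤ) - ic G k S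

open Classical in
/-- the vertices of `S` different from and not adjacent to `v` -/
noncomputable def link (G : SimpleGraph V) (S : Finset V) (v : V) : Finset V :=
  (S.erase v).filter (fun w => ¬ G.Adj v w)

theorem ic_zero (G : SimpleGraph V) (S : Finset V) : ic G 0 S = 1 := coeff_zero_P G S

theorem ic_mono (G : SimpleGraph V) {S S' : Finset V} (h : S ⊆ S') (j : ℕ) :
    ic G j S ≤ ic G j S' := coeff_mono G h j

theorem ic_empty (G : SimpleGraph V) (j : ℕ) : ic G (j + 1) ∅ = 0 := by
  rw [ic, P_empty, coeff_one, if_neg (by omega)]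

open Classical in
theorem ic_insert [DecidableEq V] (G : SimpleGraph V) (S : Finset V) (v : V) (hv : v ∉ S) (j : ℕ) :
    ic G (j + 1) (insert v S) = ic G (j + 1) S + ic G j (S.filter (fun w => ¬ G.Adj v w)) :=
  coeff_insert G S v hv j

open Classical in
theorem DD_insert [DecidableEq V] (G : SimpleGraph V) (S : Finset V) (v : V) (hv : v ∉ S) (k : ℕ) :
    DD G (k + 1) (insert v S) = DD G (k + 1) S + DD G k (S.filter (fun w => ¬ G.Adj v w)) := by
  rcases k with _ | k
  · simp only [DD]
    rw [ic_insert G S v hv 0, ic_zero, ic_zero, ic_zero]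
    push_cast
    ring
  · simp only [DD]
    rw [ic_insert G S v hv (k + 1), ic_insert G S v hv k]
    push_cast
    ring

open Classical in
theorem mem_link (G : SimpleGraph V) (S : Finset V) (v w : V) :
    w ∈ link G S v ↔ w ∈ S ∧ w ≠ v ∧ ¬ G.Adj v w := by
  unfold link
  rw [mem_filter, mem_erase]
  tauto

open Classical in
theorem link_eq [DecidableEq V] (G : SimpleGraph V) (S : Finset V) (v : V) :
    link G S v = (S.erase v).filter (fun w => ¬ G.Adj v w) := by
  ext w
  rw [mem_link, mem_filter, mem_erase]
  tauto

open Classical in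
theorem ic_erase [DecidableEq V] (G : SimpleGraph V) (S : Finset V) (v : V) (hv : v ∈ S) (j : ℕ) :
    ic G (j + 1) S = ic G (j + 1) (S.erase v) + ic G j (link G S v) := by
  have := ic_insert G (S.erase v) v (notMem_erase v S) j
  rw [insert_erase hv] at this
  rw [link_eq]
  exact this

open Classical in
theorem DD_erase [DecidableEq V] (G : SimpleGraph V) (S : Finset V) (v : V) (hv : v ∈ S) (k : ℕ) :
    DD G (k + 1) S = DD G (k + 1) (S.erase v) + DD G k (link G S v) := by
  have := DD_insert G (S.erase v) v (notMem_erase v S) k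
  rw [insert_erase hv] at this
  rw [link_eq]
  exact this

theorem link_subset (G : SimpleGraph V) (S : Finset V) (v : V) : link G S v ⊆ S := by
  classical
  exact (filter_subset _ _).trans (erase_subset _ _)

theorem notMem_link (G : SimpleGraph V) (S : Finset V) (v : V) : v ∉ link G S v := by
  classical
  unfold link
  rw [mem_filter, mem_erase]
  tauto

/-- the link has no independent `(k+1)`-set if `S` has no independent `(k+2)`-set -/
theorem link_zero (G : SimpleGraph V) (S : Finset V) (v : V) (hv : v ∈ S) (j : ℕ)
    (h : ic G (j + 1) S = 0) : ic G j (link G S v) = 0 := by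
  classical
  have := ic_erase G S v hv j
  omega

/-- the slice lemma -/
theorem slice (G : SimpleGraph V) (k : ℕ)
    (hb : ∀ L : Finset V, ic G (k + 1) L = 0 → DD G k L ≤ Gam k (ic G k L))
    (S : Finset V) (h0 : ic G (k + 2) S = 0) (v : V) (hv : v ∈ S)
    (hmax : ∀ u ∈ S, ic G k (link G S u) ≤ ic G k (link G S v)) :
    ∃ (U : Finset V) (c : V → ℕ), v ∈ U ∧ c v = ic G k (link G S v) ∧
      (∀ u ∈ U, c u ≤ ic G k (link G S v)) ∧ ic G (k + 1) S = ∑ u ∈ U, c u ∧
      DD G (k + 1) S ≤ ∑ u ∈ U, Gam k (c u) - ic G k (link G S v) := by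
  classical
  obtain ⟨L, hL⟩ : ∃ L, L = link G S v := ⟨_, rfl⟩
  have hLS : L ⊆ S := by rw [hL]; exact link_subset G S v
  have hvL : v ∉ L := by rw [hL]; exact notMem_link G S v
  rw [← hL]
  rw [← hL] at hmax
  have hA : ∀ (W : Finset V) (u : V), W ⊆ S → u ∈ S → u ∉ W →
      ic G (k + 1) (W.filter (fun w => ¬ G.Adj u w)) = 0 ∧
      ic G k (W.filter (fun w => ¬ G.Adj u w)) ≤ ic G k L := by
    intro W u hW hu huW
    constructor
    · have h1 := ic_mono G (insert_subset hu hW) (k + 1 + 1)
      rw [ic_insert G W u huW] at h1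
      have h0' : ic G (k + 1 + 1) S = 0 := h0
      omega
    · refine le_trans (ic_mono G ?_ _) (hmax u hu)
      intro x hx
      rw [mem_filter] at hx
      rw [mem_link]
      exact ⟨hW hx.1, fun h => huW (h ▸ hx.1), hx.2⟩
  have hL0 : ic G (k + 1) L = 0 := by
    rw [hL]; exact link_zero G S v hv (k + 1) h0
  have hins : ∀ U : Finset V, U ⊆ S \ L → ∃ c : V → ℕ, (v ∈ U → c v = ic G k L) ∧
      (∀ u ∈ U, c u ≤ ic G k L) ∧ ic G (k + 1) (L ∪ U) = ∑ u ∈ U, c u ∧
      DD G (k + 1) (L ∪ U) ≤ ∑ u ∈ U, Gam k (c u) - ic G k L := by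
    intro U
    induction U using Finset.induction_on with
    | empty =>
      intro _
      refine ⟨fun _ => 0, by simp, by simp, ?_, ?_⟩
      · rw [union_empty, hL0]; simp
      · rw [union_empty, DD, hL0]; simp
    | insert u U huU ihU =>
      intro hU
      have hUS : U ⊆ S \ L := (subset_insert _ _).trans hU
      have huSL := hU (mem_insert_self u U)
      rw [mem_sdiff] at huSL
      obtain ⟨c, c1, c2, c3, c4⟩ := ihU hUS
      have hu : u ∉ L ∪ U := by
        rw [mem_union]; tauto
      have hW : L ∪ U ⊆ S := union_subset hLS (hUS.trans sdiff_subset)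
      have e1 : L ∪ insert u U = insert u (L ∪ U) := by
        ext x; simp only [mem_union, mem_insert]; tauto
      obtain ⟨a1, a2⟩ := hA (L ∪ U) u hW huSL.1 hu
      refine ⟨Function.update c u (ic G k ((L ∪ U).filter (fun w => ¬ G.Adj u w))), ?_, ?_, ?_, ?_⟩
      · intro hvU
        rw [mem_insert] at hvU
        rcases eq_or_ne v u with rfl | hne
        · rw [Function.update_self]
          congr 1
          ext x
          rw [mem_filter, mem_union, hL, mem_link]
          constructor
          · rintro ⟨hx | hx, hadj⟩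
            · exact hx
            · have hx' := hUS hx
              rw [mem_sdiff] at hx'
              refine ⟨hx'.1, ?_, hadj⟩
              rintro rfl
              exact huU hx
          · rintro hx
            exact ⟨Or.inl hx, hx.2.2⟩
        · rw [Function.update_of_ne hne]
          exact c1 (hvU.resolve_left hne)
      · intro w hw
        rw [mem_insert] at hw
        rcases eq_or_ne w u with rfl | hne
        · rw [Function.update_self]; exact a2
        · rw [Function.update_of_ne hne]
          exact c2 w (hw.resolve_left hne)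
      · rw [e1, ic_insert G _ u hu, c3, sum_insert huU, Function.update_self, add_comm]
        congr 1
        apply sum_congr rfl
        intro w hw
        rw [Function.update_of_ne]
        rintro rfl
        exact huU hw
      · rw [e1, DD_insert G _ u hu, sum_insert huU, Function.update_self]
        have h1 : ∑ x ∈ U, Gam k (Function.update c u
            (ic G k ((L ∪ U).filter (fun w => ¬ G.Adj u w))) x) = ∑ x ∈ U, Gam k (c x) := by
          apply sum_congr rfl
          intro w hw
          rw [Function.update_of_ne]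
          rintro rfl
          exact huU hw
        rw [h1]
        have h2 := hb _ a1
        linarith
  obtain ⟨c, c1, c2, c3, c4⟩ := hins (S \ L) Subset.rfl
  rw [union_sdiff_of_subset hLS] at c3 c4
  have hvU : v ∈ S \ L := mem_sdiff.2 ⟨hv, hvL⟩
  exact ⟨S \ L, c, hvU, c1 hvU, c2, c3, c4⟩

/-- the bound in every dimension -/
theorem DD_le (G : SimpleGraph V) : ∀ (k : ℕ) (S : Finset V), ic G (k + 1) S = 0 →
    DD G k S ≤ Gam k (ic G k S) := by
  classical
  intro k
  induction k with
  | zero =>
    intro S _
    rw [ic_zero, DD]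
    simp [Gam]
  | succ k ih =>
    intro S h0
    rcases S.eq_empty_or_nonempty with rfl | hne
    · rw [DD, ic_empty, Gam_zero]
      simp
    obtain ⟨v, hv, hmax⟩ := S.exists_max_image (fun u => ic G k (link G S u)) hne
    obtain ⟨U, c, h1, h2, h3, h4, h5⟩ := slice G k ih S h0 v hv hmax
    have h6 := Gam_iso k U c v h1 (fun u hu => by rw [h2]; exact h3 u hu)
    rw [h2, ← h4] at h6
    linarith

end Pool.H87.NM
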