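import Pool.Agent.Helper87.NM.Graph1

/-! Counting lemmas for independent sets. -/

open Finset

namespace Pool.H87.NM

open Pool.H78.ND

variable {V : Type}

open Classical in
/-- the independent `j`-subsets of `S` -/
noncomputable def IS (G : SimpleGraph V) (j : ℕ) (S : Finset V) : Finset (Finset V) :=
  (S.powersetCard j).filter (fun s : Finset V => G.IsIndepSet (s : Set V))

theorem card_IS (G : SimpleGraph V) (j : ℕ) (S : Finset V) : (IS G j S).card = ic G j S := by
  classical
  unfold IS ic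
  rw [coeff_P]

theorem mem_IS (G : SimpleGraph V) (j : ℕ) (S I : Finset V) :
    I ∈ IS G j S ↔ I ⊆ S ∧ I.card = j ∧ G.IsIndepSet (I : Set V) := by
  classical
  unfold IS
  rw [mem_filter, mem_powersetCard]
  tauto

theorem indep_subset (G : SimpleGraph V) {s t : Finset V} (h : s ⊆ t)
    (ht : G.IsIndepSet (t : Set V)) : G.IsIndepSet (s : Set V) := by
  intro a ha b hb hab
  exact ht (h ha) (h hb) hab

open Classical in
theorem card_IS_mem (G : SimpleGraph V) (j : ℕ) (S : Finset V) (v : V) (hv : v ∈ S) :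
    ((IS G (j + 1) S).filter (fun I => v ∈ I)).card = ic G j (link G S v) := by
  have h1 := ic_erase G S v hv j
  rw [← card_IS, ← card_IS G (j + 1)] at h1
  have h2 : IS G (j + 1) (S.erase v) = (IS G (j + 1) S).filter (fun I => ¬ v ∈ I) := by
    ext I
    rw [mem_filter, mem_IS, mem_IS]
    constructor
    · rintro ⟨h, h', h''⟩
      refine ⟨⟨h.trans (erase_subset _ _), h', h''⟩, fun hvI => ?_⟩
      exact notMem_erase v S (h hvI)
    · rintro ⟨⟨h, h', h''⟩, hvI⟩
      exact ⟨subset_erase.2 ⟨h, hvI⟩, h', h''⟩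
  have h3 := card_filter_add_card_filter_not (s := IS G (j + 1) S) (fun I => v ∈ I)
  rw [h2] at h1
  omega

/-- the handshake identity -/
theorem handshake (G : SimpleGraph V) (j : ℕ) (S : Finset V) :
    ∑ v ∈ S, ic G j (link G S v) = (j + 1) * ic G (j + 1) S := by
  classical
  have h1 : ∀ v ∈ S, ic G j (link G S v) = ∑ I ∈ IS G (j + 1) S, if v ∈ I then 1 else 0 := by
    intro v hv
    rw [← card_IS_mem G j S v hv, card_filter]
  rw [sum_congr rfl h1, sum_comm]
  have h2 : ∀ I ∈ IS G (j + 1) S, (∑ v ∈ S, if v ∈ I then 1 else 0) = j + 1 := by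
    intro I hI
    rw [mem_IS] at hI
    rw [← card_filter, filter_mem_eq_inter, inter_eq_right.2 hI.1, hI.2.1]
  rw [sum_congr rfl h2, sum_const, card_IS, smul_eq_mul, mul_comm]

/-- the independent sets through the vertices of a clique are disjoint -/
theorem clique_sum (G : SimpleGraph V) (j : ℕ) (S E : Finset V) (hE : E ⊆ S)
    (hcl : ∀ x ∈ E, ∀ y ∈ E, x ≠ y → G.Adj x y) :
    ∑ z ∈ E, ic G j (link G S z) ≤ ic G (j + 1) S := by
  classical
  have h1 : ∀ v ∈ E, ic G j (link G S v) = ((IS G (j + 1) S).filter (fun I => v ∈ I)).card := by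
    intro v hv
    rw [← card_IS_mem G j S v (hE hv)]
  rw [sum_congr rfl h1, ← card_biUnion]
  · rw [← card_IS]
    apply card_le_card
    intro I hI
    rw [mem_biUnion] at hI
    obtain ⟨v, _, hI⟩ := hI
    exact (mem_filter.1 hI).1
  · intro x hx y hy hxy
    rw [Function.onFun, disjoint_left]
    intro I hI hI'
    rw [mem_filter] at hI hI'
    have h3 := ((mem_IS G _ _ _).1 hI.1).2.2
    exact h3 hI.2 hI'.2 hxy (hcl x hx y hy hxy)

open Classical in
/-- the vertices extending `R` to a larger independent set -/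
noncomputable def ext (G : SimpleGraph V) (S R : Finset V) : Finset V :=
  S.filter (fun w => w ∉ R ∧ G.IsIndepSet ((insert w R : Finset V) : Set V))

open Classical in
theorem mem_ext' (G : SimpleGraph V) (S R : Finset V) (w : V) :
    w ∈ ext G S R ↔ w ∈ S ∧ w ∉ R ∧ G.IsIndepSet ((insert w R : Finset V) : Set V) := by
  unfold ext
  rw [mem_filter]

theorem mem_ext [inst : DecidableEq V] (G : SimpleGraph V) (S R : Finset V) (w : V) :
    w ∈ ext G S R ↔ w ∈ S ∧ w ∉ R ∧ G.IsIndepSet ((insert w R : Finset V) : Set V) := by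
  have e : inst = Classical.decEq V := Subsingleton.elim _ _
  subst e
  exact mem_ext' G S R w

theorem dcount [DecidableEq V] (G : SimpleGraph V) (j : ℕ) (S : Finset V) (f : Finset V → ℚ) :
    ∑ I ∈ IS G (j + 1) S, ∑ x ∈ I, f (I.erase x) =
      ∑ R ∈ IS G j S, ((ext G S R).card : ℚ) * f R := by
  have h1 : ∀ R ∈ IS G j S, ((ext G S R).card : ℚ) * f R = ∑ _w ∈ ext G S R, f R := by
    intro R _
    rw [sum_const, nsmul_eq_mul]
  rw [sum_congr rfl h1, sum_sigma', sum_sigma']
  refine sum_bij' (fun a _ => ⟨a.1.erase a.2, a.2⟩) (fun a _ => ⟨insert a.2 a.1, a.2⟩)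
    ?_ ?_ ?_ ?_ ?_
  · rintro ⟨I, x⟩ h
    rw [mem_sigma, mem_IS] at h
    obtain ⟨⟨h1, h2, h3⟩, h4⟩ := h
    simp only at h4
    rw [mem_sigma, mem_IS, mem_ext]
    refine ⟨⟨(erase_subset _ _).trans h1, ?_, indep_subset G (erase_subset _ _) h3⟩,
      h1 h4, notMem_erase _ _, ?_⟩
    · rw [card_erase_of_mem h4, h2]; rfl
    · simp only
      rw [insert_erase h4]; exact h3
  · rintro ⟨R, w⟩ h
    rw [mem_sigma, mem_IS, mem_ext] at h
    obtain ⟨⟨h1, h2, h3⟩, h4, h5, h6⟩ := h
    simp only at h4 h5 h6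
    rw [mem_sigma, mem_IS]
    refine ⟨⟨insert_subset h4 h1, ?_, h6⟩, mem_insert_self _ _⟩
    simp only
    rw [card_insert_of_notMem h5, h2]
  · rintro ⟨I, x⟩ h
    rw [mem_sigma] at h
    simp only
    rw [insert_erase h.2]
  · rintro ⟨R, w⟩ h
    rw [mem_sigma, mem_ext] at h
    simp only
    rw [erase_insert h.2.2.1]
  · rintro ⟨I, x⟩ _
    rfl

/-- the extensions of an independent `j`-set form a clique if there is no independent
`(j+2)`-set -/
theorem ext_clique [DecidableEq V] (G : SimpleGraph V) (j : ℕ) (S R : Finset V)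
    (hR : R ∈ IS G j S) (h0 : ic G (j + 2) S = 0) :
    ∀ x ∈ ext G S R, ∀ y ∈ ext G S R, x ≠ y → G.Adj x y := by
  intro x hx y hy hxy
  rw [mem_ext] at hx hy
  rw [mem_IS] at hR
  by_contra hadj
  have h1 : insert x (insert y R) ∈ IS G (j + 2) S := by
    rw [mem_IS]
    refine ⟨insert_subset hx.1 (insert_subset hy.1 hR.1), ?_, ?_⟩
    · rw [card_insert_of_notMem, card_insert_of_notMem hy.2.1, hR.2.1]
      rw [mem_insert]
      rintro (h | h)
      · exact hxy h
      · exact hx.2.1 h
    · rw [indep_insert G x (insert y R)]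
      · refine ⟨hy.2.2, ?_⟩
        intro w hw
        rw [mem_insert] at hw
        rcases hw with rfl | hw
        · exact hadj
        · have := (indep_insert G x R hx.2.1).1 hx.2.2
          exact this.2 w hw
      · rw [mem_insert]
        rintro (h | h)
        · exact hxy h
        · exact hx.2.1 h
  have h2 : (IS G (j + 2) S).card = 0 := by rw [card_IS, h0]
  rw [card_eq_zero] at h2
  rw [h2] at h1
  exact absurd h1 (notMem_empty _)

/-- existence of the vertex `z` -/
theorem exists_z (G : SimpleGraph V) (j : ℕ) (S : Finset V) (h0 : ic G (j + 2) S = 0)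
    (hlt : ic G j S < ic G (j + 1) S) :
    ∃ z ∈ S, (j + 2) * ic G j (link G S z) ≤ ic G (j + 1) S := by
  classical
  have hex : ∃ R ∈ IS G j S, j + 1 < (ext G S R).card := by
    by_contra hcon
    push Not at hcon
    have h1 := dcount G j S (fun _ => 1)
    have h2 : ∑ I ∈ IS G (j + 1) S, ∑ x ∈ I, (1 : ℚ) = (j + 1) * ic G (j + 1) S := by
      have : ∀ I ∈ IS G (j + 1) S, ∑ x ∈ I, (1 : ℚ) = j + 1 := by
        intro I hI
        rw [mem_IS] at hI
        rw [sum_const, hI.2.1, nsmul_eq_mul, mul_one]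
        push_cast
        ring
      rw [sum_congr rfl this, sum_const, card_IS, nsmul_eq_mul]
      ring
    have h3 : ∑ R ∈ IS G j S, ((ext G S R).card : ℚ) * 1 ≤ (j + 1) * ic G j S := by
      calc ∑ R ∈ IS G j S, ((ext G S R).card : ℚ) * 1 ≤ ∑ R ∈ IS G j S, ((j : ℚ) + 1) := by
            apply sum_le_sum
            intro R hR
            rw [mul_one]
            exact_mod_cast hcon R hR
        _ = (j + 1) * ic G j S := by
            rw [sum_const, card_IS, nsmul_eq_mul]; ring
    rw [h2] at h1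
    rw [← h1] at h3
    have h4 : (ic G (j + 1) S : ℚ) ≤ ic G j S := le_of_mul_le_mul_left h3 (by positivity)
    have h5 : ic G (j + 1) S ≤ ic G j S := by exact_mod_cast h4
    omega
  obtain ⟨R, hR, hc⟩ := hex
  have hE : ext G S R ⊆ S := by
    intro w hw
    rw [mem_ext] at hw
    exact hw.1
  have hne : (ext G S R).Nonempty := card_pos.1 (by omega)
  obtain ⟨z, hz, hmin⟩ := exists_min_image (ext G S R) (fun u => ic G j (link G S u)) hne
  refine ⟨z, hE hz, ?_⟩
  have h1 := clique_sum G j S _ hE (ext_clique G j S R hR h0)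
  calc (j + 2) * ic G j (link G S z) ≤ (ext G S R).card * ic G j (link G S z) :=
        Nat.mul_le_mul_right _ hc
    _ = ∑ _u ∈ ext G S R, ic G j (link G S z) := by rw [sum_const, smul_eq_mul]
    _ ≤ ∑ u ∈ ext G S R, ic G j (link G S u) := sum_le_sum hmin
    _ ≤ _ := h1

end Pool.H87.NM
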