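import Pool.Agent.Helper87.NM.SP

/-! The slice inequality and the isoperimetric inequality for `Gam`. -/

namespace Pool.H87.NM

open Finset

/-- adding a face of size `l` -/
def SS (k : ℕ) : Prop := ∀ n y l, k + 1 ≤ n → 0 < y → y ≤ b k n →
  (sd k n + 1) * l ≤ T (k + 1) n + y →
  Gam (k + 1) (T (k + 1) n + y - l) + Gam k l ≤ Gam (k + 1) (T (k + 1) n + y)

theorem SS_zero : SS 0 := by
  intro n y l hn hy hyb h
  have hb : b 0 n = 1 := rfl
  have hs : sd 0 n = n := by simp [sd]
  have hT : T (0 + 1) n = n := by simp [T]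
  obtain rfl : y = 1 := by omega
  rw [hs, hT] at h
  rw [hT]
  have hl : l ≤ 1 := by
    by_contra hcon
    have : (n + 1) * 2 ≤ (n + 1) * l := Nat.mul_le_mul_left _ (by omega)
    omega
  rcases (show l = 0 ∨ l = 1 by omega) with rfl | rfl
  · rw [Gam_zero, Nat.sub_zero, add_zero]
  · rw [Nat.add_sub_cancel, show (0 : ℕ) + 1 = 1 from rfl, Gam_dim1 n (by omega),
      Gam_dim1 (n + 1) (by omega)]
    simp [Gam]

theorem sd_le {k n s : ℕ} (h : n < (s + 1) * (k + 1)) : sd k n ≤ s := by
  unfold sd
  have : n / (k + 1) < s + 1 := (Nat.div_lt_iff_lt_mul (by omega)).2 h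
  omega

theorem le_sd {k n s : ℕ} (h : s * (k + 1) ≤ n) : s ≤ sd k n := by
  unfold sd
  exact (Nat.le_div_iff_mul_le (by omega)).2 h

theorem cell_ge_of_two (k n y : ℕ) (hyb : y ≤ b k n) (h2 : 2 ≤ T (k + 1) n + y) :
    k + 1 ≤ n := by
  have h1 : T (k + 1) (k + 1) < T (k + 1) (n + 1) := by
    rw [T_self, T_step]; omega
  have := lt_of_T h1
  omega

theorem SS_step (k : ℕ) (h : SS k) : SS (k + 1) := by
  intro n y l hn hy hyb hl
  obtain ⟨s, r, hns, hr, hs, hidx⟩ := split (k + 1) n
  have hsd : sd (k + 1) n = s := hs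
  have hs1 : 1 ≤ s := by
    rw [← hsd]; exact le_sd (by omega)
  obtain ⟨n₀, rfl⟩ : ∃ n₀, n = n₀ + 1 := ⟨n - 1, by omega⟩
  have hTs : T (k + 1 + 1) (n₀ + 1) = T (k + 1 + 1) n₀ + b (k + 1) n₀ := T_step _ _
  have hTe : T (k + 1 + 1) (n₀ + 1) = s * b (k + 1) (n₀ + 1) := by rw [T_eq, hsd]
  have hbpos : 0 < b (k + 1) (n₀ + 1) := b_pos _ _ (by omega)
  have hTpos : b (k + 1) (n₀ + 1) ≤ T (k + 1 + 1) (n₀ + 1) := by
    rw [hTe]; exact Nat.le_mul_of_pos_left _ (by omega)
  rcases le_or_gt l y with hly | hly
  · -- case (i)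
    rw [Nat.add_sub_assoc hly, Gam_cell' (k + 1) (n₀ + 1) _ hn (by omega),
      Gam_cell' (k + 1) (n₀ + 1) _ hn hyb]
    have := Gam_super k (y - l) l
    rw [Nat.sub_add_cancel hly] at this
    linarith
  rcases le_or_gt l (b (k + 1) n₀) with hlb | hlb
  · -- case (ii)
    have e1 : T (k + 1 + 1) (n₀ + 1) + y - l = T (k + 1 + 1) n₀ + (b (k + 1) n₀ + y - l) := by
      omega
    have h1 := Gam_exch k (n₀ - n₀ / (k + 1 + 1)) (b (k + 1) n₀ + y - l) l (by
      change _ ≤ b (k + 1) n₀
      omega) hlb (by
      change b (k + 1) n₀ ≤ _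
      omega)
    change _ ≤ Gam (k + 1) (b (k + 1) n₀) +
      Gam (k + 1) (b (k + 1) n₀ + y - l + l - b (k + 1) n₀) at h1
    rw [show b (k + 1) n₀ + y - l + l - b (k + 1) n₀ = y by omega] at h1
    rw [e1, Gam_cell (k + 1) n₀ _ (by omega) (by omega), Gam_cell' (k + 1) (n₀ + 1) _ hn hyb,
      Dl_step]
    have e2 : Gam (k + 1) (b (k + 1) n₀) = db (k + 1) n₀ := by
      apply Gam_T
      have := idx_ge (k + 1) n₀ (by omega)
      exact this
    rw [e2] at h1
    linarith
  · -- case (iii)
    rcases Nat.eq_zero_or_pos r with hr0 | hr0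
    · exfalso
      have e1 : n₀ / (k + 1 + 1) = s - 1 := by
        have : n₀ = (s - 1) * (k + 1 + 1) + (k + 1) := by
          obtain ⟨s', rfl⟩ : ∃ s', s = s' + 1 := ⟨s - 1, by omega⟩
          rw [Nat.add_sub_cancel]
          have : (s' + 1) * (k + 1 + 1) = s' * (k + 1 + 1) + (k + 1 + 1) := by ring
          omega
        rw [this]
        exact div_of (s - 1) (k + 1) (k + 1) le_rfl
      have e2 : b (k + 1) n₀ = b (k + 1) (n₀ + 1) := by
        unfold b
        rw [e1, hs]
        congr 1
        omega
      have h1 : (s + 1) * (b (k + 1) (n₀ + 1) + 1) ≤ s * b (k + 1) (n₀ + 1) + y := by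
        rw [← hTe]
        rw [hsd] at hl
        exact le_trans (Nat.mul_le_mul_left _ (by omega)) hl
      have h2 : (s + 1) * (b (k + 1) (n₀ + 1) + 1) =
        s * b (k + 1) (n₀ + 1) + b (k + 1) (n₀ + 1) + s + 1 := by ring
      omega
    · have e1 : n₀ / (k + 1 + 1) = s := by
        have : n₀ = s * (k + 1 + 1) + (r - 1) := by omega
        rw [this]
        exact div_of s (k + 1) (r - 1) (by omega)
      obtain ⟨m, hm⟩ : ∃ m, m = n₀ - s := ⟨_, rfl⟩
      have hm2 : m = s * (k + 1) + (r - 1) := by omega
      have hsm : sd k m = s := by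
        rw [hm2]; exact div_of s k (r - 1) (by omega)
      have hsn : s ≤ n₀ := by
        rw [← e1]; exact Nat.div_le_self _ _
      have eb0 : b (k + 1) n₀ = s * b k m := by
        have : b (k + 1) n₀ = T (k + 1) m := by
          unfold b; rw [e1, ← hm]
        rw [this, T_eq, hsm]
      have eb1 : b (k + 1) (n₀ + 1) = (s + 1) * b k m := by
        have : b (k + 1) (n₀ + 1) = T (k + 1) (m + 1) := by
          unfold b; rw [hs]; congr 1; omega
        rw [this, T_succ, hsm]
      have edb : db (k + 1) n₀ = Dl (k + 1) m := by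
        unfold db; rw [e1, ← hm]
      obtain ⟨u, hu⟩ : ∃ u, l = b (k + 1) n₀ + u := ⟨l - b (k + 1) n₀, by omega⟩
      have hu0 : 0 < u := by omega
      have hsu : (s + 1) * u ≤ y := by
        rw [hsd, hTe, eb1, hu, eb0] at hl
        have e3 : (s + 1) * (s * b k m + u) = s * ((s + 1) * b k m) + (s + 1) * u := by ring
        omega
      have huc : u ≤ b k m := by
        have h1 : (s + 1) * u ≤ (s + 1) * b k m := by
          rw [← eb1]; exact hsu.trans hyb
        exact Nat.le_of_mul_le_mul_left h1 (by omega)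
      have h2u : 2 * u ≤ y := le_trans (Nat.mul_le_mul_right _ (by omega)) hsu
      have e4 : T (k + 1 + 1) (n₀ + 1) + y - l = T (k + 1 + 1) n₀ + (y - u) := by omega
      have e5 : Gam (k + 1) l = Dl (k + 1) m + Gam k u := by
        rw [hu]
        have : b (k + 1) n₀ = T (k + 1) m := by
          rw [eb0, T_eq, hsm]
        rw [this]
        exact Gam_cell k m u hu0 huc
      rw [e4, e5, Gam_cell (k + 1) n₀ _ (by omega) (by omega),
        Gam_cell' (k + 1) (n₀ + 1) _ hn hyb, Dl_step, edb]
      -- the recursion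
      obtain ⟨ny, v, hny, hv, hvb, hy'⟩ := exists_cell k y hy
      have hny2 : k + 1 ≤ ny := cell_ge_of_two k ny v hvb (by omega)
      have hnyl : ny < s * (k + 1) + r := by
        have h1 : T (k + 1) ny < T (k + 1) (n₀ + 1 - s) := by
          have : b (k + 1) (n₀ + 1) = T (k + 1) (n₀ + 1 - s) := by
            unfold b; rw [hs]
          omega
        have := lt_of_T h1
        omega
      have hsdy : sd k ny ≤ s := by
        apply sd_le
        have : (s + 1) * (k + 1) = s * (k + 1) + (k + 1) := by ring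
        omega
      have h3 := h ny v u hny2 hv hvb (by
        rw [← hy']
        exact le_trans (Nat.mul_le_mul_right _ (by omega)) hsu)
      rw [← hy'] at h3
      linarith

theorem SS_all (k : ℕ) : SS k := by
  induction k with
  | zero => exact SS_zero
  | succ k ih => exact SS_step k ih

theorem T_pow (k t : ℕ) : T k (t * k) = t ^ k := by
  induction k with
  | zero => rfl
  | succ k ih =>
    rw [T_eq, sd, b, Nat.mul_div_cancel _ (by omega : 0 < k + 1)]
    rw [show t * (k + 1) - t = t * k by
      rw [Nat.mul_succ, Nat.add_sub_cancel], ih, pow_succ]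
    ring

/-- adding a face: all sides at most `t + 1` -/
theorem Gam_face (k w l t : ℕ) (ht : 1 ≤ t) (h1 : w ≤ (t + 1) ^ (k + 1))
    (h2 : (t + 1) * l ≤ w) : Gam (k + 1) (w - l) + Gam k l ≤ Gam (k + 1) w := by
  rcases Nat.eq_zero_or_pos l with rfl | hl
  · rw [Gam_zero, Nat.sub_zero, add_zero]
  have hw : 2 ≤ w := by
    calc 2 = 2 * 1 := rfl
      _ ≤ (t + 1) * l := Nat.mul_le_mul (by omega) hl
      _ ≤ w := h2
  obtain ⟨n, y, hn, hy, hyb, rfl⟩ := exists_cell k w (by omega)
  apply SS_all k n y l (cell_ge_of_two k n y hyb hw) hy hyb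
  refine le_trans (Nat.mul_le_mul_right _ ?_) h2
  have h3 : sd k n ≤ t := by
    apply sd_le
    apply lt_of_T (k := k + 1)
    rw [T_pow]
    omega
  omega

theorem sum_gam0 {ι : Type} [DecidableEq ι] (s : Finset ι) (c : ι → ℕ) (i₀ : ι) (h0 : i₀ ∈ s)
    (hmax : ∀ i ∈ s, c i ≤ c i₀) :
    ∑ i ∈ s, Gam 0 (c i) - c i₀ ≤ Gam (0 + 1) (∑ i ∈ s, c i) := by
  rcases Nat.eq_zero_or_pos (∑ i ∈ s, c i) with h | h
  · have h1 : ∀ i ∈ s, c i = 0 := by
      intro i hi
      exact (Finset.sum_eq_zero_iff.1 h) i hi
    rw [h, Gam_zero, h1 i₀ h0, Finset.sum_eq_zero]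
    · simp
    · intro i hi
      rw [h1 i hi, Gam_zero]
  · have hc : 1 ≤ c i₀ := by
      by_contra hcon
      have : ∑ i ∈ s, c i = 0 := by
        apply Finset.sum_eq_zero
        intro i hi
        have := hmax i hi
        omega
      omega
    rw [show 0 + 1 = 1 from rfl, Gam_dim1 _ h, ← Finset.add_sum_erase s _ h0,
      ← Finset.add_sum_erase s c h0]
    have h1 : ∑ i ∈ s.erase i₀, Gam 0 (c i) ≤ ((∑ i ∈ s.erase i₀, c i : ℕ) : ℤ) := by
      rw [Nat.cast_sum]
      apply Finset.sum_le_sum
      intro i _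
      unfold Gam
      split_ifs with h2
      · rw [h2]; simp
      · have : 1 ≤ c i := by omega
        exact_mod_cast this
    have h2 : Gam 0 (c i₀) = 1 := by
      unfold Gam
      rw [if_neg (by omega)]
    have h3 : (1 : ℤ) ≤ (c i₀ : ℤ) := by exact_mod_cast hc
    rw [h2]
    push_cast at *
    linarith

/-- the isoperimetric inequality -/
theorem Gam_iso (k : ℕ) : ∀ {ι : Type} [DecidableEq ι] (s : Finset ι) (c : ι → ℕ) (i₀ : ι),
    i₀ ∈ s → (∀ i ∈ s, c i ≤ c i₀) →
    ∑ i ∈ s, Gam k (c i) - c i₀ ≤ Gam (k + 1) (∑ i ∈ s, c i) := by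
  induction k with
  | zero => intro ι _ s c i₀ h0 hmax; exact sum_gam0 s c i₀ h0 hmax
  | succ k ihk =>
    intro ι _ s c i₀ h0 hmax
    obtain ⟨a, ha⟩ : ∃ a, a = ∑ i ∈ s, c i := ⟨_, rfl⟩
    rw [← ha]
    induction a using Nat.strong_induction_on generalizing s c with
    | _ a iha =>
      rcases Nat.eq_zero_or_pos a with h | hapos
      · have h1 : ∀ i ∈ s, c i = 0 := by
          intro i hi
          exact (Finset.sum_eq_zero_iff.1 (ha.symm.trans h)) i hi
        rw [h, Gam_zero, h1 i₀ h0, Finset.sum_eq_zero]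
        · simp
        · intro i hi
          rw [h1 i hi, Gam_zero]
      have hX : 1 ≤ c i₀ := by
        by_contra hcon
        have : ∑ i ∈ s, c i = 0 := by
          apply Finset.sum_eq_zero
          intro i hi
          have := hmax i hi
          omega
        omega
      obtain ⟨n, y, hn, hy, hyb, hae⟩ := exists_cell (k + 1) a hapos
      rcases Nat.lt_or_ge n (k + 2) with hnk | hnk
      · -- a = 1
        obtain rfl : n = k + 1 := by omega
        have hb1 : b (k + 1) (k + 1) = 1 := by
          rw [b, Nat.div_eq_of_lt (Nat.lt_succ_self (k + 1)), Nat.sub_zero, T_self]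
        have hT0 : T (k + 1 + 1) (k + 1) = 0 := T_zero _ _ (by omega)
        have ha1 : a = 1 := by omega
        have hle : c i₀ ≤ ∑ i ∈ s, c i := Finset.single_le_sum (fun _ _ => Nat.zero_le _) h0
        have hc1 : c i₀ = 1 := by omega
        have hrest : ∀ i ∈ s.erase i₀, c i = 0 := by
          have h1 := Finset.add_sum_erase s c h0
          have h2 : ∑ i ∈ s.erase i₀, c i = 0 := by omega
          exact fun i hi => (Finset.sum_eq_zero_iff.1 h2) i hi
        rw [ha1, Gam_one (k + 1), ← Finset.add_sum_erase s _ h0, Finset.sum_eq_zero (s := s.erase i₀),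
          hc1]
        · push_cast
          linarith
        · intro i hi
          rw [hrest i hi, Gam_zero]
      obtain ⟨t, r, hns, hr, hs, hidx⟩ := split (k + 1) n
      have hsd : sd (k + 1) n = t := hs
      have ht1 : 1 ≤ t := by
        rw [← hsd]; exact le_sd (by omega)
      have hTe : T (k + 1 + 1) n = t * b (k + 1) n := by rw [T_eq, hsd]
      have hSS : ∀ l, (t + 1) * l ≤ a → Gam (k + 2) (a - l) + Gam (k + 1) l ≤ Gam (k + 2) a := by
        intro l hl
        have := SS_all (k + 1) n y l hnk hy hyb (by rw [hsd, ← hae]; exact hl)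
        rw [← hae] at this
        exact this
      obtain ⟨F, hF⟩ : ∃ F, F = s.filter (fun i => c i ≠ 0) := ⟨_, rfl⟩
      have hFs : F ⊆ s := by rw [hF]; exact Finset.filter_subset _ _
      have hFsum : ∑ i ∈ F, c i = a := by
        rw [hF, Finset.sum_filter_ne_zero, ha]
      have h0F : i₀ ∈ F := by
        rw [hF, Finset.mem_filter]
        exact ⟨h0, by omega⟩
      rcases Nat.lt_or_ge t F.card with hq | hq
      · -- case A
        have hne : (F.erase i₀).Nonempty := by
          rw [← Finset.card_pos, Finset.card_erase_of_mem h0F]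
          omega
        obtain ⟨i₁, hi₁, hmin⟩ := Finset.exists_min_image (F.erase i₀) c hne
        rw [Finset.mem_erase] at hi₁
        have hc1 : 0 < c i₁ := by
          have := hi₁.2
          rw [hF, Finset.mem_filter] at this
          omega
        have hl : (t + 1) * c i₁ ≤ a := by
          calc (t + 1) * c i₁ ≤ F.card * c i₁ := Nat.mul_le_mul_right _ hq
            _ = ∑ _i ∈ F, c i₁ := by rw [Finset.sum_const, smul_eq_mul]
            _ ≤ ∑ i ∈ F, c i := by
              apply Finset.sum_le_sum
              intro i hi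
              rcases eq_or_ne i i₀ with rfl | hne
              · exact hmax i₁ (hFs hi₁.2)
              · exact hmin i (Finset.mem_erase.2 ⟨hne, hi⟩)
            _ = a := hFsum
        have hi₁s : i₁ ∈ s := hFs hi₁.2
        have e1 := Finset.add_sum_erase s c hi₁s
        have e2 := Finset.add_sum_erase s (fun i => Gam (k + 1) (c i)) hi₁s
        have h1 := iha (a - c i₁) (by omega) (s.erase i₁) c
          (Finset.mem_erase.2 ⟨hi₁.1.symm, h0⟩)
          (fun i hi => hmax i (Finset.mem_of_mem_erase hi)) (by omega)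
        have h2 := hSS (c i₁) hl
        rw [← e2]
        linarith
      · -- case B
        have hXa : a ≤ t * c i₀ := by
          calc a = ∑ i ∈ F, c i := hFsum.symm
            _ ≤ ∑ _i ∈ F, c i₀ := Finset.sum_le_sum (fun i hi => hmax i (hFs hi))
            _ = F.card * c i₀ := by rw [Finset.sum_const, smul_eq_mul]
            _ ≤ t * c i₀ := Nat.mul_le_mul_right _ hq
        have hXb : b (k + 1) n < c i₀ := by
          by_contra hcon
          have : t * c i₀ ≤ t * b (k + 1) n := Nat.mul_le_mul_left _ (by omega)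
          omega
        obtain ⟨p, v, hp, hv, hvb, hXe⟩ := exists_cell k (c i₀) (by omega)
        have hpn : n - n / (k + 1 + 1) ≤ p := by
          have h1 : T (k + 1) (n - n / (k + 1 + 1)) < T (k + 1) (p + 1) := by
            rw [T_step]
            change b (k + 1) n < _
            omega
          have := lt_of_T h1
          omega
        have hpk : k + 1 ≤ p := (idx_ge (k + 1) n (by omega)).trans hpn
        have hsp : t ≤ sd k p := by
          apply le_sd
          rw [hidx] at hpn
          omega
        have hTp : T (k + 1) p = sd k p * b k p := T_eq k p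
        have hmin : ∀ i ∈ s, Gam (k + 1) (c i) =
            Gam (k + 1) (min (c i) (T (k + 1) p)) + Gam k (c i - T (k + 1) p) := by
          intro i hi
          rcases le_or_gt (c i) (T (k + 1) p) with h | h
          · rw [min_eq_left h, Nat.sub_eq_zero_of_le h, Gam_zero, add_zero]
          · obtain ⟨e, he⟩ : ∃ e, c i = T (k + 1) p + e := ⟨c i - T (k + 1) p, by omega⟩
            have hle := hmax i hi
            rw [min_eq_right h.le, he, Nat.add_sub_cancel_left, Gam_T _ _ hpk,
              Gam_cell' k p e hpk (by omega)]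
        obtain ⟨l, hl⟩ : ∃ l, l = ∑ i ∈ s, (c i - T (k + 1) p) := ⟨_, rfl⟩
        have hsum : ∑ i ∈ s, min (c i) (T (k + 1) p) + l = a := by
          rw [hl, ← Finset.sum_add_distrib, ha]
          apply Finset.sum_congr rfl
          intro i _
          omega
        have hl0 : 0 < l := by
          have h1 : c i₀ - T (k + 1) p ≤ l := by
            rw [hl]
            exact Finset.single_le_sum (f := fun i => c i - T (k + 1) p)
              (fun _ _ => Nat.zero_le _) h0
          omega
        have hla : (t + 1) * l ≤ a := by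
          rw [hl, Finset.mul_sum, ha]
          apply Finset.sum_le_sum
          intro i hi
          have hle := hmax i hi
          rcases le_or_gt (c i) (T (k + 1) p) with h | h
          · rw [Nat.sub_eq_zero_of_le h, mul_zero]; exact Nat.zero_le _
          · obtain ⟨e, he⟩ : ∃ e, c i = T (k + 1) p + e := ⟨c i - T (k + 1) p, by omega⟩
            rw [he, Nat.add_sub_cancel_left, hTp]
            have heb : e ≤ b k p := by omega
            have h1 : t * e ≤ sd k p * b k p := Nat.mul_le_mul hsp heb
            have h2 : (t + 1) * e = t * e + e := by ring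
            omega
        have h1 := iha (a - l) (by omega) s (fun i => min (c i) (T (k + 1) p)) h0
          (fun i hi => min_le_min_right _ (hmax i hi)) (by omega)
        have h2 := ihk s (fun i => c i - T (k + 1) p) i₀ h0
          (fun i hi => Nat.sub_le_sub_right (hmax i hi) _)
        have h3 := hSS l hla
        rw [← hl] at h2
        have e3 : min (c i₀) (T (k + 1) p) = T (k + 1) p := min_eq_right (by omega)
        rw [e3] at h1
        have e4 : ((c i₀ - T (k + 1) p : ℕ) : ℤ) = (c i₀ : ℤ) - T (k + 1) p := by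
          rw [Nat.cast_sub (by omega)]
        rw [e4] at h2
        rw [Finset.sum_congr rfl hmin, Finset.sum_add_distrib]
        linarith

end Pool.H87.NM
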