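import Pool.Agent.Helper87.NM.Struct2

/-! The lower bound: `i_m > i_{m-1}` and no independent `(m+1)`-set force
`i_m ≥ m^m + minProd m`. -/

open Finset Polynomial

namespace Pool.H87.NM

open Pool.H78.ND

variable {V : Type}

/-- the products of `n` integers between `1` and `m` with sum of inverses less than one -/
def BoxSet (n m : ℕ) : Set ℕ :=
  {x | ∃ t : Fin n → ℕ, (∀ i, 1 ≤ t i ∧ t i ≤ m) ∧ ∑ i, (1 : ℚ) / t i < 1 ∧ x = ∏ i, t i}

theorem boxSet_of {ι : Type} (J : Finset ι) (t : ι → ℕ) (n m : ℕ) (hJ : J.card = n)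
    (h1 : ∀ i ∈ J, 1 ≤ t i ∧ t i ≤ m) (h2 : ∑ i ∈ J, (1 : ℚ) / t i < 1) :
    ∏ i ∈ J, t i ∈ BoxSet n m := by
  classical
  obtain ⟨e, he⟩ : ∃ e, e = J.equivFinOfCardEq hJ := ⟨_, rfl⟩
  refine ⟨fun i => t (e.symm i), fun i => h1 _ (e.symm i).2, ?_, ?_⟩
  · rw [← sum_coe_sort J (fun i => (1 : ℚ) / t i)] at h2
    rw [← e.symm.sum_comp (fun i : J => (1 : ℚ) / t i)] at h2
    exact h2
  · rw [← prod_coe_sort J (fun i => t i), ← e.symm.prod_comp (fun i : J => t i)]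

theorem main_aux [DecidableEq V] (k : ℕ) (hk : 2 ≤ k) (G : SimpleGraph V) (S : Finset V)
    (h0 : ic G (k + 3) S = 0) (hD : 1 ≤ DD G (k + 2) S)
    (hmin : ∀ v ∈ S, DD G (k + 2) (S.erase v) ≤ 0)
    (hlt : ic G (k + 2) S < (k + 2) * ((k + 2) * (k + 2) ^ k) + (k + 2) * (k + 1) ^ k) :
    ∃ x ∈ BoxSet (k + 1) (k + 2), ic G (k + 2) S = (k + 2) * ((k + 2) * (k + 2) ^ k) + x := by
  obtain ⟨R, hR⟩ : ∃ R, R = (k + 2) ^ k := ⟨_, rfl⟩
  obtain ⟨p, hp⟩ : ∃ p, p = (k + 1) ^ k := ⟨_, rfl⟩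
  obtain ⟨h1p, hpR⟩ := r1 k
  rw [← hp, ← hR] at hpR
  rw [← hp] at h1p
  rw [← hR, ← hp] at hlt
  rw [← hR]
  have hRpos : 0 < R := by omega
  have hRZ : ((k : ℤ) + 2) ^ k = R := by rw [hR]; push_cast; ring
  have hb := DD_le G (k + 2) S h0
  obtain ⟨a, ha⟩ : ∃ a, a = ic G (k + 2) S := ⟨_, rfl⟩
  rw [← ha] at hlt hb ⊢
  -- a > m^m
  have ha1 : (k + 2) * ((k + 2) * R) < a := by
    by_contra hcon
    push Not at hcon
    have := f6 k a (by rw [← hR]; exact hcon)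
    linarith
  obtain ⟨y, hy⟩ : ∃ y, a = (k + 2) * ((k + 2) * R) + y := ⟨a - (k + 2) * ((k + 2) * R), by omega⟩
  have hyp : y < (k + 2) * p := by omega
  have hyR : y ≤ (k + 2) * R := hyp.le.trans (Nat.mul_le_mul_left _ hpR)
  have hy0 : (k + 1) * p < y := by
    by_contra hcon
    push Not at hcon
    have h1 := f4 k y (by rw [← hR]; exact hyR)
    rw [← hR, ← hy] at h1
    have h2 := f1 k y (by rw [← hp]; exact hcon)
    linarith
  -- degrees
  have hdeg : ∀ v ∈ S, (k + 1) * p < ic G (k + 1) (link G S v) := by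
    intro v hv
    by_contra hcon
    push Not at hcon
    have h1 := DD_erase G S v hv (k + 1)
    have h2 := hmin v hv
    have h3 := DD_le G (k + 1) (link G S v) (link_zero G S v hv (k + 2) h0)
    have h4 := f1 k (ic G (k + 1) (link G S v)) (by rw [← hp]; exact hcon)
    change DD G (k + 2) S = DD G (k + 2) (S.erase v) + _ at h1
    linarith
  have hDS : DD G (k + 2) S = (ic G (k + 2) S : ℤ) - ic G (k + 1) S := rfl
  obtain ⟨z, hz, hzc⟩ := exists_z G (k + 1) S h0 (by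
    change ic G (k + 1) S < ic G (k + 2) S
    omega)
  change (k + 3) * ic G (k + 1) (link G S z) ≤ ic G (k + 2) S at hzc
  rw [← ha] at hzc
  obtain ⟨c, hc⟩ : ∃ c, c = ic G (k + 1) (link G S z) := ⟨_, rfl⟩
  have hc0 := hdeg z hz
  have hDz := DD_erase G S z hz (k + 1)
  change DD G (k + 2) S = DD G (k + 2) (S.erase z) + _ at hDz
  have hγz := DD_le G (k + 1) (link G S z) (link_zero G S z hz (k + 2) h0)
  have haz := ic_erase G S z hz (k + 1)
  change ic G (k + 2) S = ic G (k + 2) (S.erase z) + _ at haz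
  rw [← hc] at hzc hc0 hγz haz
  rw [← ha] at haz
  have h0' : ic G (k + 3) (S.erase z) = 0 := by
    have := ic_mono G (erase_subset z S) (k + 3)
    omega
  have hbz := DD_le G (k + 2) (S.erase z) h0'
  rw [show ic G (k + 2) (S.erase z) = a - c by omega] at hbz
  have h8 := f8 k y c hk (by rw [← hp]; exact hy0) (by rw [← hp]; exact hyp)
    (by rw [← hp]; exact hc0) (by rw [← hR, ← hy]; exact hzc)
    (by rw [← hR, ← hy]; linarith)
  rw [← hR, hRZ] at h8
  obtain ⟨hcy, hNX⟩ := h8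
  obtain ⟨u, hu⟩ : ∃ u : ℤ, u = (c : ℤ) - y := ⟨_, rfl⟩
  obtain ⟨g, hg⟩ : ∃ g, g = Gam (k + 1) c := ⟨_, rfl⟩
  rw [← hu, ← hg] at hNX
  rw [← hg] at hγz
  have huR : u < R := by
    rw [hu]
    have : (c : ℤ) < y + R := by exact_mod_cast hcy
    linarith
  have hup : -(p : ℤ) < u := by
    rw [hu]
    have h1 : ((k : ℤ) + 1) * p < c := by exact_mod_cast hc0
    have h2 : (y : ℤ) < (k + 2) * p := by exact_mod_cast hyp
    linarith
  have hpRz : (p : ℤ) ≤ R := by exact_mod_cast hpR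
  have ha' : (ic G (k + 2) (S.erase z) : ℤ) = (k + 2) ^ 2 * R - u := by
    have h1 : (a : ℤ) = ic G (k + 2) (S.erase z) + c := by exact_mod_cast haz
    have h2 : (a : ℤ) = (k + 2) * ((k + 2) * R) + y := by exact_mod_cast hy
    rw [hu]
    linarith
  have hD' : 1 - g ≤ DD G (k + 2) (S.erase z) := by linarith
  have hxmax := xmax k R (by omega) hR G (S.erase z) h0' u g ha' hD' hNX (by linarith)
  have hxmin := xmin k R p hk hR hp G S z hz h0 hdeg u g ha' hD' hNX hup huR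
  have hcard := card_le k R hR G (S.erase z) h0' u g ha' hD' hNX (by linarith) hxmin hxmax
  have hratio : (ic G (k + 1) (S.erase z) : ℚ) <
      (1 + 2 / (((k + 2 : ℕ) : ℚ) * (((k + 2 : ℕ) : ℚ) ^ 2 - 1))) * ic G (k + 2) (S.erase z) := by
    have h1 : DD G (k + 2) (S.erase z) =
      (ic G (k + 2) (S.erase z) : ℤ) - ic G (k + 1) (S.erase z) := rfl
    rw [h1] at hD'
    have h2 := mul_lt_mul_of_pos_left hNX (show (0 : ℤ) < (k : ℤ) + 1 by positivity)
    have h3 : (0 : ℤ) < ((k : ℤ) + 2) * (k + 3) * (R - u) := by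
      apply mul_pos (by positivity)
      linarith
    have h4 : ((k : ℤ) + 1) * ((k + 2) * (k + 3) * (g - 1)) <
        2 * ic G (k + 2) (S.erase z) := by
      rw [ha']
      linarith
    have h5 : (ic G (k + 1) (S.erase z) : ℤ) ≤ ic G (k + 2) (S.erase z) + (g - 1) := by linarith
    obtain ⟨A, hA⟩ : ∃ A : ℚ, A = ic G (k + 2) (S.erase z) := ⟨_, rfl⟩
    obtain ⟨B, hB⟩ : ∃ B : ℚ, B = ic G (k + 1) (S.erase z) := ⟨_, rfl⟩
    have h4' : ((k : ℚ) + 1) * ((k + 2) * (k + 3) * ((g : ℚ) - 1)) < 2 * A := by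
      rw [hA]; exact_mod_cast h4
    have h5' : B ≤ A + ((g : ℚ) - 1) := by
      rw [hA, hB]; exact_mod_cast h5
    rw [← hA, ← hB]
    have e1 : ((k + 2 : ℕ) : ℚ) * (((k + 2 : ℕ) : ℚ) ^ 2 - 1) = (k + 1) * ((k + 2) * (k + 3)) := by
      push_cast; ring
    rw [e1]
    have hpos : (0 : ℚ) < (k + 1) * ((k + 2) * (k + 3)) := by positivity
    have h6 : (g : ℚ) - 1 < 2 / ((k + 1) * ((k + 2) * (k + 3))) * A := by
      rw [div_mul_eq_mul_div, lt_div_iff₀ hpos]
      linarith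
    linarith
  obtain ⟨I, F, hI, hFc, hFq, hFd, hFn, hFU⟩ := structure_S' k (by omega) G (S.erase z) h0' hcard
    hratio (by rw [← hR]; exact hxmin)
  -- the polynomial of S'
  have hP : P G (S.erase z) = (1 + C (k + 2) * X) ^ (k + 2) := by
    rw [hFU, P_multi G F I hFq hFd hFn]
    have : ∀ j ∈ I, (1 + C (F j).card * X : ℕ[X]) = 1 + C (k + 2) * X := by
      intro j hj
      rw [hFc j hj]
    rw [prod_congr rfl this, prod_const, hI]
  have hi2 : ic G (k + 2) (S.erase z) = (k + 2) ^ (k + 2) := by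
    rw [ic, hP, coeff_lin_pow, Nat.choose_self, one_mul]
  have hi1 : ic G (k + 1) (S.erase z) = (k + 2) ^ (k + 2) := by
    rw [ic, hP, coeff_lin_pow, Nat.choose_succ_self_right]
    rw [← pow_succ']
  have hpow : (k + 2) ^ (k + 2) = (k + 2) * ((k + 2) * R) := by
    rw [hR, pow_succ, pow_succ]; ring
  have hcy' : c = y := by
    rw [hi2, hpow] at haz
    omega
  have hDD' : DD G (k + 2) (S.erase z) = 0 := by
    have h1 : DD G (k + 2) (S.erase z) =
      (ic G (k + 2) (S.erase z) : ℤ) - ic G (k + 1) (S.erase z) := rfl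
    rw [h1, hi1, hi2]; simp
  have hDL : 1 ≤ DD G (k + 1) (link G S z) := by linarith
  -- the link of z
  obtain ⟨L, hL⟩ : ∃ L, L = link G S z := ⟨_, rfl⟩
  obtain ⟨t, ht⟩ : ∃ t : V → ℕ, t = fun x => (F x ∩ L).card := ⟨_, rfl⟩
  have hLS : L ⊆ S.erase z := by
    intro w hw
    rw [hL, mem_link] at hw
    exact mem_erase.2 ⟨hw.2.1, hw.1⟩
  have hLU : L = I.biUnion (fun x => F x ∩ L) := by
    ext w
    rw [mem_biUnion]
    constructor
    · intro hw
      have h1 := hLS hw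
      rw [hFU, mem_biUnion] at h1
      obtain ⟨x, hx, hwx⟩ := h1
      exact ⟨x, hx, mem_inter.2 ⟨hwx, hw⟩⟩
    · rintro ⟨x, _, hw⟩
      exact (mem_inter.1 hw).2
  have hPL : P G L = ∏ x ∈ I, (1 + C (t x) * X) := by
    conv_lhs => rw [hLU]
    rw [P_multi G (fun x => F x ∩ L) I]
    · rw [ht]
    · intro j hj
      exact (hFq j hj).mono inter_subset_left
    · intro i hi j hj hij
      exact (hFd i hi j hj hij).mono inter_subset_left inter_subset_left
    · intro i hi j hj hij x hx w hw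
      exact hFn i hi j hj hij x (mem_inter.1 hx).1 w (mem_inter.1 hw).1
  have hL0 : ic G (k + 2) L = 0 := by
    rw [hL]; exact link_zero G S z hz (k + 2) h0
  have hc1 := coeff_prod_lin t I
  rw [← hPL, hI] at hc1
  have hprod0 : ∏ x ∈ I, t x = 0 := by
    rw [← hc1.2.1]; exact hL0
  rw [prod_eq_zero_iff] at hprod0
  obtain ⟨x₀, hx₀, hx₀t⟩ := hprod0
  have hPL' : P G L = ∏ x ∈ I.erase x₀, (1 + C (t x) * X) := by
    rw [hPL, ← mul_prod_erase I _ hx₀, hx₀t]
    simp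
  have hJ : (I.erase x₀).card = k + 1 := by
    rw [card_erase_of_mem hx₀, hI]; rfl
  have hc2 := coeff_prod_lin t (I.erase x₀)
  rw [← hPL', hJ] at hc2
  have hcT : ∏ x ∈ I.erase x₀, t x = c := by
    rw [← hc2.2.1, hc, ← hL]; rfl
  have hcpos : 0 < c := by omega
  have ht1 : ∀ j ∈ I.erase x₀, 1 ≤ t j := by
    intro j hj
    by_contra hcon
    have : t j = 0 := by omega
    rw [prod_eq_zero hj this] at hcT
    omega
  have ht2 : ∀ j ∈ I.erase x₀, t j ≤ k + 2 := by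
    intro j hj
    rw [← hFc j (mem_of_mem_erase hj), ht]
    exact card_le_card inter_subset_left
  have h9 := hc2.2.2 k rfl ht1
  have h10 : (∏ j ∈ I.erase x₀, (t j : ℚ)) = c := by
    rw [← hcT]; push_cast; rfl
  rw [h10] at h9
  have h11 : DD G (k + 1) (link G S z) = (ic G (k + 1) (link G S z) : ℤ) - ic G k (link G S z) := rfl
  rw [h11, ← hc, ← hL] at hDL
  have h12 : (1 : ℚ) ≤ (c : ℚ) - ic G k L := by exact_mod_cast hDL
  have h13 : (ic G k L : ℚ) = c * ∑ j ∈ I.erase x₀, (1 : ℚ) / t j := h9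
  rw [h13] at h12
  have hcq : (0 : ℚ) < c := by exact_mod_cast hcpos
  have h14 : ∑ j ∈ I.erase x₀, (1 : ℚ) / t j < 1 := by
    by_contra hcon
    push Not at hcon
    have := mul_le_mul_of_nonneg_left hcon hcq.le
    linarith
  refine ⟨c, ?_, ?_⟩
  · rw [← hcT]
    exact boxSet_of (I.erase x₀) t (k + 1) (k + 2) hJ (fun i hi => ⟨ht1 i hi, ht2 i hi⟩) h14
  · rw [hy, hcy']

end Pool.H87.NM
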