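import Pool.Agent.Helper87.NM.Low

/-! The lower bound for all `m ≥ 3`. -/

open Finset Polynomial

namespace Pool.H87.NM

open Pool.H78.ND

variable {V : Type}

/-- the least product `t_1 ⋯ t_(m-1)` of integers `1 ≤ t_i ≤ m` with `∑ 1 / t_i < 1` -/
noncomputable def minProd (m : ℕ) : ℕ := sInf (BoxSet (m - 1) m)

theorem mp_mem (k : ℕ) : (k + 2) * (k + 1) ^ k ∈ BoxSet (k + 1) (k + 2) := by
  refine ⟨Fin.cons (k + 2) (fun _ => k + 1), ?_, ?_, ?_⟩
  · intro i
    refine Fin.cases ?_ (fun j => ?_) i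
    · simp
    · simp
  · rw [Fin.sum_univ_succ]
    simp only [Fin.cons_zero, Fin.cons_succ, sum_const, card_univ, Fintype.card_fin, nsmul_eq_mul]
    push_cast
    have h1 : (1 : ℚ) / (k + 2) + k * (1 / (k + 1)) = 1 - 1 / ((k + 1) * (k + 2)) := by
      field_simp
      ring
    rw [h1]
    have : (0 : ℚ) < 1 / ((k + 1) * (k + 2)) := by positivity
    linarith
  · rw [Fin.prod_univ_succ]
    simp

theorem minProd_le (k : ℕ) : minProd (k + 2) ≤ (k + 2) * (k + 1) ^ k := Nat.sInf_le (mp_mem k)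

theorem minProd_mem (k : ℕ) : minProd (k + 2) ∈ BoxSet (k + 1) (k + 2) :=
  Nat.sInf_mem (s := BoxSet (k + 1) (k + 2)) ⟨_, mp_mem k⟩

theorem low_four [DecidableEq V] (k : ℕ) (hk : 2 ≤ k) (G : SimpleGraph V) : ∀ (n : ℕ) (S : Finset V),
    S.card = n → ic G (k + 3) S = 0 → 1 ≤ DD G (k + 2) S →
      (k + 2) * ((k + 2) * (k + 2) ^ k) + minProd (k + 2) ≤ ic G (k + 2) S := by
  intro n
  induction n using Nat.strong_induction_on with
  | _ n ih =>
    intro S hS h0 hD
    by_cases hex : ∃ v ∈ S, 1 ≤ DD G (k + 2) (S.erase v)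
    · obtain ⟨v, hv, hDv⟩ := hex
      have h1 := ih (S.erase v).card (by
        rw [← hS]; exact card_erase_lt_of_mem hv) (S.erase v) rfl (by
        have := ic_mono G (erase_subset v S) (k + 3)
        omega) hDv
      exact h1.trans (ic_mono G (erase_subset v S) (k + 2))
    · push Not at hex
      by_contra hcon
      push Not at hcon
      have hmp := minProd_le k
      obtain ⟨x, hx, hxe⟩ := main_aux k hk G S h0 hD (fun v hv => by
        have := hex v hv
        omega) (by omega)
      have : minProd (k + 2) ≤ x := Nat.sInf_le hx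
      omega

theorem low_three (G : SimpleGraph V) (S : Finset V) (h0 : ic G 4 S = 0)
    (hD : 1 ≤ DD G 3 S) : 33 ≤ ic G 3 S := by
  by_contra hcon
  push Not at hcon
  have hb := DD_le G 3 S h0
  obtain ⟨a, ha⟩ : ∃ a, a = ic G 3 S := ⟨_, rfl⟩
  rw [← ha] at hb hcon
  rcases Nat.lt_or_ge 27 a with h | h
  · obtain ⟨y, rfl⟩ : ∃ y, a = 27 + y := ⟨a - 27, by omega⟩
    have h1 := f4 1 y (by norm_num; omega)
    norm_num at h1
    rw [h1] at hb
    rcases Nat.lt_or_ge y 5 with h2 | h2
    · have h3 := f1 1 y (by norm_num; omega)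
      norm_num at h3
      linarith
    · obtain rfl : y = 5 := by omega
      have h3 := Gam_cell 1 4 1 (by norm_num) (by decide)
      have h4 : T 2 4 = 4 := by decide
      have h5 : Dl 2 4 = 0 := by decide
      have h6 := Gam_dim1 1 (by norm_num)
      norm_num at h3 h6
      rw [h4, h5, h6] at h3
      norm_num at h3
      rw [h3] at hb
      linarith
  · have h1 := f6 1 a (by norm_num; omega)
    norm_num at h1
    linarith

/-- the lower bound for `i_m` -/
theorem low (m : ℕ) (hm : 3 ≤ m) (G : SimpleGraph V) (S : Finset V) (h0 : ic G (m + 1) S = 0)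
    (hlt : ic G (m - 1) S < ic G m S) : m ^ m + minProd m ≤ ic G m S := by
  classical
  obtain ⟨k, rfl⟩ : ∃ k, m = k + 2 := ⟨m - 2, by omega⟩
  have hD : 1 ≤ DD G (k + 2) S := by
    have h1 : DD G (k + 2) S = (ic G (k + 2) S : ℤ) - ic G (k + 1) S := rfl
    rw [h1]
    have : ic G (k + 1) S < ic G (k + 2) S := hlt
    omega
  rcases Nat.lt_or_ge k 2 with h | h
  · obtain rfl : k = 1 := by omega
    have h1 := low_three G S h0 hD
    have h2 := minProd_le 1
    norm_num at h2 ⊢
    omega
  · have h1 := low_four k h G S.card S rfl h0 hD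
    have hpow : (k + 2) ^ (k + 2) = (k + 2) * ((k + 2) * (k + 2) ^ k) := by
      rw [pow_succ, pow_succ]; ring
    rw [hpow]
    exact h1

end Pool.H87.NM
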