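import Pool.Agent.Helper87.NM.Graph2
import Pool.Agent.Helper78.ND.Upper

/-! Unions of cliques: covering bound and exact polynomial. -/

open Finset Polynomial

namespace Pool.H87.NM

open Pool.H78.ND

variable {V : Type}

/-- `A` is a clique -/
def Clq (G : SimpleGraph V) (A : Finset V) : Prop := ∀ x ∈ A, ∀ y ∈ A, x ≠ y → G.Adj x y

theorem Clq.mono {G : SimpleGraph V} {A B : Finset V} (h : Clq G B) (hA : A ⊆ B) : Clq G A :=
  fun x hx y hy hxy => h x (hA hx) y (hA hy) hxy

theorem ic_union_clique [DecidableEq V] (G : SimpleGraph V) (L : Finset V) (n : ℕ) :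
    ∀ A : Finset V, Disjoint L A → Clq G A →
      ic G (n + 1) (L ∪ A) ≤ ic G (n + 1) L + A.card * ic G n L := by
  classical
  intro A
  induction A using Finset.induction_on with
  | empty => intro _ _; simp
  | insert w A hw ih =>
    intro hd hc
    have hd' : Disjoint L A := hd.mono_right (subset_insert _ _)
    have hwL : w ∉ L := fun h => (Finset.disjoint_left.1 hd h (mem_insert_self w A))
    have h1 := ih hd' (hc.mono (subset_insert _ _))
    have e1 : L ∪ insert w A = insert w (L ∪ A) := by
      ext x; simp only [mem_union, mem_insert]; tauto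
    have h2 : w ∉ L ∪ A := by rw [mem_union]; tauto
    have h3 : (L ∪ A).filter (fun x => ¬ G.Adj w x) ⊆ L := by
      intro x hx
      rw [mem_filter, mem_union] at hx
      rcases hx.1 with h | h
      · exact h
      · exfalso
        apply hx.2
        exact hc w (mem_insert_self _ _) x (mem_insert_of_mem h) (by rintro rfl; exact hw h)
    rw [e1, ic_insert G _ w h2 n, card_insert_of_notMem hw]
    have h4 := ic_mono G h3 n
    have h5 : (A.card + 1) * ic G n L = A.card * ic G n L + ic G n L := by ring
    omega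

/-- covering bound -/
theorem ic_cover [DecidableEq V] {ι : Type} [DecidableEq ι] (G : SimpleGraph V) (F : ι → Finset V) :
    ∀ (J : Finset ι) (L : Finset V), (∀ j ∈ J, Clq G (F j)) → L ⊆ J.biUnion F →
      ic G (J.card + 1) L = 0 ∧ ic G J.card L ≤ ∏ j ∈ J, (F j).card := by
  intro J
  induction J using Finset.induction_on with
  | empty =>
    intro L _ hL
    rw [biUnion_empty, subset_empty] at hL
    subst hL
    rw [card_empty, prod_empty, ic_zero]
    exact ⟨ic_empty G 0, le_rfl⟩
  | insert j J hj ih =>
    intro L hF hL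
    obtain ⟨i1, i2⟩ := ih (L \ F j) (fun i hi => hF i (mem_insert_of_mem hi)) (by
      intro x hx
      rw [mem_sdiff] at hx
      have := hL hx.1
      rw [biUnion_insert, mem_union] at this
      exact this.resolve_left hx.2)
    have e : L = (L \ F j) ∪ (L ∩ F j) := by
      rw [sdiff_union_inter]
    have hd : Disjoint (L \ F j) (L ∩ F j) := by
      rw [Finset.disjoint_left]
      intro x hx hx'
      exact (mem_sdiff.1 hx).2 (mem_inter.1 hx').2
    have hc : Clq G (L ∩ F j) := (hF j (mem_insert_self _ _)).mono inter_subset_right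
    rw [card_insert_of_notMem hj, prod_insert hj]
    have h1 := ic_union_clique G (L \ F j) (J.card + 1) (L ∩ F j) hd hc
    have h2 := ic_union_clique G (L \ F j) J.card (L ∩ F j) hd hc
    rw [← e] at h1 h2
    have h0 : ic G (J.card + 1 + 1) (L \ F j) = 0 := by
      by_contra hcon
      have h3 : 0 < (IS G (J.card + 1 + 1) (L \ F j)).card := by rw [card_IS]; omega
      obtain ⟨I, hI⟩ := card_pos.1 h3
      rw [mem_IS] at hI
      obtain ⟨x, hx⟩ : I.Nonempty := card_pos.1 (by omega)
      have h4 : I.erase x ∈ IS G (J.card + 1) (L \ F j) := by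
        rw [mem_IS]
        refine ⟨(erase_subset _ _).trans hI.1, ?_, indep_subset G (erase_subset _ _) hI.2.2⟩
        rw [card_erase_of_mem hx, hI.2.1]; rfl
      have h5 : (IS G (J.card + 1) (L \ F j)).card = 0 := by rw [card_IS]; exact i1
      rw [card_eq_zero] at h5
      rw [h5] at h4
      exact absurd h4 (notMem_empty _)
    constructor
    · rw [h0, i1, mul_zero] at h1
      omega
    · rw [i1, zero_add] at h2
      refine h2.trans (Nat.mul_le_mul (card_le_card inter_subset_right) i2)

open Classical in
theorem P_clique [DecidableEq V] (G : SimpleGraph V) :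
    ∀ A : Finset V, Clq G A → P G A = 1 + C A.card * X := by
  intro A
  induction A using Finset.induction_on with
  | empty => intro _; simp
  | insert w A hw ih =>
    intro hc
    have h3 : A.filter (fun x => ¬ G.Adj w x) = ∅ := by
      rw [filter_eq_empty_iff]
      intro x hx
      rw [not_not]
      exact hc w (mem_insert_self _ _) x (mem_insert_of_mem hx) (by rintro rfl; exact hw hx)
    rw [P_insert G A w hw, h3, ih (hc.mono (subset_insert _ _)), P_empty,
      card_insert_of_notMem hw]
    rw [map_add, map_one]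
    ring

/-- exact polynomial of a disjoint union of cliques -/
theorem P_multi [DecidableEq V] {ι : Type} [DecidableEq ι] (G : SimpleGraph V) (F : ι → Finset V) :
    ∀ J : Finset ι, (∀ j ∈ J, Clq G (F j)) →
      (∀ i ∈ J, ∀ j ∈ J, i ≠ j → Disjoint (F i) (F j)) →
      (∀ i ∈ J, ∀ j ∈ J, i ≠ j → ∀ x ∈ F i, ∀ y ∈ F j, ¬ G.Adj x y) →
      P G (J.biUnion F) = ∏ j ∈ J, (1 + C (F j).card * X) := by
  classical
  intro J
  induction J using Finset.induction_on with
  | empty => intro _ _ _; simp
  | insert j J hj ih =>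
    intro h1 h2 h3
    rw [biUnion_insert, prod_insert hj, union_comm]
    have hne : ∀ i ∈ J, i ≠ j := by
      rintro i hi rfl
      exact hj hi
    have h4 := P_union_of_nonadj G (J.biUnion F) _ (F j) rfl (by
      rw [Finset.disjoint_left]
      intro x hx hx'
      rw [mem_biUnion] at hx
      obtain ⟨i, hi, hx⟩ := hx
      exact (Finset.disjoint_left.1 (h2 i (mem_insert_of_mem hi) j (mem_insert_self _ _)
        (hne i hi))) hx hx') (by
      intro x hx y hy
      rw [mem_biUnion] at hx
      obtain ⟨i, hi, hx⟩ := hx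
      exact h3 i (mem_insert_of_mem hi) j (mem_insert_self _ _) (hne i hi) x hx y hy)
    rw [show (J.biUnion F) ∪ F j = J.biUnion F ∪ F j from rfl]
    have h5 : P G (J.biUnion F ∪ F j) = P G (J.biUnion F) * P G (F j) := by
      rw [← h4]
    rw [h5, ih (fun i hi => h1 i (mem_insert_of_mem hi))
      (fun i hi i' hi' => h2 i (mem_insert_of_mem hi) i' (mem_insert_of_mem hi'))
      (fun i hi i' hi' => h3 i (mem_insert_of_mem hi) i' (mem_insert_of_mem hi')),
      P_clique G _ (h1 j (mem_insert_self _ _)), mul_comm]

/-- top coefficients of a product of linear polynomials -/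
theorem coeff_prod_lin {ι : Type} [DecidableEq ι] (t : ι → ℕ) : ∀ J : Finset ι,
    (∀ n, J.card < n → (∏ j ∈ J, (1 + C (t j) * X : ℕ[X])).coeff n = 0) ∧
    (∏ j ∈ J, (1 + C (t j) * X : ℕ[X])).coeff J.card = ∏ j ∈ J, t j ∧
    ∀ n, J.card = n + 1 → (∀ j ∈ J, 1 ≤ t j) →
      ((∏ j ∈ J, (1 + C (t j) * X : ℕ[X])).coeff n : ℚ) =
        (∏ j ∈ J, (t j : ℚ)) * ∑ j ∈ J, (1 : ℚ) / t j := by
  intro J
  induction J using Finset.induction_on with
  | empty =>
    refine ⟨?_, ?_, ?_⟩
    · intro n hn
      rw [prod_empty, coeff_one, if_neg (by rw [card_empty] at hn; omega)]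
    · simp
    · intro n hn; simp at hn
  | insert j J hj ih =>
    obtain ⟨i1, i2, i3⟩ := ih
    rw [card_insert_of_notMem hj]
    have e : ∏ i ∈ insert j J, (1 + C (t i) * X : ℕ[X]) =
        (∏ i ∈ J, (1 + C (t i) * X : ℕ[X])) * (1 + C (t j) * X) := by
      rw [prod_insert hj, mul_comm]
    rw [e]
    refine ⟨?_, ?_, ?_⟩
    · intro n hn
      obtain ⟨n', rfl⟩ : ∃ n', n = n' + 1 := ⟨n - 1, by omega⟩
      rw [coeff_lin_mul, i1 _ (by omega), i1 _ (by omega)]; ring
    · rw [coeff_lin_mul, i1 _ (by omega), i2, prod_insert hj, zero_add]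
    · intro n hn ht
      have ht' : ∀ i ∈ J, 1 ≤ t i := fun i hi => ht i (mem_insert_of_mem hi)
      have htj : (0 : ℚ) < t j := by
        have := ht j (mem_insert_self _ _)
        exact_mod_cast this
      obtain rfl : n = J.card := by omega
      rcases Nat.eq_zero_or_pos J.card with h0 | h0
      · rw [card_eq_zero] at h0
        subst h0
        simp only [card_empty]
        rw [coeff_lin_mul_zero]
        simp
        field_simp
      · obtain ⟨n', hn'⟩ : ∃ n', J.card = n' + 1 := ⟨J.card - 1, by omega⟩
        have h3 := i3 n' hn' ht'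
        rw [hn'] at i2 ⊢
        rw [coeff_lin_mul, i2, prod_insert hj, sum_insert hj]
        push_cast
        rw [h3]
        field_simp

end Pool.H87.NM
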