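import Pool.Agent.Helper87.NM.Cone

/-! Explicit bounds for `Gam` in dimensions `m - 1 = k + 1` and `m = k + 2`. -/

namespace Pool.H87.NM

theorem Dl_of_rho (k n : ℕ) (h : k ≤ n) : (Dl k n : ℚ) = rho k n * T k n := by
  have : (0 : ℚ) < T k n := by exact_mod_cast T_pos k n h
  unfold rho
  field_simp

/-- `T` and `Dl` at `t * k + r`, in integers -/
theorem T_at (k t r : ℕ) (ht : 1 ≤ t) (hr : r ≤ k) :
    T k (t * k + r) = t ^ (k - r) * (t + 1) ^ r := (TDr k t ht r hr).1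

theorem rho_at (k t r : ℕ) (ht : 1 ≤ t) (hr : r ≤ k) :
    rho k (t * k + r) = 1 - ((k : ℚ) - r) / t - r / (t + 1) := (TDr k t ht r hr).2

theorem f1 (k x : ℕ) (hx : x ≤ (k + 1) * (k + 1) ^ k) : Gam (k + 1) x ≤ 0 := by
  have h1 := cone (k + 1) ((k + 1) * (k + 1) + 0) x (by
    rw [T_at (k + 1) (k + 1) 0 (by omega) (by omega)]
    simp only [Nat.sub_zero, pow_zero, mul_one]
    rw [pow_succ, mul_comm]; exact hx)
  rw [rho_at (k + 1) (k + 1) 0 (by omega) (by omega)] at h1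
  have h2 : (1 : ℚ) - (((k + 1 : ℕ) : ℚ) - (0 : ℕ)) / ((k + 1 : ℕ) : ℚ) -
      ((0 : ℕ) : ℚ) / (((k + 1 : ℕ) : ℚ) + 1) = 0 := by
    push_cast
    field_simp
    ring
  rw [h2, zero_mul] at h1
  exact_mod_cast h1

theorem f2 (k x : ℕ) (hx : x ≤ (k + 1) * (k + 2) ^ k) :
    ((k : ℤ) + 2) * (k + 1) * Gam (k + 1) x ≤ k * x := by
  have h1 := cone (k + 1) ((k + 1) * (k + 1) + k) x (by
    rw [T_at (k + 1) (k + 1) k (by omega) (by omega)]
    rw [show k + 1 - k = 1 by omega, pow_one]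
    exact hx)
  rw [rho_at (k + 1) (k + 1) k (by omega) (by omega)] at h1
  have h3 : (((k : ℚ) + 2) * (k + 1)) * Gam (k + 1) x ≤ k * x := by
    calc (((k : ℚ) + 2) * (k + 1)) * Gam (k + 1) x
        ≤ (((k : ℚ) + 2) * (k + 1)) * ((1 - (((k + 1 : ℕ) : ℚ) - k) / ((k + 1 : ℕ) : ℚ) -
          k / (((k + 1 : ℕ) : ℚ) + 1)) * x) := mul_le_mul_of_nonneg_left h1 (by positivity)
      _ = k * x := by
        push_cast
        field_simp
        ring
  exact_mod_cast h3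

theorem cone_R (k w : ℕ) (hw : w ≤ (k + 2) ^ k) : ((k : ℤ) + 2) * Gam k w ≤ 2 * w := by
  have h1 := cone k ((k + 2) * k + 0) w (by
    rw [T_at k (k + 2) 0 (by omega) (by omega)]
    simpa using hw)
  rw [rho_at k (k + 2) 0 (by omega) (by omega)] at h1
  have h3 : ((k : ℚ) + 2) * Gam k w ≤ 2 * w := by
    calc ((k : ℚ) + 2) * Gam k w
        ≤ ((k : ℚ) + 2) * ((1 - ((k : ℚ) - (0 : ℕ)) / ((k + 2 : ℕ) : ℚ) -
          ((0 : ℕ) : ℚ) / (((k + 2 : ℕ) : ℚ) + 1)) * w) := mul_le_mul_of_nonneg_left h1 (by positivity)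
      _ = 2 * w := by
        push_cast
        field_simp
        ring
  exact_mod_cast h3

theorem cone_p (k w : ℕ) (hw : w ≤ (k + 1) ^ k) : ((k : ℤ) + 1) * Gam k w ≤ w := by
  have h1 := cone k ((k + 1) * k + 0) w (by
    rw [T_at k (k + 1) 0 (by omega) (by omega)]
    simpa using hw)
  rw [rho_at k (k + 1) 0 (by omega) (by omega)] at h1
  have h3 : ((k : ℚ) + 1) * Gam k w ≤ w := by
    calc ((k : ℚ) + 1) * Gam k w
        ≤ ((k : ℚ) + 1) * ((1 - ((k : ℚ) - (0 : ℕ)) / ((k + 1 : ℕ) : ℚ) -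
          ((0 : ℕ) : ℚ) / (((k + 1 : ℕ) : ℚ) + 1)) * w) := mul_le_mul_of_nonneg_left h1 (by positivity)
      _ = w := by
        push_cast
        field_simp
        ring
  exact_mod_cast h3

/-- the cell starting at `t ^ (k + 1 - r) * (t + 1) ^ r` -/
theorem Gam_at (k t r w : ℕ) (ht : 1 ≤ t) (hr : r ≤ k) (hw : w ≤ t ^ (k - r) * (t + 1) ^ r) :
    Gam (k + 1) (t * (t ^ (k - r) * (t + 1) ^ r) + w) =
      Dl (k + 1) (t * (k + 1) + r) + Gam k w := by
  have hs : (t * (k + 1) + r) / (k + 1) = t := div_of t k r hr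
  have hidx : t * (k + 1) + r - (t * (k + 1) + r) / (k + 1) = t * k + r := by
    rw [hs]
    have : t * (k + 1) = t * k + t := by ring
    omega
  have hb : b k (t * (k + 1) + r) = t ^ (k - r) * (t + 1) ^ r := by
    rw [b, hidx, T_at k t r ht hr]
  have hT : T (k + 1) (t * (k + 1) + r) = t * (t ^ (k - r) * (t + 1) ^ r) := by
    rw [T_eq, sd, hs, hb]
  have hn : k + 1 ≤ t * (k + 1) + r := by
    have : 1 * (k + 1) ≤ t * (k + 1) := Nat.mul_le_mul_right _ ht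
    omega
  rw [← hT]
  exact Gam_cell' k _ w hn (by rw [hb]; exact hw)

theorem Dl_at (k t r : ℕ) (ht : 1 ≤ t) (hr : r ≤ k) :
    (Dl k (t * k + r) : ℚ) = (1 - ((k : ℚ) - r) / t - r / (t + 1)) *
      ((t ^ (k - r) * (t + 1) ^ r : ℕ) : ℚ) := by
  rw [Dl_of_rho k _ (by nlinarith), rho_at k t r ht hr, T_at k t r ht hr]

/-- the first cell above `(m-1)^(m-1)` -/
theorem Gam_q0 (k w : ℕ) (hw : w ≤ (k + 1) ^ k) :
    Gam (k + 1) ((k + 1) * (k + 1) ^ k + w) = Gam k w := by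
  have h1 := Gam_at k (k + 1) 0 w (by omega) (by omega) (by simpa using hw)
  simp only [Nat.sub_zero, pow_zero, mul_one] at h1
  have h2 := Dl_at (k + 1) (k + 1) 0 (by omega) (by omega)
  have h3 : (Dl (k + 1) ((k + 1) * (k + 1) + 0) : ℚ) = 0 := by
    rw [h2]
    push_cast
    field_simp
    ring
  have h4 : Dl (k + 1) ((k + 1) * (k + 1) + 0) = 0 := by exact_mod_cast h3
  rw [h1, h4, zero_add]

/-- the cell above `m (m-1)^(m-2)`: value at the base point -/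
theorem Dl_mp (k : ℕ) : ((k : ℤ) + 1) * Dl (k + 1) ((k + 1) * (k + 1) + 1) = (k + 1) ^ k := by
  have h2 := Dl_at (k + 1) (k + 1) 1 (by omega) (by omega)
  have h3 : ((k : ℚ) + 1) * (Dl (k + 1) ((k + 1) * (k + 1) + 1) : ℚ) = (k + 1) ^ k := by
    rw [h2]
    simp only [Nat.add_sub_cancel, pow_one]
    push_cast
    field_simp
    ring
  exact_mod_cast h3

/-- the cell above `(m-1) m^(m-2)` -/
theorem Gam_low (k w : ℕ) (hw : w ≤ (k + 2) ^ k) :
    ((k : ℤ) + 2) * Gam (k + 1) ((k + 1) * (k + 2) ^ k + w) = k * (k + 2) ^ k +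
      (k + 2) * Gam k w := by
  have h1 := Gam_at k (k + 1) k w (by omega) (by omega) (by simpa using hw)
  simp only [Nat.sub_self, pow_zero, one_mul] at h1
  have h2 := Dl_at (k + 1) (k + 1) k (by omega) (by omega)
  have h3 : ((k : ℚ) + 2) * (Dl (k + 1) ((k + 1) * (k + 1) + k) : ℚ) = k * (k + 2) ^ k := by
    rw [h2, show k + 1 - k = 1 by omega, pow_one]
    push_cast
    field_simp
    ring
  have h4 : ((k : ℤ) + 2) * Dl (k + 1) ((k + 1) * (k + 1) + k) = k * (k + 2) ^ k := by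
    exact_mod_cast h3
  rw [h1, mul_add, h4]

/-- the cell above `m^(m-1)` -/
theorem Gam_high (k w : ℕ) (hw : w ≤ (k + 2) ^ k) :
    Gam (k + 1) ((k + 2) * (k + 2) ^ k + w) = (k + 2) ^ k + Gam k w := by
  have h1 := Gam_at k (k + 2) 0 w (by omega) (by omega) (by simpa using hw)
  simp only [Nat.sub_zero, pow_zero, mul_one] at h1
  have h2 := Dl_at (k + 1) (k + 2) 0 (by omega) (by omega)
  have h3 : (Dl (k + 1) ((k + 2) * (k + 1) + 0) : ℚ) = (k + 2) ^ k := by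
    rw [h2]
    simp only [Nat.sub_zero, pow_zero, mul_one]
    push_cast
    field_simp
    ring
  have h4 : Dl (k + 1) ((k + 2) * (k + 1) + 0) = (k + 2) ^ k := by exact_mod_cast h3
  rw [h1, h4]

theorem f3 (k x : ℕ) (h1 : (k + 1) * (k + 2) ^ k ≤ x) (h2 : x ≤ (k + 3) * (k + 2) ^ k) :
    ((k : ℤ) + 2) * Gam (k + 1) x ≤ 2 * x - (k + 2) * (k + 2) ^ k := by
  obtain ⟨R, hR⟩ : ∃ R, R = (k + 2) ^ k := ⟨_, rfl⟩
  have hRZ : ((k : ℤ) + 2) ^ k = R := by rw [hR]; push_cast; ring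
  rcases le_total x ((k + 2) * (k + 2) ^ k) with h | h
  · obtain ⟨w, rfl⟩ : ∃ w, x = (k + 1) * (k + 2) ^ k + w := ⟨x - (k + 1) * (k + 2) ^ k, by omega⟩
    have e : (k + 2) * (k + 2) ^ k = (k + 1) * (k + 2) ^ k + (k + 2) ^ k := by ring
    have hw : w ≤ (k + 2) ^ k := by omega
    rw [Gam_low k w hw]
    have h3 := cone_R k w hw
    push_cast
    rw [hRZ]
    linarith
  · obtain ⟨w, rfl⟩ : ∃ w, x = (k + 2) * (k + 2) ^ k + w := ⟨x - (k + 2) * (k + 2) ^ k, by omega⟩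
    have e : (k + 3) * (k + 2) ^ k = (k + 2) * (k + 2) ^ k + (k + 2) ^ k := by ring
    have hw : w ≤ (k + 2) ^ k := by omega
    rw [Gam_high k w hw]
    have h3 := cone_R k w hw
    push_cast
    rw [hRZ]
    linarith

theorem f4 (k w : ℕ) (hw : w ≤ (k + 2) * (k + 2) ^ k) :
    Gam (k + 2) ((k + 2) * ((k + 2) * (k + 2) ^ k) + w) = Gam (k + 1) w := by
  have h1 := Gam_at (k + 1) (k + 2) 0 w (by omega) (by omega) (by
    simp only [Nat.sub_zero, pow_zero, mul_one]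
    rw [pow_succ, mul_comm]; exact hw)
  simp only [Nat.sub_zero, pow_zero, mul_one] at h1
  have h2 := Dl_at (k + 2) (k + 2) 0 (by omega) (by omega)
  have h3 : (Dl (k + 1 + 1) ((k + 2) * (k + 1 + 1) + 0) : ℚ) = 0 := by
    rw [show k + 1 + 1 = k + 2 from rfl, h2]
    push_cast
    field_simp
    ring
  have h4 : Dl (k + 1 + 1) ((k + 2) * (k + 1 + 1) + 0) = 0 := by exact_mod_cast h3
  rw [show (k + 2) * (k + 2) ^ k = (k + 2) ^ (k + 1) by rw [pow_succ, mul_comm]]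
  rw [show Gam (k + 2) _ = Gam (k + 1 + 1) _ from rfl, h1, h4, zero_add]

theorem f5 (k w : ℕ) (hw : w ≤ (k + 2) * (k + 2) ^ k) :
    Gam (k + 2) ((k + 1) * ((k + 2) * (k + 2) ^ k) + w) = Gam (k + 1) w - (k + 2) ^ k := by
  have h1 := Gam_at (k + 1) (k + 1) (k + 1) w (by omega) (by omega) (by
    simp only [Nat.sub_self, pow_zero, one_mul]
    rw [pow_succ, mul_comm]; exact hw)
  simp only [Nat.sub_self, pow_zero, one_mul] at h1
  have h2 := Dl_at (k + 2) (k + 1) (k + 1) (by omega) (by omega)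
  have h3 : (Dl (k + 1 + 1) ((k + 1) * (k + 1 + 1) + (k + 1)) : ℚ) = -(k + 2) ^ k := by
    rw [show k + 1 + 1 = k + 2 from rfl, h2, show k + 2 - (k + 1) = 1 by omega, pow_one]
    push_cast
    field_simp
    ring
  have h4 : Dl (k + 1 + 1) ((k + 1) * (k + 1 + 1) + (k + 1)) = -(k + 2) ^ k := by exact_mod_cast h3
  rw [show (k + 2) * (k + 2) ^ k = (k + 1 + 1) ^ (k + 1) by rw [pow_succ, mul_comm]]
  rw [show Gam (k + 2) _ = Gam (k + 1 + 1) _ from rfl, h1, h4]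
  ring

theorem f6 (k x : ℕ) (hx : x ≤ (k + 2) * ((k + 2) * (k + 2) ^ k)) : Gam (k + 2) x ≤ 0 := by
  apply f1 (k + 1) x
  rw [show k + 1 + 1 = k + 2 from rfl, pow_succ, mul_comm ((k + 2) ^ k)]
  exact hx

theorem f7 (k c X : ℕ) (hk : 1 ≤ k) (hc : c ≤ X) (hX : (k + 3) * (k + 2) ^ k ≤ X) :
    ((k : ℤ) + 2) * (k + 3) * (k + 2) ^ k * Gam (k + 1) c ≤ c * (X + (k + 2) ^ k) := by
  obtain ⟨N, hN⟩ : ∃ N, N = (k + 2) * (k + 1) + 1 := ⟨_, rfl⟩
  have hTN : T (k + 1) N = (k + 2) ^ k * (k + 3) := by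
    rw [hN, T_at (k + 1) (k + 2) 1 (by omega) (by omega), Nat.add_sub_cancel, pow_one]
  have hrho : rho (k + 1) N = ((k : ℚ) + 4) / ((k + 2) * (k + 3)) := by
    rw [hN, rho_at (k + 1) (k + 2) 1 (by omega) (by omega)]
    push_cast
    field_simp
    ring
  have hsd : sd k N = k + 2 := by
    rw [hN]; exact div_of (k + 2) k 1 hk
  have hN1 : k + 1 ≤ N := by rw [hN]; nlinarith
  obtain ⟨R, hR⟩ : ∃ R : ℚ, R = ((k + 2 : ℕ) : ℚ) ^ k := ⟨_, rfl⟩
  have hRpos : 0 < R := by rw [hR]; positivity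
  have hTR : (T (k + 1) N : ℚ) = R * (k + 3) := by rw [hTN, hR]; push_cast; ring
  have hXR : ((k : ℚ) + 3) * R ≤ X := by
    have : (((k + 3) * (k + 2) ^ k : ℕ) : ℚ) ≤ X := by exact_mod_cast hX
    rw [hR]; push_cast at this ⊢; linarith
  have hcX : (c : ℚ) ≤ X := by exact_mod_cast hc
  have key : ((k : ℚ) + 2) * (k + 3) * R * Gam (k + 1) c ≤ c * (X + R) := by
    rcases le_total c (T (k + 1) N) with h | h
    · have h1 := cone (k + 1) N c h
      rw [hrho] at h1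
      calc ((k : ℚ) + 2) * (k + 3) * R * Gam (k + 1) c
          ≤ ((k : ℚ) + 2) * (k + 3) * R * (((k : ℚ) + 4) / ((k + 2) * (k + 3)) * c) :=
            mul_le_mul_of_nonneg_left h1 (by positivity)
        _ = c * ((k + 4) * R) := by field_simp
        _ ≤ c * (X + R) := mul_le_mul_of_nonneg_left (by linarith) (by positivity)
    · have h1 := lip k N c hN1 h
      rw [hrho, hsd, hTR] at h1
      calc ((k : ℚ) + 2) * (k + 3) * R * Gam (k + 1) c
          ≤ ((k : ℚ) + 2) * (k + 3) * R * (c * (((k : ℚ) + 4) / ((k + 2) * (k + 3)) +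
            (c - R * (k + 3)) / (((k + 2 : ℕ) : ℚ) * (R * (k + 3))))) :=
            mul_le_mul_of_nonneg_left h1 (by positivity)
        _ = c * (c + R) := by push_cast; field_simp; ring
        _ ≤ c * (X + R) := mul_le_mul_of_nonneg_left (by linarith) (by positivity)
  rw [hR] at key
  push_cast at key
  exact_mod_cast key

end Pool.H87.NM
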