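import Pool.Agent.Helper87.NM.Num1

/-! Relations between `m^(m-2)` and `(m-1)^(m-2)`, and the main numerical inequality. -/

namespace Pool.H87.NM

theorem bern2 (x : ℝ) (hx : 0 ≤ x) (n : ℕ) : 1 + n * x + n * (n - 1) / 2 * x ^ 2 ≤ (1 + x) ^ n := by
  induction n with
  | zero => simp
  | succ n ih =>
    rw [pow_succ]
    have h1 := mul_le_mul_of_nonneg_right ih (show (0 : ℝ) ≤ 1 + x by linarith)
    refine le_trans ?_ h1
    have h2 : (0 : ℝ) ≤ (n : ℝ) * (n - 1) / 2 * x ^ 3 := by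
      rcases Nat.eq_zero_or_pos n with rfl | hn
      · simp
      · have : (1 : ℝ) ≤ n := by exact_mod_cast hn
        have h3 : (0 : ℝ) ≤ (n : ℝ) - 1 := by linarith
        positivity
    push_cast
    nlinarith

theorem ratio_eq (k : ℕ) : ((k : ℝ) + 2) ^ k = (1 + 1 / ((k : ℝ) + 1)) ^ k * (k + 1) ^ k := by
  rw [← mul_pow]
  congr 1
  field_simp
  ring

theorem r1 (k : ℕ) : 1 ≤ (k + 1) ^ k ∧ (k + 1) ^ k ≤ (k + 2) ^ k :=
  ⟨Nat.pow_pos (by omega), Nat.pow_le_pow_left (by omega) _⟩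

theorem r6 (k : ℕ) : (k + 2) ^ k ≤ 3 * (k + 1) ^ k := by
  have h1 : ((k : ℝ) + 2) ^ k ≤ 3 * (k + 1) ^ k := by
    rw [ratio_eq]
    apply mul_le_mul_of_nonneg_right _ (by positivity)
    have h2 : 1 + 1 / ((k : ℝ) + 1) ≤ Real.exp (1 / ((k : ℝ) + 1)) := by
      rw [add_comm]; exact Real.add_one_le_exp _
    have h3 := pow_le_pow_left₀ (by positivity) h2 k
    rw [← Real.exp_nat_mul] at h3
    have h4 : Real.exp ((k : ℝ) * (1 / ((k : ℝ) + 1))) ≤ Real.exp 1 := by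
      apply Real.exp_le_exp.2
      rw [mul_one_div, div_le_one (by positivity)]
      linarith
    have h5 := Real.exp_one_lt_d9
    linarith
  exact_mod_cast h1

theorem r2 (k : ℕ) (hk : 2 ≤ k) : (k + 2) ^ k ≤ k * (k + 1) ^ k := by
  rcases Nat.lt_or_ge k 3 with h | h
  · obtain rfl : k = 2 := by omega
    norm_num
  · exact (r6 k).trans (Nat.mul_le_mul_right _ h)

theorem r3 (k : ℕ) (hk : 1 ≤ k) : (k + 2) * (k + 1) ^ k ≤ (k + 1) * (k + 2) ^ k := by
  obtain ⟨j, rfl⟩ : ∃ j, k = j + 1 := ⟨k - 1, by omega⟩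
  rw [pow_succ, pow_succ (j + 1 + 2)]
  have h1 : (j + 1 + 1) ^ j ≤ (j + 1 + 2) ^ j := Nat.pow_le_pow_left (by omega) _
  calc (j + 1 + 2) * ((j + 1 + 1) ^ j * (j + 1 + 1))
      = (j + 1 + 2) * (j + 1 + 1) * (j + 1 + 1) ^ j := by ring
    _ ≤ (j + 1 + 2) * (j + 1 + 1) * (j + 1 + 2) ^ j := Nat.mul_le_mul_left _ h1
    _ = _ := by ring

theorem r5 (k : ℕ) (hk : 4 ≤ k) : 2 * (k + 1) ^ k ≤ (k + 2) ^ k := by
  have h1 : 2 * ((k : ℝ) + 1) ^ k ≤ (k + 2) ^ k := by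
    rw [ratio_eq]
    apply mul_le_mul_of_nonneg_right _ (by positivity)
    refine le_trans ?_ (bern2 (1 / ((k : ℝ) + 1)) (by positivity) k)
    have hk' : (4 : ℝ) ≤ k := by exact_mod_cast hk
    have e : 1 + (k : ℝ) * (1 / ((k : ℝ) + 1)) + k * (k - 1) / 2 * (1 / ((k : ℝ) + 1)) ^ 2 - 2 =
        ((k : ℝ) * (k - 1) - 2 * (k + 1)) / (2 * (k + 1) ^ 2) := by
      field_simp
      ring
    have h2 : (0 : ℝ) ≤ ((k : ℝ) * (k - 1) - 2 * (k + 1)) / (2 * (k + 1) ^ 2) := by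
      apply div_nonneg _ (by positivity)
      nlinarith
    linarith
  exact_mod_cast h1

/-- relation four, with `m = k + 2`: `(m² + m + 2) p ≤ m (m-1) R + m² (m+1)` -/
theorem r4 (k : ℕ) (hk : 2 ≤ k) :
    (k ^ 2 + 5 * k + 8) * (k + 1) ^ k ≤ (k + 2) * (k + 1) * (k + 2) ^ k + (k + 2) ^ 2 * (k + 3) := by
  rcases Nat.lt_or_ge k 3 with h | h
  · obtain rfl : k = 2 := by omega
    norm_num
  · have h1 : ((k : ℝ) ^ 2 + 5 * k + 8) * (k + 1) ^ k ≤ (k + 2) * (k + 1) * (k + 2) ^ k := by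
      rw [ratio_eq, ← mul_assoc]
      apply mul_le_mul_of_nonneg_right _ (by positivity)
      have hk' : (3 : ℝ) ≤ k := by exact_mod_cast h
      have h2 := one_add_mul_le_pow (show (-2 : ℝ) ≤ 1 / ((k : ℝ) + 1) by
        have : (0 : ℝ) < 1 / ((k : ℝ) + 1) := by positivity
        linarith) k
      have h3 : ((k : ℝ) + 2) * (k + 1) * (1 + k * (1 / ((k : ℝ) + 1))) ≤
          (k + 2) * (k + 1) * (1 + 1 / ((k : ℝ) + 1)) ^ k :=
        mul_le_mul_of_nonneg_left h2 (by positivity)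
      refine le_trans ?_ h3
      have e : ((k : ℝ) + 2) * (k + 1) * (1 + k * (1 / ((k : ℝ) + 1))) = (k + 2) * (2 * k + 1) := by
        field_simp
        ring
      rw [e]
      nlinarith
    have h2 : (k ^ 2 + 5 * k + 8) * (k + 1) ^ k ≤ (k + 2) * (k + 1) * (k + 2) ^ k := by
      exact_mod_cast h1
    omega

theorem cellbound (k n N w : ℕ) (hn : k + 1 ≤ n) (hw : w ≤ b k n) (hN : w ≤ T k N) :
    (Gam (k + 1) (T (k + 1) n + w) : ℚ) ≤ Dl (k + 1) n + rho k N * w := by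
  rw [Gam_cell' k n w hn hw]
  have := cone k N w hN
  push_cast
  linarith

/-- the main numerical inequality, large case -/
theorem numP_large (k w : ℕ) (hk : 8 ≤ k) (hw : w < (k + 2) ^ k) :
    ((k : ℤ) + 2) * (k + 3) * (Gam (k + 1) ((k + 2) * (k + 1) ^ k + w) - 1) <
      (k + 2) * (k + 2) ^ k + (k + 4) * (w + 1) := by
  obtain ⟨N, hN⟩ : ∃ N, N = (k + 1) * (k + 1) + 1 := ⟨_, rfl⟩
  have hTN : T (k + 1) N = (k + 1) ^ k * (k + 2) := by
    rw [hN, T_at (k + 1) (k + 1) 1 (by omega) (by omega), Nat.add_sub_cancel, pow_one]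
  have hrho : rho (k + 1) N = (1 : ℚ) / ((k + 1) * (k + 2)) := by
    rw [hN, rho_at (k + 1) (k + 1) 1 (by omega) (by omega)]
    push_cast
    field_simp
    ring
  have hsd : sd k N = k + 1 := by
    rw [hN]; exact div_of (k + 1) k 1 (by omega)
  have hN1 : k + 1 ≤ N := by rw [hN]; nlinarith
  obtain ⟨p, hp⟩ : ∃ p : ℚ, p = ((k + 1 : ℕ) : ℚ) ^ k := ⟨_, rfl⟩
  obtain ⟨R, hR⟩ : ∃ R : ℚ, R = ((k + 2 : ℕ) : ℚ) ^ k := ⟨_, rfl⟩
  have hppos : 0 < p := by rw [hp]; positivity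
  have hTp : (T (k + 1) N : ℚ) = p * (k + 2) := by rw [hTN, hp]; push_cast; ring
  have h2p : 2 * p ≤ R := by
    have := r5 k (by omega)
    rw [hp, hR]; exact_mod_cast this
  have h3p : R ≤ 3 * p := by
    have := r6 k
    rw [hp, hR]; exact_mod_cast this
  have hwR : (w : ℚ) ≤ R := by
    rw [hR]; exact_mod_cast hw.le
  have hw0 : (0 : ℚ) ≤ w := by positivity
  have hk8 : (8 : ℚ) ≤ k := by exact_mod_cast hk
  have h1 := lip k N ((k + 2) * (k + 1) ^ k + w) hN1 (by rw [hTN, mul_comm]; omega)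
  rw [hrho, hsd, hTp] at h1
  have hX : (((k + 2) * (k + 1) ^ k + w : ℕ) : ℚ) = (k + 2) * p + w := by
    rw [hp]; push_cast; ring
  rw [hX] at h1
  have h4 : ((k : ℚ) + 2) * (k + 1) * p * Gam (k + 1) ((k + 2) * (k + 1) ^ k + w) ≤
      ((k + 2) * p + w) * (p + w) := by
    calc ((k : ℚ) + 2) * (k + 1) * p * Gam (k + 1) ((k + 2) * (k + 1) ^ k + w)
        ≤ ((k : ℚ) + 2) * (k + 1) * p * (((k + 2) * p + w) * (1 / ((k + 1) * (k + 2)) +
          ((k + 2) * p + w - p * (k + 2)) / (((k + 1 : ℕ) : ℚ) * (p * (k + 2))))) :=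
          mul_le_mul_of_nonneg_left h1 (by positivity)
      _ = ((k + 2) * p + w) * (p + w) := by push_cast; field_simp; ring
  obtain ⟨g, hg⟩ : ∃ g : ℚ, g = Gam (k + 1) ((k + 2) * (k + 1) ^ k + w) := ⟨_, rfl⟩
  rw [← hg] at h4
  -- the polynomial inequality
  have h5 : ((k : ℚ) + 3) * (((k + 2) * p + w) * (p + w)) ≤
      (k + 1) * p * ((k + 2) * R + (k + 4) * w) := by
    have h6 : (0 : ℚ) ≤ (R - 2 * p) * (3 * p - R) := mul_nonneg (by linarith) (by linarith)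
    have h7 : (0 : ℚ) ≤ (k - 8) * (p * p) := mul_nonneg (by linarith) (by positivity)
    have h8 : (0 : ℚ) ≤ (k - 6) * (p * (R - 2 * p)) :=
      mul_nonneg (by linarith) (mul_nonneg hppos.le (by linarith))
    -- at w = R
    have h9 : (0 : ℚ) ≤ -(k + 2) * (p * p) + (k - 1) * (p * R) - R * R := by nlinarith
    have h10 : (0 : ℚ) ≤ ((k + 5) * p) * (R - w) := mul_nonneg (by positivity) (by linarith)
    have h11 : (0 : ℚ) ≤ (k + 3) * ((R - w) * (R + w)) := by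
      apply mul_nonneg (by positivity)
      apply mul_nonneg <;> linarith
    have e : (k + 1) * p * ((k + 2) * R + (k + 4) * w) -
        ((k : ℚ) + 3) * (((k + 2) * p + w) * (p + w)) =
        (k + 3) * (-(k + 2) * (p * p) + (k - 1) * (p * R) - R * R) +
        ((k + 5) * p) * (R - w) + (k + 3) * ((R - w) * (R + w)) := by ring
    have h12 : (0 : ℚ) ≤ (k + 3) * (-(k + 2) * (p * p) + (k - 1) * (p * R) - R * R) :=
      mul_nonneg (by positivity) h9
    linarith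
  have key : ((k : ℚ) + 2) * (k + 3) * (g - 1) < (k + 2) * R + (k + 4) * (w + 1) := by
    have hpos : (0 : ℚ) < (k + 1) * p := by positivity
    apply lt_of_mul_lt_mul_left _ hpos.le
    have h13 := mul_le_mul_of_nonneg_left h4 (show (0 : ℚ) ≤ (k : ℚ) + 3 by positivity)
    have h14 : (0 : ℚ) < (k + 1) * p * ((k + 4) + (k + 2) * (k + 3)) := by positivity
    nlinarith
  rw [hg, hR] at key
  push_cast at key
  exact_mod_cast key

end Pool.H87.NM
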