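import Pool.Agent.Helper87.NM.Num2

/-! The main numerical inequality for `m = 4, ..., 9`. -/

namespace Pool.H87.NM

theorem numP_2 (w : ℕ) (hw : w < (2 + 2) ^ 2) :
    ((2 : ℤ) + 2) * (2 + 3) * (Gam (2 + 1) ((2 + 2) * (2 + 1) ^ 2 + w) - 1) <
      (2 + 2) * (2 + 2) ^ 2 + (2 + 4) * (w + 1) := by
  norm_num at hw ⊢
  have hT : T 3 10 = 36 := by decide
  have hb : b 2 10 = 12 := by decide
  have hD : Dl 3 10 = 3 := by decide
  rcases le_total w 12 with h | h
  · have h1 := cellbound 2 10 7 w (by omega) (by rw [hb]; exact h) (by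
      have : T 2 7 = 12 := by decide
      rw [this]; exact h)
    have h2 : rho 2 7 = 5 / 12 := by
      have e1 : T 2 7 = 12 := by decide
      have e2 : Dl 2 7 = 5 := by decide
      rw [rho, e1, e2]; norm_num
    rw [hT, hD, h2] at h1
    have h3 : (w : ℚ) ≤ 12 := by exact_mod_cast h
    have h4 : ((4 : ℚ) * 5) * (Gam 3 (36 + w) - 1) < 64 + 6 * (w + 1) := by
      linarith
    have h5 : ((4 : ℤ) * 5) * (Gam 3 (36 + w) - 1) < 64 + 6 * (w + 1) := by
      exact_mod_cast h4
    linarith
  · obtain ⟨v, rfl⟩ : ∃ v, w = 12 + v := ⟨w - 12, by omega⟩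
    have hv : v ≤ 3 := by omega
    have hT2 : T 3 11 = 48 := by decide
    have hb2 : b 2 11 = 16 := by decide
    have hD2 : Dl 3 11 = 8 := by decide
    have h1 := cellbound 2 11 4 v (by omega) (by rw [hb2]; omega) (by
      have : T 2 4 = 4 := by decide
      rw [this]; omega)
    have h2 : rho 2 4 = 0 / 1 := by
      have e1 : T 2 4 = 4 := by decide
      have e2 : Dl 2 4 = 0 := by decide
      rw [rho, e1, e2]; norm_num
    rw [hT2, hD2, h2] at h1
    have h3 : (v : ℚ) ≤ 3 := by exact_mod_cast hv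
    have h0 : 36 + (12 + v) = 48 + v := by omega
    rw [h0]
    have h4 : ((4 : ℚ) * 5) * (Gam 3 (48 + v) - 1) < 64 + 6 * ((12 + v) + 1) := by
      linarith
    have h5 : ((4 : ℤ) * 5) * (Gam 3 (48 + v) - 1) < 64 + 6 * ((12 + v) + 1) := by
      exact_mod_cast h4
    push_cast
    linarith

theorem numP_3 (w : ℕ) (hw : w < (3 + 2) ^ 3) :
    ((3 : ℤ) + 2) * (3 + 3) * (Gam (3 + 1) ((3 + 2) * (3 + 1) ^ 3 + w) - 1) <
      (3 + 2) * (3 + 2) ^ 3 + (3 + 4) * (w + 1) := by
  norm_num at hw ⊢
  have hT : T 4 17 = 320 := by decide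
  have hb : b 3 17 = 80 := by decide
  have hD : Dl 4 17 = 16 := by decide
  rcases le_total w 80 with h | h
  · have h1 := cellbound 3 17 13 w (by omega) (by rw [hb]; exact h) (by
      have : T 3 13 = 80 := by decide
      rw [this]; exact h)
    have h2 : rho 3 13 = 3 / 10 := by
      have e1 : T 3 13 = 80 := by decide
      have e2 : Dl 3 13 = 24 := by decide
      rw [rho, e1, e2]; norm_num
    rw [hT, hD, h2] at h1
    have h3 : (w : ℚ) ≤ 80 := by exact_mod_cast h
    have h4 : ((5 : ℚ) * 6) * (Gam 4 (320 + w) - 1) < 625 + 7 * (w + 1) := by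
      linarith
    have h5 : ((5 : ℤ) * 6) * (Gam 4 (320 + w) - 1) < 625 + 7 * (w + 1) := by
      exact_mod_cast h4
    linarith
  · obtain ⟨v, rfl⟩ : ∃ v, w = 80 + v := ⟨w - 80, by omega⟩
    have hv : v ≤ 44 := by omega
    have hT2 : T 4 18 = 400 := by decide
    have hb2 : b 3 18 = 100 := by decide
    have hD2 : Dl 4 18 = 40 := by decide
    have h1 := cellbound 3 18 11 v (by omega) (by rw [hb2]; omega) (by
      have : T 3 11 = 48 := by decide
      rw [this]; omega)
    have h2 : rho 3 11 = 1 / 6 := by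
      have e1 : T 3 11 = 48 := by decide
      have e2 : Dl 3 11 = 8 := by decide
      rw [rho, e1, e2]; norm_num
    rw [hT2, hD2, h2] at h1
    have h3 : (v : ℚ) ≤ 44 := by exact_mod_cast hv
    have h0 : 320 + (80 + v) = 400 + v := by omega
    rw [h0]
    have h4 : ((5 : ℚ) * 6) * (Gam 4 (400 + v) - 1) < 625 + 7 * ((80 + v) + 1) := by
      linarith
    have h5 : ((5 : ℤ) * 6) * (Gam 4 (400 + v) - 1) < 625 + 7 * ((80 + v) + 1) := by
      exact_mod_cast h4
    push_cast
    linarith

theorem numP_4 (w : ℕ) (hw : w < (4 + 2) ^ 4) :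
    ((4 : ℤ) + 2) * (4 + 3) * (Gam (4 + 1) ((4 + 2) * (4 + 1) ^ 4 + w) - 1) <
      (4 + 2) * (4 + 2) ^ 4 + (4 + 4) * (w + 1) := by
  norm_num at hw ⊢
  have hT : T 5 26 = 3750 := by decide
  have hb : b 4 26 = 750 := by decide
  have hD : Dl 5 26 = 125 := by decide
  rcases le_total w 750 with h | h
  · have h1 := cellbound 4 26 21 w (by omega) (by rw [hb]; exact h) (by
      have : T 4 21 = 750 := by decide
      rw [this]; exact h)
    have h2 : rho 4 21 = 7 / 30 := by
      have e1 : T 4 21 = 750 := by decide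
      have e2 : Dl 4 21 = 175 := by decide
      rw [rho, e1, e2]; norm_num
    rw [hT, hD, h2] at h1
    have h3 : (w : ℚ) ≤ 750 := by exact_mod_cast h
    have h4 : ((6 : ℚ) * 7) * (Gam 5 (3750 + w) - 1) < 7776 + 8 * (w + 1) := by
      linarith
    have h5 : ((6 : ℤ) * 7) * (Gam 5 (3750 + w) - 1) < 7776 + 8 * (w + 1) := by
      exact_mod_cast h4
    linarith
  · obtain ⟨v, rfl⟩ : ∃ v, w = 750 + v := ⟨w - 750, by omega⟩
    have hv : v ≤ 545 := by omega
    have hT2 : T 5 27 = 4500 := by decide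
    have hb2 : b 4 27 = 900 := by decide
    have hD2 : Dl 5 27 = 300 := by decide
    have h1 := cellbound 4 27 20 v (by omega) (by rw [hb2]; omega) (by
      have : T 4 20 = 625 := by decide
      rw [this]; omega)
    have h2 : rho 4 20 = 1 / 5 := by
      have e1 : T 4 20 = 625 := by decide
      have e2 : Dl 4 20 = 125 := by decide
      rw [rho, e1, e2]; norm_num
    rw [hT2, hD2, h2] at h1
    have h3 : (v : ℚ) ≤ 545 := by exact_mod_cast hv
    have h0 : 3750 + (750 + v) = 4500 + v := by omega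
    rw [h0]
    have h4 : ((6 : ℚ) * 7) * (Gam 5 (4500 + v) - 1) < 7776 + 8 * ((750 + v) + 1) := by
      linarith
    have h5 : ((6 : ℤ) * 7) * (Gam 5 (4500 + v) - 1) < 7776 + 8 * ((750 + v) + 1) := by
      exact_mod_cast h4
    push_cast
    linarith

theorem numP_5 (w : ℕ) (hw : w < (5 + 2) ^ 5) :
    ((5 : ℤ) + 2) * (5 + 3) * (Gam (5 + 1) ((5 + 2) * (5 + 1) ^ 5 + w) - 1) <
      (5 + 2) * (5 + 2) ^ 5 + (5 + 4) * (w + 1) := by
  norm_num at hw ⊢
  have hT : T 6 37 = 54432 := by decide
  have hb : b 5 37 = 9072 := by decide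
  have hD : Dl 6 37 = 1296 := by decide
  rcases le_total w 9072 with h | h
  · have h1 := cellbound 5 37 31 w (by omega) (by rw [hb]; exact h) (by
      have : T 5 31 = 9072 := by decide
      rw [this]; exact h)
    have h2 : rho 5 31 = 4 / 21 := by
      have e1 : T 5 31 = 9072 := by decide
      have e2 : Dl 5 31 = 1728 := by decide
      rw [rho, e1, e2]; norm_num
    rw [hT, hD, h2] at h1
    have h3 : (w : ℚ) ≤ 9072 := by exact_mod_cast h
    have h4 : ((7 : ℚ) * 8) * (Gam 6 (54432 + w) - 1) < 117649 + 9 * (w + 1) := by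
      linarith
    have h5 : ((7 : ℤ) * 8) * (Gam 6 (54432 + w) - 1) < 117649 + 9 * (w + 1) := by
      exact_mod_cast h4
    linarith
  · obtain ⟨v, rfl⟩ : ∃ v, w = 9072 + v := ⟨w - 9072, by omega⟩
    have hv : v ≤ 7734 := by omega
    have hT2 : T 6 38 = 63504 := by decide
    have hb2 : b 5 38 = 10584 := by decide
    have hD2 : Dl 6 38 = 3024 := by decide
    have h1 := cellbound 5 38 30 v (by omega) (by rw [hb2]; omega) (by
      have : T 5 30 = 7776 := by decide
      rw [this]; omega)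
    have h2 : rho 5 30 = 1 / 6 := by
      have e1 : T 5 30 = 7776 := by decide
      have e2 : Dl 5 30 = 1296 := by decide
      rw [rho, e1, e2]; norm_num
    rw [hT2, hD2, h2] at h1
    have h3 : (v : ℚ) ≤ 7734 := by exact_mod_cast hv
    have h0 : 54432 + (9072 + v) = 63504 + v := by omega
    rw [h0]
    have h4 : ((7 : ℚ) * 8) * (Gam 6 (63504 + v) - 1) < 117649 + 9 * ((9072 + v) + 1) := by
      linarith
    have h5 : ((7 : ℤ) * 8) * (Gam 6 (63504 + v) - 1) < 117649 + 9 * ((9072 + v) + 1) := by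
      exact_mod_cast h4
    push_cast
    linarith

theorem numP_6 (w : ℕ) (hw : w < (6 + 2) ^ 6) :
    ((6 : ℤ) + 2) * (6 + 3) * (Gam (6 + 1) ((6 + 2) * (6 + 1) ^ 6 + w) - 1) <
      (6 + 2) * (6 + 2) ^ 6 + (6 + 4) * (w + 1) := by
  norm_num at hw ⊢
  have hT : T 7 50 = 941192 := by decide
  have hb : b 6 50 = 134456 := by decide
  have hD : Dl 7 50 = 16807 := by decide
  rcases le_total w 134456 with h | h
  · have h1 := cellbound 6 50 43 w (by omega) (by rw [hb]; exact h) (by
      have : T 6 43 = 134456 := by decide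
      rw [this]; exact h)
    have h2 : rho 6 43 = 9 / 56 := by
      have e1 : T 6 43 = 134456 := by decide
      have e2 : Dl 6 43 = 21609 := by decide
      rw [rho, e1, e2]; norm_num
    rw [hT, hD, h2] at h1
    have h3 : (w : ℚ) ≤ 134456 := by exact_mod_cast h
    have h4 : ((8 : ℚ) * 9) * (Gam 7 (941192 + w) - 1) < 2097152 + 10 * (w + 1) := by
      linarith
    have h5 : ((8 : ℤ) * 9) * (Gam 7 (941192 + w) - 1) < 2097152 + 10 * (w + 1) := by
      exact_mod_cast h4
    linarith
  · obtain ⟨v, rfl⟩ : ∃ v, w = 134456 + v := ⟨w - 134456, by omega⟩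
    have hv : v ≤ 127687 := by omega
    have hT2 : T 7 51 = 1075648 := by decide
    have hb2 : b 6 51 = 153664 := by decide
    have hD2 : Dl 7 51 = 38416 := by decide
    have h1 := cellbound 6 51 43 v (by omega) (by rw [hb2]; omega) (by
      have : T 6 43 = 134456 := by decide
      rw [this]; omega)
    have h2 : rho 6 43 = 9 / 56 := by
      have e1 : T 6 43 = 134456 := by decide
      have e2 : Dl 6 43 = 21609 := by decide
      rw [rho, e1, e2]; norm_num
    rw [hT2, hD2, h2] at h1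
    have h3 : (v : ℚ) ≤ 127687 := by exact_mod_cast hv
    have h0 : 941192 + (134456 + v) = 1075648 + v := by omega
    rw [h0]
    have h4 : ((8 : ℚ) * 9) * (Gam 7 (1075648 + v) - 1) < 2097152 + 10 * ((134456 + v) + 1) := by
      linarith
    have h5 : ((8 : ℤ) * 9) * (Gam 7 (1075648 + v) - 1) < 2097152 + 10 * ((134456 + v) + 1) := by
      exact_mod_cast h4
    push_cast
    linarith

theorem numP_7 (w : ℕ) (hw : w < (7 + 2) ^ 7) :
    ((7 : ℤ) + 2) * (7 + 3) * (Gam (7 + 1) ((7 + 2) * (7 + 1) ^ 7 + w) - 1) <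
      (7 + 2) * (7 + 2) ^ 7 + (7 + 4) * (w + 1) := by
  norm_num at hw ⊢
  have hT : T 8 65 = 18874368 := by decide
  have hb : b 7 65 = 2359296 := by decide
  have hD : Dl 8 65 = 262144 := by decide
  rcases le_total w 2359296 with h | h
  · have h1 := cellbound 7 65 57 w (by omega) (by rw [hb]; exact h) (by
      have : T 7 57 = 2359296 := by decide
      rw [this]; exact h)
    have h2 : rho 7 57 = 5 / 36 := by
      have e1 : T 7 57 = 2359296 := by decide
      have e2 : Dl 7 57 = 327680 := by decide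
      rw [rho, e1, e2]; norm_num
    rw [hT, hD, h2] at h1
    have h3 : (w : ℚ) ≤ 2359296 := by exact_mod_cast h
    have h4 : ((9 : ℚ) * 10) * (Gam 8 (18874368 + w) - 1) < 43046721 + 11 * (w + 1) := by
      linarith
    have h5 : ((9 : ℤ) * 10) * (Gam 8 (18874368 + w) - 1) < 43046721 + 11 * (w + 1) := by
      exact_mod_cast h4
    linarith
  · obtain ⟨v, rfl⟩ : ∃ v, w = 2359296 + v := ⟨w - 2359296, by omega⟩
    have hv : v ≤ 2423672 := by omega
    have hT2 : T 8 66 = 21233664 := by decide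
    have hb2 : b 7 66 = 2654208 := by decide
    have hD2 : Dl 8 66 = 589824 := by decide
    have h1 := cellbound 7 66 58 v (by omega) (by rw [hb2]; omega) (by
      have : T 7 58 = 2654208 := by decide
      rw [this]; omega)
    have h2 : rho 7 58 = 11 / 72 := by
      have e1 : T 7 58 = 2654208 := by decide
      have e2 : Dl 7 58 = 405504 := by decide
      rw [rho, e1, e2]; norm_num
    rw [hT2, hD2, h2] at h1
    have h3 : (v : ℚ) ≤ 2423672 := by exact_mod_cast hv
    have h0 : 18874368 + (2359296 + v) = 21233664 + v := by omega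
    rw [h0]
    have h4 : ((9 : ℚ) * 10) * (Gam 8 (21233664 + v) - 1) < 43046721 + 11 * ((2359296 + v) + 1) := by
      linarith
    have h5 : ((9 : ℤ) * 10) * (Gam 8 (21233664 + v) - 1) < 43046721 + 11 * ((2359296 + v) + 1) := by
      exact_mod_cast h4
    push_cast
    linarith

theorem numP (k w : ℕ) (hk : 2 ≤ k) (hw : w < (k + 2) ^ k) :
    ((k : ℤ) + 2) * (k + 3) * (Gam (k + 1) ((k + 2) * (k + 1) ^ k + w) - 1) <
      (k + 2) * (k + 2) ^ k + (k + 4) * (w + 1) := by
  rcases Nat.lt_or_ge k 8 with h | h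
  · interval_cases k
    · exact numP_2 w hw
    · exact numP_3 w hw
    · exact numP_4 w hw
    · exact numP_5 w hw
    · exact numP_6 w hw
    · exact numP_7 w hw
  · exact numP_large k w h hw

end Pool.H87.NM
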