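import Pool.Agent.Helper87.NM.Num3

/-! The numerical dichotomy for the vertex `z`. -/

namespace Pool.H87.NM

theorem f8a (k y c : ℕ) (hk : 2 ≤ k) (hy0 : (k + 1) * (k + 1) ^ k < y)
    (hy1 : y < (k + 2) * (k + 1) ^ k)
    (hc2 : (k + 3) * c ≤ (k + 2) * ((k + 2) * (k + 2) ^ k) + y)
    (hF : 1 ≤ Gam (k + 1) c + Gam (k + 2) ((k + 2) * ((k + 2) * (k + 2) ^ k) + y - c)) :
    c < y + (k + 2) ^ k := by
  by_contra hcon
  push Not at hcon
  obtain ⟨h1p, hpR⟩ := r1 k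
  have h3 := r3 k (by omega)
  have hnum := numP k (y + (k + 2) ^ k - (k + 2) * (k + 1) ^ k) hk
  have hlow0 := Gam_low k 0 (Nat.zero_le _)
  have hlow := Gam_low k
  have hf5 := f5 k
  have hface := fun l => Gam_face k (y + (k + 2) ^ k) l (k + 1) (by omega)
  have hpow : (k + 1 + 1) ^ (k + 1) = (k + 2) * (k + 2) ^ k := by
    rw [pow_succ, mul_comm]
  have hTN : T (k + 1) ((k + 1) * (k + 1) + k) = (k + 1) * (k + 2) ^ k := by
    rw [T_at (k + 1) (k + 1) k (by omega) (by omega), show k + 1 - k = 1 by omega, pow_one]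
  obtain ⟨R, hR⟩ : ∃ R, R = (k + 2) ^ k := ⟨_, rfl⟩
  obtain ⟨p, hp⟩ : ∃ p, p = (k + 1) ^ k := ⟨_, rfl⟩
  have hRZ : ((k : ℤ) + 2) ^ k = R := by rw [hR]; push_cast; ring
  rw [hRZ] at hnum hlow0
  simp only [hRZ] at hlow hf5
  rw [← hR, ← hp] at hnum
  rw [← hR] at hlow0 hface
  simp only [← hR] at hlow hf5
  rw [hpow] at hface
  rw [← hR] at hcon hc2 hF hpR h3 hTN
  rw [← hR] at hface
  rw [← hp] at hy0 hy1 h1p hpR h3
  have e1 : (k + 2) * p = (k + 1) * p + p := by ring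
  have e2 : (k + 2) * R = (k + 1) * R + R := by ring
  have hcR : c < (k + 2) * R := by
    by_contra hcc
    push Not at hcc
    have h4 : (k + 3) * ((k + 2) * R) ≤ (k + 3) * c := Nat.mul_le_mul_left _ hcc
    have h5 : (k + 2) * p ≤ (k + 2) * R := Nat.mul_le_mul_left _ hpR
    have e3 : (k + 3) * ((k + 2) * R) = (k + 2) * ((k + 2) * R) + (k + 2) * R := by ring
    omega
  obtain ⟨v, hv⟩ : ∃ v, v = (k + 2) * R + y - c := ⟨_, rfl⟩
  have e4 : (k + 2) * ((k + 2) * R) = (k + 1) * ((k + 2) * R) + (k + 2) * R := by ring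
  have e5 : (k + 2) * ((k + 2) * R) + y - c = (k + 1) * ((k + 2) * R) + v := by omega
  rw [e5, hf5 v (by omega)] at hF
  -- the number at y + R
  have hw : y + R - (k + 2) * p < R := by omega
  have h6 := hnum hw
  rw [show (k + 2) * p + (y + R - (k + 2) * p) = y + R by omega] at h6
  obtain ⟨w, hwdef⟩ : ∃ w, w = y + R - (k + 2) * p := ⟨_, rfl⟩
  rw [← hwdef] at h6 hw
  have hw' : (w : ℤ) + 1 ≤ R := by exact_mod_cast hw
  have h7 : ((k : ℤ) + 2) * (Gam (k + 1) (y + R) - 1) < 2 * R := by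
    have h8 : ((k : ℤ) + 4) * (w + 1) ≤ (k + 4) * R := mul_le_mul_of_nonneg_left hw' (by positivity)
    have h9 : ((k : ℤ) + 3) * (((k : ℤ) + 2) * (Gam (k + 1) (y + R) - 1)) < (k + 3) * (2 * R) := by
      linarith
    exact lt_of_mul_lt_mul_left h9 (by positivity)
  have hlow0' : ((k : ℤ) + 2) * Gam (k + 1) ((k + 1) * R) = k * R := by
    rw [add_zero] at hlow0
    rw [hlow0, Gam_zero, mul_zero, add_zero]
  have hmain : ((k : ℤ) + 2) * (Gam (k + 1) c + Gam (k + 1) v) ≤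
      k * R + (k + 2) * Gam (k + 1) (y + R) := by
    rcases le_or_gt c ((k + 1) * R) with hc | hc
    · have h8 := Gam_exch k ((k + 1) * (k + 1) + k) c v (by rw [hTN]; exact hc)
        (by rw [hTN]; omega) (by rw [hTN]; omega)
      rw [hTN, show c + v - (k + 1) * R = y + R by omega] at h8
      have h9 := mul_le_mul_of_nonneg_left h8 (show (0 : ℤ) ≤ (k : ℤ) + 2 by positivity)
      linarith
    · obtain ⟨l, hl⟩ : ∃ l, c = (k + 1) * R + l := ⟨c - (k + 1) * R, by omega⟩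
      have h8 := hlow l (by omega)
      rw [← hl] at h8
      have hl2 : (k + 1 + 1) * l ≤ y + R := by
        rw [hl] at hc2
        have e6 : (k + 3) * ((k + 1) * R + l) = (k + 3) * (k + 1) * R + (k + 1 + 1) * l + l := by
          ring
        have e7 : (k + 2) * ((k + 2) * R) = (k + 3) * (k + 1) * R + R := by ring
        omega
      have h9 := hface l (by omega) hl2
      rw [show y + R - l = v by omega] at h9
      have h10 := mul_le_mul_of_nonneg_left h9 (show (0 : ℤ) ≤ (k : ℤ) + 2 by positivity)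
      linarith
  have h11 := mul_le_mul_of_nonneg_left hF (show (0 : ℤ) ≤ (k : ℤ) + 2 by positivity)
  linarith

theorem f8b (k y c : ℕ) (hk : 2 ≤ k) (hy0 : (k + 1) * (k + 1) ^ k < y)
    (hy1 : y < (k + 2) * (k + 1) ^ k) (hc0 : (k + 1) * (k + 1) ^ k < c)
    (hc1 : c < y + (k + 2) ^ k) :
    ((k : ℤ) + 2) * (k + 3) * (Gam (k + 1) c - 1) <
      (k + 2) * (k + 2) ^ k + (k + 4) * ((c : ℤ) - y) := by
  obtain ⟨h1p, hpR⟩ := r1 k
  have h4 := r4 k hk
  have hnum := numP k (c - (k + 2) * (k + 1) ^ k) hk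
  have hq0 := Gam_q0 k (c - (k + 1) * (k + 1) ^ k)
  have hcp := cone_p k (c - (k + 1) * (k + 1) ^ k)
  obtain ⟨R, hR⟩ : ∃ R, R = (k + 2) ^ k := ⟨_, rfl⟩
  obtain ⟨p, hp⟩ : ∃ p, p = (k + 1) ^ k := ⟨_, rfl⟩
  have hRZ : ((k : ℤ) + 2) ^ k = R := by rw [hR]; push_cast; ring
  rw [hRZ] at hnum ⊢
  rw [← hR, ← hp] at hnum h4 hpR
  rw [← hp] at hq0 hcp hy0 hy1 hc0 h1p
  rw [← hR] at hc1
  have e1 : (k + 2) * p = (k + 1) * p + p := by ring
  rcases le_or_gt ((k + 2) * p) c with h | h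
  · have h5 := hnum (by omega)
    rw [show (k + 2) * p + (c - (k + 2) * p) = c by omega] at h5
    have h6 : ((c - (k + 2) * p : ℕ) : ℤ) + 1 ≤ (c : ℤ) - y := by
      rw [Nat.cast_sub h]
      have : ((y + 1 : ℕ) : ℤ) ≤ ((k + 2) * p : ℕ) := by exact_mod_cast hy1
      push_cast at this ⊢
      linarith
    have h7 := mul_le_mul_of_nonneg_left h6 (show (0 : ℤ) ≤ (k : ℤ) + 4 by positivity)
    linarith
  · have h5 := hq0 (by omega)
    have h6 := hcp (by omega)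
    rw [show (k + 1) * p + (c - (k + 1) * p) = c by omega] at h5
    rw [← h5] at h6
    obtain ⟨v, hv⟩ : ∃ v : ℤ, v = ((c - (k + 1) * p : ℕ) : ℤ) := ⟨_, rfl⟩
    rw [← hv] at h6
    have hv2 : v = (c : ℤ) - (k + 1) * p := by
      rw [hv, Nat.cast_sub hc0.le]; push_cast; ring
    have hy1' : (y : ℤ) + 1 ≤ (k + 2) * p := by exact_mod_cast hy1
    have hy0' : ((k : ℤ) + 1) * p + 1 ≤ y := by exact_mod_cast hy0
    have hcp' : (c : ℤ) + 1 ≤ (k + 2) * p := by exact_mod_cast h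
    have h4' : (((k : ℤ) ^ 2 + 5 * k + 8) * p) ≤ (k + 2) * (k + 1) * R + (k + 2) ^ 2 * (k + 3) := by
      exact_mod_cast h4
    obtain ⟨u, hu⟩ : ∃ u : ℤ, u = (c : ℤ) - y := ⟨_, rfl⟩
    rw [← hu]
    obtain ⟨g, hg⟩ : ∃ g, g = Gam (k + 1) c := ⟨_, rfl⟩
    rw [← hg] at h6 ⊢
    -- v ≤ u + p - 1, u ≤ p - 2
    have hvu : v ≤ u + p - 1 := by rw [hv2, hu]; linarith
    have hup : u ≤ p - 2 := by rw [hu]; linarith
    have hk0 : (0 : ℤ) < (k : ℤ) + 1 := by positivity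
    apply lt_of_mul_lt_mul_left _ hk0.le
    have h7 : ((k : ℤ) + 2) * (k + 3) * ((k + 1) * g) ≤ (k + 2) * (k + 3) * (u + p - 1) :=
      mul_le_mul_of_nonneg_left (h6.trans hvu) (by positivity)
    nlinarith

theorem f8 (k y c : ℕ) (hk : 2 ≤ k) (hy0 : (k + 1) * (k + 1) ^ k < y)
    (hy1 : y < (k + 2) * (k + 1) ^ k) (hc0 : (k + 1) * (k + 1) ^ k < c)
    (hc2 : (k + 3) * c ≤ (k + 2) * ((k + 2) * (k + 2) ^ k) + y)
    (hF : 1 ≤ Gam (k + 1) c + Gam (k + 2) ((k + 2) * ((k + 2) * (k + 2) ^ k) + y - c)) :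
    c < y + (k + 2) ^ k ∧ ((k : ℤ) + 2) * (k + 3) * (Gam (k + 1) c - 1) <
      (k + 2) * (k + 2) ^ k + (k + 4) * ((c : ℤ) - y) := by
  have h1 := f8a k y c hk hy0 hy1 hc2 hF
  exact ⟨h1, f8b k y c hk hy0 hy1 hc0 h1⟩

end Pool.H87.NM
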