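import Pool.Agent.Helper87.NM.Up

/-! Realization of all weak orders for `m ≥ 4`. -/

open Finset Polynomial

namespace Pool.H87.NM

open Pool.H78.ND

theorem base_box (m : ℕ) {n : ℕ} (hn : n ≤ m) (t : Fin n → ℕ) (ht : ∀ i, t i ≤ m) :
    Rs (fun j => m.choose j * m ^ j + (bx t).coeff (j - 1)) := by
  refine ⟨_, Rz_box m hn t ht, fun j hj => ?_⟩
  obtain ⟨i, rfl⟩ : ∃ i, j = i + 1 := ⟨j - 1, by omega⟩
  rw [coeff_add, coeff_lin_pow, mul_comm X, coeff_mul_X]
  rfl

/-- Realization of every weak order, in terms of a rank function `p ≤ m - 1`. -/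
theorem realize_opt (m : ℕ) (hm : 4 ≤ m) (p : ℕ → ℕ) (hp : ∀ j, p j ≤ m - 1) :
    ∃ (K : ℕ) (f : ℕ[X]), Rz f ∧ m ≤ K ∧
      f.coeff 1 ≤ m ^ m + minProd m + (m - 2) ∧
      (∀ j, 1 ≤ j → j ≤ m → f.coeff j + p m = K + p j) ∧ ∀ j, m < j → f.coeff j = 0 := by
  rcases Nat.lt_or_ge (p (m - 1)) (p m) with hlt | hge
  · obtain ⟨k, rfl⟩ : ∃ k, m = k + 2 := ⟨m - 2, by omega⟩
    obtain ⟨t₀, ht₀, hs, hT, hlo, hhi⟩ := opt_box k (by omega)
    have hmm : k + 2 ≤ (k + 2) ^ (k + 2) := by
      calc k + 2 = (k + 2) ^ 1 := (pow_one _).symm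
        _ ≤ (k + 2) ^ (k + 2) := Nat.pow_le_pow_right (by omega) (by omega)
    obtain ⟨M, hM⟩ : ∃ M, M = minProd (k + 2) := ⟨_, rfl⟩
    rw [← hM] at hT hlo hhi ⊢
    obtain ⟨t, htdef⟩ : ∃ t : ℕ → ℕ, t = fun j => if j ≤ k + 2 then
      ((k + 2) ^ (k + 2) + M) + p j - p (k + 2) else 0 := ⟨_, rfl⟩
    have ht : ∀ j, 1 ≤ j → j ≤ k + 2 → t j + p (k + 2) = ((k + 2) ^ (k + 2) + M) + p j := by
      intro j _ hj
      rw [htdef]; simp only [if_pos hj]
      have := hp (k + 2)
      omega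
    have ht0 : ∀ j, k + 2 < j → t j = 0 := by
      intro j hj
      rw [htdef]; simp only [if_neg (by omega : ¬ j ≤ k + 2)]
    have hcm1 : (k + 2).choose (k + 1) * (k + 2) ^ (k + 1) = (k + 2) ^ (k + 2) := by
      rw [Nat.choose_succ_self_right, ← pow_succ']
    have tm1 := ht (k + 1) (by omega) (by omega)
    have hpm := hp (k + 2)
    have hpm1 := hp (k + 1)
    rw [show k + 2 - 1 = k + 1 by omega] at hlt hpm hpm1
    have hR : Rs t := by
      refine from_base (k + 2) ((k + 2) ^ (k + 2) + M) p t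
        (fun j => (k + 2).choose j * (k + 2) ^ j + (bx t₀).coeff (j - 1)) hm hp
        (Nat.le_add_right _ _) ht ht0
        (base_box (k + 2) (by omega) t₀ (fun i => (ht₀ i).2)) ?_ ?_ ?_ ?_ ?_
      · rw [Nat.choose_self, one_mul, show k + 2 - 1 = k + 1 by omega, bx_top, hT]
      · intro j hj
        rw [Nat.choose_eq_zero_of_lt hj, zero_mul, bx_zero t₀ (j - 1) (by omega)]
      · rw [show k + 2 - 1 = k + 1 by omega, hcm1, show k + 1 - 1 = k by omega]
        omega
      · rw [show k + 2 - 1 = k + 1 by omega, hcm1, show k + 1 - 1 = k by omega,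
          show k + 2 - 3 = k - 1 by omega]
        omega
      · intro i hi1 hi
        rw [mul_add, mul_add, Nat.add_sub_cancel]
        exact Nat.add_le_add (T_ratio (k + 2) (k + 2) i (by omega))
          (bx_ratio t₀ (fun i => (ht₀ i).1) hs (k + 2) i rfl hi1 hi)
    obtain ⟨f, hf, hft⟩ := hR
    refine ⟨(k + 2) ^ (k + 2) + M, f, hf, by omega, ?_, ?_, ?_⟩
    · rw [hft 1 le_rfl]
      have := ht 1 le_rfl (by omega)
      have := hp 1
      omega
    · intro j hj1 hj
      rw [hft j hj1]; exact ht j hj1 hj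
    · intro j hj
      rw [hft j (by omega)]; exact ht0 j hj
  · obtain ⟨a, ha, h2, h1, h0, hma⟩ := pow_facts m hm
    have hmm : m ≤ m ^ m := by
      calc m = m ^ 1 := (pow_one m).symm
        _ ≤ m ^ m := Nat.pow_le_pow_right (by omega) (by omega)
    have hMpos : 1 ≤ minProd m := by
      obtain ⟨k, rfl⟩ : ∃ k, m = k + 2 := ⟨m - 2, by omega⟩
      obtain ⟨t₀, ht₀, _, hT⟩ := minProd_mem k
      rw [hT]
      exact Nat.pos_of_ne_zero (prod_ne_zero_iff.2 (fun i _ => by have := (ht₀ i).1; omega))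
    obtain ⟨t, htdef⟩ : ∃ t : ℕ → ℕ, t = fun j => if j ≤ m then
      m ^ m + p j - p m else 0 := ⟨_, rfl⟩
    have ht : ∀ j, 1 ≤ j → j ≤ m → t j + p m = m ^ m + p j := by
      intro j _ hj
      rw [htdef]; simp only [if_pos hj]
      have := hp m
      omega
    have ht0 : ∀ j, m < j → t j = 0 := by
      intro j hj
      rw [htdef]; simp only [if_neg (by omega : ¬ j ≤ m)]
    have hcm1 : m.choose (m - 1) * m ^ (m - 1) = m ^ m := by
      have hc1 : m.choose (m - 1) = m := by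
        rw [← Nat.choose_symm (by omega : m - 1 ≤ m), show m - (m - 1) = 1 by omega,
          Nat.choose_one_right]
      rw [hc1, ← pow_succ']
      congr 1; omega
    have tm1 := ht (m - 1) (by omega) (by omega)
    have hpm := hp m
    have hpm1 := hp (m - 1)
    have hR : Rs t := by
      refine from_base m (m ^ m) p t (fun j => m.choose j * m ^ j) hm hp le_rfl ht ht0
        (base_one m) ?_ ?_ ?_ ?_ ?_
      · rw [Nat.choose_self, one_mul]
      · intro j hj
        rw [Nat.choose_eq_zero_of_lt hj, zero_mul]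
      · rw [hcm1]
        omega
      · rw [hcm1, ← ha]
        omega
      · intro i hi1 hi
        exact T_ratio m m i (by omega)
    obtain ⟨f, hf, hft⟩ := hR
    refine ⟨m ^ m, f, hf, by omega, ?_, ?_, ?_⟩
    · rw [hft 1 le_rfl]
      have := ht 1 le_rfl (by omega)
      have := hp 1
      omega
    · intro j hj1 hj
      rw [hft j hj1]; exact ht j hj1 hj
    · intro j hj
      rw [hft j (by omega)]; exact ht0 j hj

end Pool.H87.NM
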