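import Pool.Agent.Helper87.NM.Gamma

/-! Superadditivity of `Gam` and its relative at Turan numbers. -/

namespace Pool.H87.NM

theorem Gam_dim1 (x : ℕ) (hx : 0 < x) : Gam 1 x = x - 1 := by
  have h := Gam_T 1 x hx
  have h1 : T 1 x = x := by simp [T]
  have h2 : Dl 1 x = x - 1 := by simp [Dl, T]
  rw [h1, h2] at h
  exact h

/-- superadditivity -/
def PS (k : ℕ) : Prop := ∀ x x', Gam k x + Gam k x' ≤ Gam k (x + x')

/-- the exchange property at Turan numbers -/
def PP (k : ℕ) : Prop := ∀ N x x', x ≤ T k N → x' ≤ T k N → T k N ≤ x + x' →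
  Gam k x + Gam k x' ≤ Gam k (T k N) + Gam k (x + x' - T k N)

theorem move (k : ℕ) (hS : PS (k + 1)) (hP : PP (k + 1)) (n y n' y' : ℕ)
    (hn : k + 2 ≤ n) (hy : y < b (k + 1) n) (hy0 : 0 < y') (hy' : y' ≤ b (k + 1) n')
    (hnn : n' ≤ n) : ∃ d, 0 < d ∧ d ≤ y' ∧ y + d ≤ b (k + 1) n ∧
      Gam (k + 2) (T (k + 2) n + y) + Gam (k + 2) (T (k + 2) n' + y') ≤
      Gam (k + 2) (T (k + 2) n + y + d) + Gam (k + 2) (T (k + 2) n' + y' - d) := by
  have e1 : Gam (k + 2) (T (k + 2) n + y) = Dl (k + 2) n + Gam (k + 1) y :=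
    Gam_cell' (k + 1) n y hn hy.le
  have e2 : Gam (k + 2) (T (k + 2) n' + y') = Dl (k + 2) n' + Gam (k + 1) y' :=
    Gam_cell (k + 1) n' y' hy0 hy'
  have hlow : ∀ d, d ≤ y' → Dl (k + 2) n' + Gam (k + 1) (y' - d) ≤
      Gam (k + 2) (T (k + 2) n' + y' - d) := by
    intro d hd
    rw [Nat.add_sub_assoc hd]
    rcases Nat.lt_or_ge n' (k + 2) with h | h
    · rcases Nat.eq_zero_or_pos (y' - d) with h0 | h0
      · have hb : b (k + 1) n' ≠ 0 := by omega
        have hT : T (k + 2) n' = 0 := T_zero _ _ h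
        have hs : sd (k + 1) n' = 0 := Nat.div_eq_of_lt h
        rw [h0, hT, Gam_zero, Gam_zero, Dl_eq, hs]
        have : (0 : ℤ) ≤ b (k + 1) n' := Int.natCast_nonneg _
        simp only [Nat.cast_zero, zero_mul]
        linarith
      · rw [show T (k + 2) n' + (y' - d) = T (k + 1 + 1) n' + (y' - d) from rfl,
          Gam_cell (k + 1) n' _ h0 (by omega)]
    · rw [show T (k + 2) n' + (y' - d) = T (k + 1 + 1) n' + (y' - d) from rfl,
        Gam_cell' (k + 1) n' _ h (by omega)]
  rcases le_total y' (b (k + 1) n - y) with h | h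
  · refine ⟨y', hy0, le_rfl, by omega, ?_⟩
    have h1 := hS y y'
    have h2 := hlow y' le_rfl
    have e3 : Gam (k + 2) (T (k + 2) n + y + y') = Dl (k + 2) n + Gam (k + 1) (y + y') := by
      rw [add_assoc]
      exact Gam_cell' (k + 1) n _ hn (by omega)
    rw [Nat.sub_self, Gam_zero] at h2
    rw [e1, e2, e3]
    linarith
  · refine ⟨b (k + 1) n - y, by omega, h, by omega, ?_⟩
    have hbb := b_mono (k + 1) hnn
    have h1 := hP (n - n / (k + 1 + 1)) y y' hy.le (hy'.trans hbb) (by
      change b (k + 1) n ≤ _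
      omega)
    change Gam (k + 1) y + Gam (k + 1) y' ≤ Gam (k + 1) (b (k + 1) n) +
      Gam (k + 1) (y + y' - b (k + 1) n) at h1
    have h2 := hlow (b (k + 1) n - y) h
    have e3 : Gam (k + 2) (T (k + 2) n + y + (b (k + 1) n - y)) =
        Dl (k + 2) n + Gam (k + 1) (b (k + 1) n) := by
      rw [show T (k + 2) n + y + (b (k + 1) n - y) = T (k + 1 + 1) n + b (k + 1) n by
        simp only [show k + 2 = k + 1 + 1 from rfl]
        omega]
      exact Gam_cell' (k + 1) n _ hn le_rfl
    rw [show y + y' - b (k + 1) n = y' - (b (k + 1) n - y) by omega] at h1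
    rw [e1, e2, e3]
    linarith

theorem PS_one : PS 1 := by
  intro x x'
  rcases Nat.eq_zero_or_pos x with rfl | hx
  · rw [Gam_zero, zero_add, zero_add]
  rcases Nat.eq_zero_or_pos x' with rfl | hx'
  · rw [Gam_zero, add_zero, add_zero]
  rw [Gam_dim1 x hx, Gam_dim1 x' hx', Gam_dim1 _ (by omega)]
  push_cast
  linarith

theorem PP_one : PP 1 := by
  intro N x x' h1 h2 h3
  rcases Nat.eq_zero_or_pos x with rfl | hx
  · have : x' = T 1 N := by omega
    rw [this, Gam_zero, zero_add, zero_add, Nat.sub_self, Gam_zero, add_zero]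
  rcases Nat.eq_zero_or_pos x' with rfl | hx'
  · have : x = T 1 N := by omega
    rw [this, Gam_zero, add_zero, Nat.add_zero, Nat.sub_self, Gam_zero, add_zero]
  rw [Gam_dim1 x hx, Gam_dim1 x' hx', Gam_dim1 (T 1 N) (by omega)]
  rcases Nat.eq_zero_or_pos (x + x' - T 1 N) with h | h
  · rw [h, Gam_zero]
    have : x + x' = T 1 N := by omega
    rw [← this]
    push_cast
    linarith
  · rw [Gam_dim1 _ h, Nat.cast_sub h3]
    push_cast
    linarith

theorem PS_step (k : ℕ) (hS : PS (k + 1)) (hP : PP (k + 1)) : PS (k + 2) := by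
  have key : ∀ x' x, x' ≤ x → Gam (k + 2) x + Gam (k + 2) x' ≤ Gam (k + 2) (x + x') := by
    intro x'
    induction x' using Nat.strong_induction_on with
    | _ x' ih =>
      intro x hx
      rcases Nat.eq_zero_or_pos x' with rfl | h0
      · rw [Gam_zero, add_zero, add_zero]
      obtain ⟨n, y, hn, hy, e⟩ := exists_cell' (k + 1) x (by omega)
      obtain ⟨n', y', hn', hy0, hy', e'⟩ := exists_cell (k + 1) x' h0
      have hnn : n' ≤ n := by
        have : n' < n + 1 := lt_of_T (k := k + 1 + 1) (by rw [T_step]; omega)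
        omega
      obtain ⟨d, hd0, hd1, hd2, hd3⟩ := move k hS hP n y n' y' hn hy hy0 hy' hnn
      rw [← show x = T (k + 2) n + y from e, ← show x' = T (k + 2) n' + y' from e'] at hd3
      have h2 := ih (x' - d) (by omega) (x + d) (by omega)
      rw [show x + d + (x' - d) = x + x' by omega] at h2
      linarith
  intro x x'
  rcases le_total x' x with h | h
  · exact key x' x h
  · rw [add_comm (Gam _ _), add_comm x]
    exact key x x' h

theorem PP_step (k : ℕ) (hS : PS (k + 1)) (hP : PP (k + 1)) : PP (k + 2) := by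
  have key : ∀ x' x N, x' ≤ x → x ≤ T (k + 2) N → T (k + 2) N ≤ x + x' →
      Gam (k + 2) x + Gam (k + 2) x' ≤ Gam (k + 2) (T (k + 2) N) +
      Gam (k + 2) (x + x' - T (k + 2) N) := by
    intro x'
    induction x' using Nat.strong_induction_on with
    | _ x' ih =>
      intro x N hx hxN hN
      rcases hxN.eq_or_lt with h | hlt
      · rw [← h, Nat.add_sub_cancel_left]
      obtain ⟨n, y, hn, hy, e⟩ := exists_cell' (k + 1) x (by omega)
      obtain ⟨n', y', hn', hy0, hy', e'⟩ := exists_cell (k + 1) x' (by omega)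
      have hnn : n' ≤ n := by
        have : n' < n + 1 := lt_of_T (k := k + 1 + 1) (by rw [T_step]; omega)
        omega
      have hnN : n + 1 ≤ N := by
        have : n < N := lt_of_T (k := k + 1 + 1) (by
          change T (k + 1 + 1) n < T (k + 2) N
          omega)
        omega
      have hTN : T (k + 2) n + b (k + 1) n ≤ T (k + 2) N := by
        have h1 := T_mono (k + 2) hnN
        rw [show T (k + 2) (n + 1) = T (k + 1 + 1) (n + 1) from rfl, T_step] at h1
        exact h1
      obtain ⟨d, hd0, hd1, hd2, hd3⟩ := move k hS hP n y n' y' hn hy hy0 hy' hnn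
      rw [← show x = T (k + 2) n + y from e, ← show x' = T (k + 2) n' + y' from e'] at hd3
      have e2 : x = T (k + 2) n + y := e
      have e2' : x' = T (k + 2) n' + y' := e'
      have h2 := ih (x' - d) (by omega) (x + d) N (by omega) (by omega) (by omega)
      rw [show x + d + (x' - d) = x + x' by omega] at h2
      linarith
  intro N x x' h1 h2 h3
  rcases le_total x' x with h | h
  · exact key x' x N h h1 h3
  · rw [add_comm (Gam _ x), add_comm x]
    exact key x x' N h h2 (by omega)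

theorem PSP (k : ℕ) : PS (k + 1) ∧ PP (k + 1) := by
  induction k with
  | zero => exact ⟨PS_one, PP_one⟩
  | succ k ih => exact ⟨PS_step k ih.1 ih.2, PP_step k ih.1 ih.2⟩

/-- superadditivity in positive dimension -/
theorem Gam_super (k x x' : ℕ) : Gam (k + 1) x + Gam (k + 1) x' ≤ Gam (k + 1) (x + x') :=
  (PSP k).1 x x'

theorem Gam_exch (k N x x' : ℕ) (h1 : x ≤ T (k + 1) N) (h2 : x' ≤ T (k + 1) N)
    (h3 : T (k + 1) N ≤ x + x') :
    Gam (k + 1) x + Gam (k + 1) x' ≤ Gam (k + 1) (T (k + 1) N) +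
      Gam (k + 1) (x + x' - T (k + 1) N) :=
  (PSP k).2 N x x' h1 h2 h3

end Pool.H87.NM
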