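import Pool.Agent.Helper87.NM.Real

/-! The cases `m = 1, 2, 3` of the realization, and the bounds for `minProd`. -/

open Finset Polynomial

namespace Pool.H87.NM

open Pool.H78.ND

/-- the sequence `(x, y, z)` is realized -/
def W3 (x y z : ℕ) : Prop := ∃ f : ℕ[X], Rz f ∧ f.coeff 1 = x ∧ f.coeff 2 = y ∧ f.coeff 3 = z ∧
  ∀ j, 3 < j → f.coeff j = 0

theorem W3_of (k : ℕ → ℕ) (h : Rs k) (x y z : ℕ) (h1 : k 1 = x) (h2 : k 2 = y) (h3 : k 3 = z)
    (h4 : ∀ j, 3 < j → k j = 0) : W3 x y z := by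
  obtain ⟨p, hp, hk⟩ := h
  exact ⟨p, hp, by rw [hk 1 le_rfl, h1], by rw [hk 2 (by omega), h2], by rw [hk 3 (by omega), h3],
    fun j hj => by rw [hk j (by omega), h4 j hj]⟩

theorem Rs_lin (a r : ℕ) : Rs (fun j => r.choose j * a ^ j) := by
  have h := Rs.of (Rz.lin a r)
  have e : (fun j => ((1 + C a * X : ℕ[X]) ^ r).coeff j) = fun j => r.choose j * a ^ j := by
    funext j
    exact coeff_lin_pow a r j
  rw [e] at h
  exact h

/-- three classes of sizes `a`, `b`, `c` -/
def tr (a b c : ℕ) : ℕ → ℕ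
  | 1 => a + b + c
  | 2 => a * b + b * c + c * a
  | 3 => a * b * c
  | _ => 0

theorem Rs_tr (a b c : ℕ) : Rs (tr a b c) := by
  refine ⟨_, ((Rz.lin a 1).mul (Rz.lin b 1)).mul (Rz.lin c 1), ?_⟩
  intro j hj
  simp only [pow_one]
  have h0 : ∀ j, (1 + C a * X : ℕ[X]).coeff j = Nat.choose 1 j * a ^ j := by
    intro j
    have := coeff_lin_pow a 1 j
    rw [pow_one] at this
    exact this
  rcases j with _ | _ | _ | _ | j
  · omega
  · rw [coeff_lin_mul, coeff_lin_mul, coeff_lin_mul_zero, h0, h0, tr]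
    simp
  · rw [coeff_lin_mul, coeff_lin_mul, coeff_lin_mul, h0, h0, h0, tr]
    simp
    ring
  · rw [coeff_lin_mul, coeff_lin_mul, coeff_lin_mul, h0, h0, h0, tr]
    simp [Nat.choose]
    ring
  · rw [coeff_lin_mul, coeff_lin_mul, coeff_lin_mul, h0, h0, h0, tr]
    · rw [Nat.choose_eq_zero_of_lt (by omega), Nat.choose_eq_zero_of_lt (by omega),
        Nat.choose_eq_zero_of_lt (by omega)]
      ring
    · omega
    · omega
    · omega

theorem W3_tr (a b c n : ℕ) : W3 (a + b + c + n) (a * b + b * c + c * a) (a * b * c) := by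
  apply W3_of _ ((Rs_tr a b c).add (Rs_lin n 1))
  · simp [tr]
  · simp [tr]
  · simp [tr, Nat.choose]
  · intro j hj
    obtain ⟨i, rfl⟩ : ∃ i, j = i + 4 := ⟨j - 4, by omega⟩
    rw [Nat.choose_eq_zero_of_lt (by omega)]
    simp [tr]

theorem W3_B (n : ℕ) : W3 (10 + n) 32 33 := by
  apply W3_of _ ((base_two 3 (by norm_num)).add (Rs_lin n 1))
  · simp [Dx]
  · simp [Dx, Nat.choose]
  · simp [Dx, Nat.choose]
  · intro j hj
    obtain ⟨i, rfl⟩ : ∃ i, j = i + 4 := ⟨j - 4, by omega⟩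
    rw [Nat.choose_eq_zero_of_lt (by omega : 3 < i + 4), Nat.choose_eq_zero_of_lt (by omega : 1 < i + 4)]
    simp only [show i + 4 - 1 = i + 2 + 1 by omega, Dx, show 3 - 2 = 1 by norm_num]
    rw [Nat.choose_eq_zero_of_lt (by omega : 1 < i + 2 + 1), Nat.choose_eq_zero_of_lt (by omega : 1 < i + 2)]
    simp

theorem W3_K : W3 9 12 1 := by
  apply W3_of _ ((Rs_tr 1 1 1).add (Rs_lin 3 2))
  · simp [tr]
  · simp [tr]
  · simp [tr, Nat.choose]
  · intro j hj
    obtain ⟨i, rfl⟩ : ∃ i, j = i + 4 := ⟨j - 4, by omega⟩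
    rw [Nat.choose_eq_zero_of_lt (by omega)]
    simp [tr]

/-- all thirteen patterns with at most 34 vertices -/
theorem small_three (p : ℕ → ℕ) : ∃ f : ℕ[X], Rz f ∧ f.coeff 1 ≤ 34 ∧ 0 < f.coeff 3 ∧
    (∀ j, 3 < j → f.coeff j = 0) ∧
    ∀ j k, 1 ≤ j → j ≤ 3 → 1 ≤ k → k ≤ 3 → (p j ≤ p k ↔ f.coeff j ≤ f.coeff k) := by
  have key : ∀ x y z : ℕ, W3 x y z → x ≤ 34 → 0 < z → (p 1 ≤ p 2 ↔ x ≤ y) → (p 2 ≤ p 1 ↔ y ≤ x) →
      (p 1 ≤ p 3 ↔ x ≤ z) → (p 3 ≤ p 1 ↔ z ≤ x) → (p 2 ≤ p 3 ↔ y ≤ z) → (p 3 ≤ p 2 ↔ z ≤ y) →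
      ∃ f : ℕ[X], Rz f ∧ f.coeff 1 ≤ 34 ∧ 0 < f.coeff 3 ∧
      (∀ j, 3 < j → f.coeff j = 0) ∧
      ∀ j k, 1 ≤ j → j ≤ 3 → 1 ≤ k → k ≤ 3 → (p j ≤ p k ↔ f.coeff j ≤ f.coeff k) := by
    rintro x y z ⟨f, hf, h1, h2, h3, h4⟩ hx hz a1 a2 a3 a4 a5 a6
    refine ⟨f, hf, by omega, by omega, h4, ?_⟩
    intro j k hj1 hj3 hk1 hk3
    interval_cases j <;> interval_cases k <;> simp only [h1, h2, h3] <;>
      first
      | exact a1
      | exact a2
      | exact a3
      | exact a4
      | exact a5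
      | exact a6
      | simp
  have w0 : W3 10 33 36 := W3_tr 3 3 4 0
  have w1 : W3 6 12 8 := W3_tr 2 2 2 0
  have w2 : W3 34 33 36 := W3_tr 3 3 4 24
  have w3 : W3 34 32 33 := W3_B 24
  have w4 : W3 9 12 1 := W3_K
  have w5 : W3 4 3 1 := W3_tr 1 1 1 1
  have w6 : W3 33 33 36 := W3_tr 3 3 4 23
  have w7 : W3 3 3 1 := W3_tr 1 1 1 0
  have w8 : W3 8 12 8 := W3_tr 2 2 2 2
  have w9 : W3 33 32 33 := W3_B 23
  have w10 : W3 28 27 27 := W3_tr 3 3 3 19
  have w11 : W3 9 27 27 := W3_tr 3 3 3 0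
  have w12 : W3 27 27 27 := W3_tr 3 3 3 18
  rcases lt_trichotomy (p 1) (p 2) with h12 | h12 | h12 <;>
    rcases lt_trichotomy (p 2) (p 3) with h23 | h23 | h23 <;>
    rcases lt_trichotomy (p 1) (p 3) with h13 | h13 | h13 <;>
    first
    | (exfalso; omega)
    | exact key 10 33 36 w0 (by norm_num) (by norm_num) (by omega) (by omega) (by omega)
        (by omega) (by omega) (by omega)
    | exact key 6 12 8 w1 (by norm_num) (by norm_num) (by omega) (by omega) (by omega)
        (by omega) (by omega) (by omega)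
    | exact key 34 33 36 w2 (by norm_num) (by norm_num) (by omega) (by omega) (by omega)
        (by omega) (by omega) (by omega)
    | exact key 34 32 33 w3 (by norm_num) (by norm_num) (by omega) (by omega) (by omega)
        (by omega) (by omega) (by omega)
    | exact key 9 12 1 w4 (by norm_num) (by norm_num) (by omega) (by omega) (by omega)
        (by omega) (by omega) (by omega)
    | exact key 4 3 1 w5 (by norm_num) (by norm_num) (by omega) (by omega) (by omega)
        (by omega) (by omega) (by omega)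
    | exact key 33 33 36 w6 (by norm_num) (by norm_num) (by omega) (by omega) (by omega)
        (by omega) (by omega) (by omega)
    | exact key 3 3 1 w7 (by norm_num) (by norm_num) (by omega) (by omega) (by omega)
        (by omega) (by omega) (by omega)
    | exact key 8 12 8 w8 (by norm_num) (by norm_num) (by omega) (by omega) (by omega)
        (by omega) (by omega) (by omega)
    | exact key 33 32 33 w9 (by norm_num) (by norm_num) (by omega) (by omega) (by omega)
        (by omega) (by omega) (by omega)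
    | exact key 28 27 27 w10 (by norm_num) (by norm_num) (by omega) (by omega) (by omega)
        (by omega) (by omega) (by omega)
    | exact key 9 27 27 w11 (by norm_num) (by norm_num) (by omega) (by omega) (by omega)
        (by omega) (by omega) (by omega)
    | exact key 27 27 27 w12 (by norm_num) (by norm_num) (by omega) (by omega) (by omega)
        (by omega) (by omega) (by omega)

theorem small_two (p : ℕ → ℕ) : ∃ f : ℕ[X], Rz f ∧ f.coeff 1 ≤ 5 ∧ 0 < f.coeff 2 ∧
    (∀ j, 2 < j → f.coeff j = 0) ∧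
    ∀ j k, 1 ≤ j → j ≤ 2 → 1 ≤ k → k ≤ 2 → (p j ≤ p k ↔ f.coeff j ≤ f.coeff k) := by
  have key : ∀ x y : ℕ, W3 x y 0 → x ≤ 5 → 0 < y → (p 1 ≤ p 2 ↔ x ≤ y) → (p 2 ≤ p 1 ↔ y ≤ x) →
      ∃ f : ℕ[X], Rz f ∧ f.coeff 1 ≤ 5 ∧ 0 < f.coeff 2 ∧
      (∀ j, 2 < j → f.coeff j = 0) ∧
      ∀ j k, 1 ≤ j → j ≤ 2 → 1 ≤ k → k ≤ 2 → (p j ≤ p k ↔ f.coeff j ≤ f.coeff k) := by
    rintro x y ⟨f, hf, h1, h2, h3, h4⟩ hx hy a1 a2
    refine ⟨f, hf, by omega, by omega, ?_, ?_⟩
    · intro j hj
      rcases (show 3 ≤ j by omega).eq_or_lt with rfl | h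
      · exact h3
      · exact h4 j h
    intro j k hj1 hj3 hk1 hk3
    interval_cases j <;> interval_cases k <;> simp only [h1, h2] <;>
      first
      | exact a1
      | exact a2
      | simp
  have w0 : W3 5 6 0 := W3_tr 2 3 0 0
  have w1 : W3 2 1 0 := W3_tr 1 1 0 0
  have w2 : W3 4 4 0 := W3_tr 2 2 0 0
  rcases lt_trichotomy (p 1) (p 2) with h12 | h12 | h12
  · exact key 5 6 w0 (by norm_num) (by norm_num) (by omega) (by omega)
  · exact key 4 4 w2 (by norm_num) (by norm_num) (by omega) (by omega)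
  · exact key 2 1 w1 (by norm_num) (by norm_num) (by omega) (by omega)

variable {V : Type}

/-- no independent 3-set and `i_1 < i_2` force at least five vertices -/
theorem low_two (G : SimpleGraph V) (S : Finset V) (h0 : ic G 3 S = 0)
    (hlt : ic G 1 S < ic G 2 S) : 5 ≤ ic G 1 S := by
  classical
  by_contra hcon
  push Not at hcon
  have hb := DD_le G 2 S h0
  have hD : DD G 2 S = (ic G 2 S : ℤ) - ic G 1 S := rfl
  have hc1 : ic G 1 S = S.card := by
    rw [ic, coeff_P, filter_true_of_mem, card_powersetCard, Nat.choose_one_right]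
    intro s hs
    rw [mem_powersetCard, card_eq_one] at hs
    obtain ⟨_, a, rfl⟩ := hs
    simp
  have hc2 : ic G 2 S ≤ S.card.choose 2 := by
    rw [← card_powersetCard, ic, coeff_P]
    exact card_filter_le _ _
  have hc3 : S.card.choose 2 ≤ Nat.choose 4 2 := Nat.choose_le_choose 2 (by omega)
  have h6 : Nat.choose 4 2 = 6 := by decide
  rw [h6] at hc3
  obtain ⟨a, ha⟩ : ∃ a, a = ic G 2 S := ⟨_, rfl⟩
  rw [← ha] at hb hD hc2 hlt
  have g1 := Gam_dim1 1 (by norm_num)
  have g2 := Gam_dim1 2 (by norm_num)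
  have h4 : T 2 4 = 4 := by decide
  have h5 : Dl 2 4 = 0 := by decide
  rcases Nat.lt_or_ge a 5 with h | h
  · have h3 := f1 1 a (by norm_num; omega)
    norm_num at h3
    omega
  · rcases (show a = 5 ∨ a = 6 by omega) with rfl | rfl
    · have h3 := Gam_cell 1 4 1 (by norm_num) (by decide)
      norm_num at h3 g1
      rw [h4, h5, g1] at h3
      norm_num at h3
      rw [h3] at hb
      omega
    · have h3 := Gam_cell 1 4 2 (by norm_num) (by decide)
      norm_num at h3 g2
      rw [h4, h5, g2] at h3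
      norm_num at h3
      rw [h3] at hb
      omega

/-- bounds for `minProd` -/
theorem minProd_gt (k : ℕ) : (k + 1) ^ (k + 1) < minProd (k + 2) := by
  classical
  obtain ⟨t, ht, hs, hT⟩ := minProd_mem k
  have ht1 : ∀ i, 1 ≤ t i := fun i => (ht i).1
  obtain ⟨F, hF⟩ : ∃ F : Fin (k + 1) → Finset (ℕ × ℕ),
      F = fun i : Fin (k + 1) => ({(i : ℕ)} : Finset ℕ) ×ˢ range (t i) := ⟨_, rfl⟩
  have hmem : ∀ (i : Fin (k + 1)) (x : ℕ × ℕ), x ∈ F i ↔ x.1 = i ∧ x.2 < t i := by
    intro i x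
    rw [hF]
    simp only [mem_product, mem_singleton, mem_range]
  have hP : P cl (univ.biUnion F) = bx t := by
    rw [P_multi cl F univ]
    · rw [bx]
      apply prod_congr rfl
      intro i _
      have : (F i).card = t i := by
        rw [hF]
        simp only [card_product, card_singleton, card_range, one_mul]
      rw [this]
    · intro i _ x hx y hy hxy
      rw [hmem] at hx hy
      exact ⟨hx.1.trans hy.1.symm, hxy⟩
    · intro i _ j _ hij
      rw [Finset.disjoint_left]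
      intro x hx hx'
      rw [hmem] at hx hx'
      exact hij (Fin.ext (hx.1.symm.trans hx'.1))
    · intro i _ j _ hij x hx y hy hadj
      rw [hmem] at hx hy
      exact hij (Fin.ext (hx.1.symm.trans (hadj.1.trans hy.1)))
  have hb := DD_le cl (k + 1) (univ.biUnion F) (by
    rw [ic, hP]; exact bx_zero t (k + 2) (by omega))
  have e1 : ic cl (k + 1) (univ.biUnion F) = minProd (k + 2) := by
    rw [ic, hP, bx_top, hT]
  have e2 : ic cl k (univ.biUnion F) = (bx t).coeff k := by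
    rw [ic, hP]
  have e3 : DD cl (k + 1) (univ.biUnion F) =
    (ic cl (k + 1) (univ.biUnion F) : ℤ) - ic cl k (univ.biUnion F) := rfl
  rw [e3, e1, e2] at hb
  have hTq : (∏ i, (t i : ℚ)) = minProd (k + 2) := by rw [hT]; push_cast; rfl
  have hTpos : (0 : ℚ) < minProd (k + 2) := by
    rw [← hTq]; exact prod_pos (fun i _ => by exact_mod_cast ht1 i)
  have hlt : (bx t).coeff k < minProd (k + 2) := by
    have h1 : ((bx t).coeff k : ℚ) < minProd (k + 2) := by
      rw [bx_next t ht1, hTq]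
      have := mul_lt_mul_of_pos_left hs hTpos
      linarith
    exact_mod_cast h1
  by_contra hcon
  push Not at hcon
  have h2 := f1 k (minProd (k + 2)) (by rw [mul_comm, ← pow_succ]; exact hcon)
  omega

end Pool.H87.NM
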