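import Pool.Agent.Helper87.NM.Graph2
import Pool.Agent.Helper87.NM.Num4

/-! Degree bounds in the graph `S' = S - z`. -/

open Finset

namespace Pool.H87.NM

variable {V : Type}

theorem poly1 (k : ℤ) (hk : 2 ≤ k) : 0 ≤ 2 * (k + 2) * (k + 3) - (k + 4) := by
  nlinarith

theorem poly2 (k : ℤ) (hk : 2 ≤ k) : 0 ≤ (k + 2) * (k + 3) * (k + 1) -
    (2 * (k + 2) * (k + 3) - (k + 4)) - (k + 2) * k := by
  obtain ⟨j, hj⟩ : ∃ j, j = k - 2 := ⟨_, rfl⟩
  have hk' : k = j + 2 := by linarith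
  have hj0 : 0 ≤ j := by linarith
  subst hk'
  have : (j + 2 + 2) * (j + 2 + 3) * (j + 2 + 1) -
    (2 * (j + 2 + 2) * (j + 2 + 3) - (j + 2 + 4)) - (j + 2 + 2) * (j + 2) =
    j ^ 3 + 9 * j ^ 2 + 24 * j + 18 := by ring
  rw [this]
  positivity

/-- no vertex has too large degree -/
theorem xmax (k R : ℕ) (hk : 1 ≤ k) (hR : R = (k + 2) ^ k) (G : SimpleGraph V) (S' : Finset V)
    (h0 : ic G (k + 3) S' = 0) (u g : ℤ)
    (ha : (ic G (k + 2) S' : ℤ) = (k + 2) ^ 2 * R - u)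
    (hD : 1 - g ≤ DD G (k + 2) S')
    (hNX : ((k : ℤ) + 2) * (k + 3) * (g - 1) < (k + 2) * R + (k + 4) * u)
    (hu : -(R : ℤ) ≤ u) :
    ∀ v ∈ S', ic G (k + 1) (link G S' v) ≤ (k + 3) * R := by
  classical
  intro v₀ hv₀
  obtain ⟨v, hv, hmax⟩ := S'.exists_max_image (fun w => ic G (k + 1) (link G S' w)) ⟨v₀, hv₀⟩
  refine (hmax v₀ hv₀).trans ?_
  by_contra hcon
  push Not at hcon
  obtain ⟨X, hX⟩ : ∃ X, X = ic G (k + 1) (link G S' v) := ⟨_, rfl⟩
  obtain ⟨U, c, h1, h2, h3, h4, h5⟩ := slice G (k + 1) (DD_le G (k + 1)) S' h0 v hv hmax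
  rw [← hX] at hcon h2 h3 h5
  have hRpos : (0 : ℤ) < R := by
    have : 0 < R := by rw [hR]; exact Nat.pow_pos (by omega)
    exact_mod_cast this
  have h6 : ∀ w ∈ U, ((k : ℤ) + 2) * (k + 3) * R * Gam (k + 1) (c w) ≤ c w * (X + R) := by
    intro w hw
    have := f7 k (c w) X hk (h3 w hw) (by rw [← hR]; exact hcon.le)
    have hRZ : ((k : ℤ) + 2) ^ k = R := by rw [hR]; push_cast; ring
    rw [hRZ] at this
    exact this
  have h7 := sum_le_sum h6
  rw [← mul_sum, ← sum_mul] at h7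
  have h8 : (∑ w ∈ U, (c w : ℤ)) = (k + 2) ^ 2 * R - u := by
    rw [← ha, h4]; push_cast; rfl
  rw [h8] at h7
  obtain ⟨D, hDdef⟩ : ∃ D, D = DD G (k + 2) S' := ⟨_, rfl⟩
  change DD G (k + 2) S' ≤ _ at h5
  rw [← hDdef] at hD h5
  have hpos : (0 : ℤ) ≤ ((k : ℤ) + 2) * (k + 3) * R := by positivity
  have h9 := mul_le_mul_of_nonneg_left h5 hpos
  have hXR : ((k : ℤ) + 3) * R < X := by exact_mod_cast hcon
  have h10 : (0 : ℤ) ≤ ((X : ℤ) - (k + 3) * R) * ((k + 2) * R + u) := by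
    have h10' : (0 : ℤ) ≤ ((k : ℤ) + 1) * R := by positivity
    apply mul_nonneg (by linarith)
    linarith
  have h11 : (R : ℤ) * (((k : ℤ) + 2) * (k + 3) * D) ≤ R * (-((k + 2) * R + (k + 4) * u)) := by
    linarith
  have h12 := le_of_mul_le_mul_left h11 hRpos
  have h13 : ((k : ℤ) + 2) * (k + 3) * (1 - g) ≤ ((k : ℤ) + 2) * (k + 3) * D :=
    mul_le_mul_of_nonneg_left hD (by positivity)
  linarith

theorem link_erase_adj (G : SimpleGraph V) [DecidableEq V] (S : Finset V) (z v : V)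
    (hvz : G.Adj v z) : link G (S.erase z) v = link G S v := by
  ext x
  rw [mem_link, mem_link, mem_erase]
  constructor
  · rintro ⟨⟨_, h1⟩, h2, h3⟩
    exact ⟨h1, h2, h3⟩
  · rintro ⟨h1, h2, h3⟩
    refine ⟨⟨?_, h1⟩, h2, h3⟩
    rintro rfl
    exact h3 hvz

theorem link_erase_nadj (G : SimpleGraph V) [DecidableEq V] (S : Finset V) (z v : V) (hz : z ∈ S)
    (hne : z ≠ v) (hvz : ¬ G.Adj v z) : link G S v = insert z (link G (S.erase z) v) := by
  ext x
  rw [mem_insert, mem_link, mem_link, mem_erase]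
  constructor
  · rintro ⟨h1, h2, h3⟩
    by_cases h : x = z
    · exact Or.inl h
    · exact Or.inr ⟨⟨h, h1⟩, h2, h3⟩
  · rintro (rfl | ⟨⟨_, h1⟩, h2, h3⟩)
    · exact ⟨hz, hne, hvz⟩
    · exact ⟨h1, h2, h3⟩

/-- the alternative for a vertex `v` of `S'` -/
theorem alt (k q : ℕ) (G : SimpleGraph V) [DecidableEq V] (S : Finset V) (z v : V) (hz : z ∈ S)
    (hne : z ≠ v) (hdeg : q < ic G (k + 1) (link G S v)) :
    (q : ℤ) < ic G (k + 1) (link G (S.erase z) v) ∨
    DD G (k + 1) (link G (S.erase z) v) ≤ 2 * ic G (k + 1) (link G (S.erase z) v) - q - 1 := by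
  by_cases h : G.Adj v z
  · left
    rw [link_erase_adj G S z v h]
    exact_mod_cast hdeg
  · right
    classical
    have hzn : z ∉ link G (S.erase z) v := by
      rw [mem_link]
      rintro ⟨h1, _⟩
      exact notMem_erase z S h1
    have h1 := ic_insert G (link G (S.erase z) v) z hzn k
    have h2 := link_erase_nadj G S z v hz hne h
    have h3 : ic G (k + 1) (link G S v) = ic G (k + 1) (link G (S.erase z) v) +
        ic G k ((link G (S.erase z) v).filter (fun w => ¬ G.Adj z w)) := by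
      rw [← h1, h2]
    have h4 := ic_mono G (filter_subset (fun w => ¬ G.Adj z w) (link G (S.erase z) v)) k
    have h5 : DD G (k + 1) (link G (S.erase z) v) =
      (ic G (k + 1) (link G (S.erase z) v) : ℤ) - ic G k (link G (S.erase z) v) := rfl
    omega

/-- every vertex of `S'` has large degree -/
theorem xmin (k R p : ℕ) (hk : 2 ≤ k) (hR : R = (k + 2) ^ k) (hp : p = (k + 1) ^ k)
    (G : SimpleGraph V) [DecidableEq V] (S : Finset V) (z : V) (hz : z ∈ S)
    (h0 : ic G (k + 3) S = 0) (hdeg : ∀ v ∈ S, (k + 1) * p < ic G (k + 1) (link G S v))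
    (u g : ℤ) (ha : (ic G (k + 2) (S.erase z) : ℤ) = (k + 2) ^ 2 * R - u)
    (hD : 1 - g ≤ DD G (k + 2) (S.erase z))
    (hNX : ((k : ℤ) + 2) * (k + 3) * (g - 1) < (k + 2) * R + (k + 4) * u)
    (hu : -(p : ℤ) < u) (huR : u < R) :
    ∀ v ∈ S.erase z, (k + 1) * R < ic G (k + 1) (link G (S.erase z) v) := by
  intro v hv
  have hvS : v ∈ S := mem_of_mem_erase hv
  have hne : z ≠ v := (ne_of_mem_erase hv).symm
  by_contra hcon
  push Not at hcon
  have h0' : ic G (k + 3) (S.erase z) = 0 := by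
    have := ic_mono G (erase_subset z S) (k + 3)
    omega
  have halt := alt k ((k + 1) * p) G S z v hz hne (hdeg v hvS)
  obtain ⟨x, hx⟩ : ∃ x, x = ic G (k + 1) (link G (S.erase z) v) := ⟨_, rfl⟩
  obtain ⟨γ, hγ⟩ : ∃ γ, γ = DD G (k + 1) (link G (S.erase z) v) := ⟨_, rfl⟩
  have hγ1 : γ ≤ Gam (k + 1) x := by
    rw [hγ, hx]
    exact DD_le G (k + 1) _ (link_zero G _ v hv (k + 2) h0')
  have h1 := ic_erase G (S.erase z) v hv (k + 1)
  have h2 : DD G (k + 2) (S.erase z) = DD G (k + 2) ((S.erase z).erase v) + γ := by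
    rw [hγ]; exact DD_erase G (S.erase z) v hv (k + 1)
  have h0'' : ic G (k + 3) ((S.erase z).erase v) = 0 := by
    have := ic_mono G (erase_subset v (S.erase z)) (k + 3)
    omega
  have h3 := DD_le G (k + 2) ((S.erase z).erase v) h0''
  rw [← hx] at hcon halt h1
  rw [← hγ] at halt
  obtain ⟨a, haa⟩ : ∃ a, a = ic G (k + 2) (S.erase z) := ⟨_, rfl⟩
  obtain ⟨a₂, ha₂⟩ : ∃ a₂, a₂ = ic G (k + 2) ((S.erase z).erase v) := ⟨_, rfl⟩
  change ic G (k + 2) (S.erase z) = ic G (k + 2) ((S.erase z).erase v) + x at h1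
  rw [← haa, ← ha₂] at h1
  rw [← haa] at ha
  rw [← ha₂] at h3
  obtain ⟨D, hDd⟩ : ∃ D, D = DD G (k + 2) (S.erase z) := ⟨_, rfl⟩
  rw [← hDd] at hD h2
  obtain ⟨h1p, hpR⟩ := r1 k
  have hr2 := r2 k hk
  have hr3 := r3 k (by omega)
  have hf1 := f1 k
  have hf2 := f2 k
  have hf3 := f3 k
  have hf4 := f4 k
  have hf5 := f5 k
  rw [← hp, ← hR] at hpR hr2 hr3
  rw [← hp] at h1p hf1
  have hRZ : ((k : ℤ) + 2) ^ k = R := by rw [hR]; push_cast; ring
  rw [← hR] at hf2 hf4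
  rw [← hR, hRZ] at hf3 hf5
  have hkz : (2 : ℤ) ≤ k := by exact_mod_cast hk
  have hpz : (1 : ℤ) ≤ p := by exact_mod_cast h1p
  have hpRz : (p : ℤ) ≤ R := by exact_mod_cast hpR
  have hr2z : (R : ℤ) ≤ k * p := by exact_mod_cast hr2
  have ha2z : (a₂ : ℤ) = (k + 2) ^ 2 * R - u - x := by
    have : (a : ℤ) = a₂ + x := by exact_mod_cast h1
    linarith
  have hDle : D ≤ Gam (k + 2) a₂ + γ := by linarith
  have hxz : (x : ℤ) ≤ (k + 1) * R := by exact_mod_cast hcon
  have hx0 : (0 : ℤ) ≤ x := Int.natCast_nonneg x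
  rcases le_or_gt ((R : ℤ) - u) x with hA | hA
  · -- case A
    obtain ⟨w, hw⟩ : ∃ w : ℕ, (w : ℤ) = (k + 2) * R - u - x := by
      refine ⟨((k + 2) * R - u - x : ℤ).toNat, Int.toNat_of_nonneg ?_⟩
      linarith
    have e1 : a₂ = (k + 1) * ((k + 2) * R) + w := by
      have : (a₂ : ℤ) = (k + 1) * ((k + 2) * R) + w := by rw [ha2z, hw]; ring
      exact_mod_cast this
    have hw1 : w ≤ (k + 1) * R := by
      have : (w : ℤ) ≤ (k + 1) * R := by rw [hw]; linarith
      exact_mod_cast this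
    have hw2 : w ≤ (k + 2) * R := by
      refine hw1.trans (Nat.mul_le_mul_right _ (by omega))
    have h4 := hf5 w hw2
    rw [← e1] at h4
    have h5 := hf2 w hw1
    have h6 := hf2 x hcon
    have h7 : ((k : ℤ) + 2) * (k + 1) * D ≤ k * (w + x) - (k + 2) * (k + 1) * R := by
      have h8 : ((k : ℤ) + 2) * (k + 1) * D ≤
          (k + 2) * (k + 1) * (Gam (k + 1) w - R + Gam (k + 1) x) :=
        mul_le_mul_of_nonneg_left (by linarith) (by positivity)
      linarith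
    have h8 : (w : ℤ) + x = (k + 2) * R - u := by linarith
    rw [h8] at h7
    have h9 : ((k : ℤ) + 2) * (k + 1) * (1 - g) ≤ (k + 2) * (k + 1) * D :=
      mul_le_mul_of_nonneg_left hD (by positivity)
    have h10 : ((k : ℤ) + 2) * R + k * u ≤ (k + 2) * (k + 1) * (g - 1) := by linarith
    have h11 := mul_le_mul_of_nonneg_left h10 (show (0 : ℤ) ≤ (k : ℤ) + 3 by positivity)
    have h12 := mul_lt_mul_of_pos_left hNX (show (0 : ℤ) < (k : ℤ) + 1 by positivity)
    have h13 : (0 : ℤ) ≤ (2 * (k + 2)) * (R - u) := mul_nonneg (by positivity) (by linarith)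
    linarith
  · -- x < R - u
    have hRp : (R : ℤ) + p ≤ (k + 1) * p := by linarith
    have hxq : x ≤ (k + 1) * p := by
      have : (x : ℤ) ≤ (k + 1) * p := by linarith
      exact_mod_cast this
    have hγ2 : γ ≤ 2 * x - (k + 1) * p - 1 := by
      rcases halt with h | h
      · exfalso
        have : (x : ℤ) ≤ ((k + 1) * p : ℕ) := by exact_mod_cast hxq
        linarith
      · push_cast at h; exact h
    have hγ0 : γ ≤ 0 := hγ1.trans (hf1 x hxq)
    rcases le_or_gt (-u) (x : ℤ) with hB | hC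
    · -- case B
      obtain ⟨w, hw⟩ : ∃ w : ℕ, (w : ℤ) = (k + 2) * R - u - x := by
        refine ⟨((k + 2) * R - u - x : ℤ).toNat, Int.toNat_of_nonneg ?_⟩
        linarith
      have e1 : a₂ = (k + 1) * ((k + 2) * R) + w := by
        have : (a₂ : ℤ) = (k + 1) * ((k + 2) * R) + w := by rw [ha2z, hw]; ring
        exact_mod_cast this
      have hw1 : (k + 1) * R ≤ w := by
        have : ((k : ℤ) + 1) * R ≤ w := by rw [hw]; linarith
        exact_mod_cast this
      have hw2 : w ≤ (k + 2) * R := by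
        have : (w : ℤ) ≤ (k + 2) * R := by rw [hw]; linarith
        exact_mod_cast this
      have h4 := hf5 w hw2
      rw [← e1] at h4
      have h5 := hf3 w hw1 (hw2.trans (Nat.mul_le_mul_right _ (by omega)))
      have h6 : ((k : ℤ) + 2) * D ≤ (k + 2) * γ + (2 * w - (k + 2) * R) - (k + 2) * R := by
        have h8 : ((k : ℤ) + 2) * D ≤ (k + 2) * (Gam (k + 1) w - R + γ) :=
          mul_le_mul_of_nonneg_left (by linarith) (by positivity)
        linarith
      have h7 : ((k : ℤ) + 2) * γ ≤ 2 * x - (k + 1) * p - 1 := by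
        have : ((k : ℤ) + 1) * γ ≤ 0 := mul_nonpos_of_nonneg_of_nonpos (by positivity) hγ0
        linarith
      have h8 : ((k : ℤ) + 2) * D ≤ -((k + 1) * p) - 1 - 2 * u := by
        rw [hw] at h6; linarith
      have h9 : ((k : ℤ) + 2) * (1 - g) ≤ (k + 2) * D :=
        mul_le_mul_of_nonneg_left hD (by positivity)
      have h10 : ((k : ℤ) + 1) * p + 1 + 2 * u ≤ (k + 2) * (g - 1) := by linarith
      have h11 := mul_le_mul_of_nonneg_left h10 (show (0 : ℤ) ≤ (k : ℤ) + 3 by positivity)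
      have h12 : ((k : ℤ) + 2) * R ≤ (k + 2) * (k * p) :=
        mul_le_mul_of_nonneg_left hr2z (by positivity)
      have h13 : (0 : ℤ) ≤ (k + 2) * (u + p) := mul_nonneg (by positivity) (by linarith)
      linarith
    · -- case C
      obtain ⟨w, hw⟩ : ∃ w : ℕ, (w : ℤ) = -u - x := by
        refine ⟨(-u - x : ℤ).toNat, Int.toNat_of_nonneg ?_⟩
        linarith
      have e1 : a₂ = (k + 2) * ((k + 2) * R) + w := by
        have : (a₂ : ℤ) = (k + 2) * ((k + 2) * R) + w := by rw [ha2z, hw]; ring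
        exact_mod_cast this
      have hw1 : w ≤ p := by
        have : (w : ℤ) ≤ p := by rw [hw]; linarith
        exact_mod_cast this
      have h4 := hf4 w (hw1.trans (hpR.trans (Nat.le_mul_of_pos_left _ (by omega))))
      rw [← e1] at h4
      have h5 := hf1 w (hw1.trans (Nat.le_mul_of_pos_left _ (by omega)))
      have h6 : D ≤ 2 * x - (k + 1) * p - 1 := by linarith
      have h7 : ((k : ℤ) + 1) * p + 1 - 2 * x ≤ g - 1 := by linarith
      have h8 : ((k : ℤ) + 1) * p + 3 + 2 * u ≤ g - 1 := by linarith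
      have h9 := mul_le_mul_of_nonneg_left h8 (show (0 : ℤ) ≤ ((k : ℤ) + 2) * (k + 3) by positivity)
      have h12 : ((k : ℤ) + 2) * R ≤ (k + 2) * (k * p) :=
        mul_le_mul_of_nonneg_left hr2z (by positivity)
      have h13 : (0 : ℤ) ≤ (2 * ((k : ℤ) + 2) * (k + 3) - (k + 4)) * (u + p) := by
        apply mul_nonneg
        · exact poly1 k hkz
        · linarith
      have h14 : (0 : ℤ) ≤ (((k : ℤ) + 2) * (k + 3) * (k + 1) - (2 * (k + 2) * (k + 3) - (k + 4)) -
          (k + 2) * k) * p := by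
        apply mul_nonneg _ (by positivity)
        exact poly2 k hkz
      have h15 : (0 : ℤ) ≤ (k : ℤ) ^ 2 := by positivity
      linarith

/-- the number of vertices of `S'` -/
theorem card_le (k R : ℕ) (hR : R = (k + 2) ^ k) (G : SimpleGraph V) (S' : Finset V)
    (h0 : ic G (k + 3) S' = 0) (u g : ℤ)
    (ha : (ic G (k + 2) S' : ℤ) = (k + 2) ^ 2 * R - u)
    (hD : 1 - g ≤ DD G (k + 2) S')
    (hNX : ((k : ℤ) + 2) * (k + 3) * (g - 1) < (k + 2) * R + (k + 4) * u)
    (hu : -(R : ℤ) ≤ u)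
    (hlo : ∀ v ∈ S', (k + 1) * R < ic G (k + 1) (link G S' v))
    (hhi : ∀ v ∈ S', ic G (k + 1) (link G S' v) ≤ (k + 3) * R) :
    S'.card ≤ (k + 2) ^ 2 := by
  classical
  have hRpos : (0 : ℤ) < R := by
    have : 0 < R := by rw [hR]; exact Nat.pow_pos (by omega)
    exact_mod_cast this
  have h1 : ∀ v ∈ S', (k : ℤ) * ic G (k + 1) (link G S' v) + (k + 2) * R ≤
      (k + 2) * ic G k (link G S' v) := by
    intro v hv
    have h2 := DD_le G (k + 1) (link G S' v) (link_zero G _ v hv (k + 2) h0)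
    have h3 := f3 k (ic G (k + 1) (link G S' v)) (by rw [← hR]; exact (hlo v hv).le)
      (by rw [← hR]; exact hhi v hv)
    have hRZ : ((k : ℤ) + 2) ^ k = R := by rw [hR]; push_cast; ring
    rw [hRZ] at h3
    have h4 : DD G (k + 1) (link G S' v) =
      (ic G (k + 1) (link G S' v) : ℤ) - ic G k (link G S' v) := rfl
    rw [h4] at h2
    have h5 := mul_le_mul_of_nonneg_left h2 (show (0 : ℤ) ≤ (k : ℤ) + 2 by positivity)
    linarith
  have h2 := sum_le_sum h1
  rw [sum_add_distrib, ← mul_sum, ← mul_sum, sum_const, nsmul_eq_mul] at h2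
  have h3 := handshake G (k + 1) S'
  have h4 := handshake G k S'
  have h3' : (∑ v ∈ S', (ic G (k + 1) (link G S' v) : ℤ)) = (k + 2) * ic G (k + 2) S' := by
    have : ((∑ v ∈ S', ic G (k + 1) (link G S' v) : ℕ) : ℤ) =
      (((k + 1 + 1) * ic G (k + 1 + 1) S' : ℕ) : ℤ) := by rw [h3]
    push_cast at this
    rw [this]
    ring
  have h4' : (∑ v ∈ S', (ic G k (link G S' v) : ℤ)) = (k + 1) * ic G (k + 1) S' := by
    have : ((∑ v ∈ S', ic G k (link G S' v) : ℕ) : ℤ) =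
      (((k + 1) * ic G (k + 1) S' : ℕ) : ℤ) := by rw [h4]
    push_cast at this
    exact this
  rw [← mul_sum, h3', h4'] at h2
  have h5 : DD G (k + 2) S' = (ic G (k + 2) S' : ℤ) - ic G (k + 1) S' := rfl
  rw [h5, ha] at hD
  rw [ha] at h2
  by_contra hcon
  push Not at hcon
  have hcon' : ((k : ℤ) + 2) ^ 2 + 1 ≤ S'.card := by exact_mod_cast hcon
  have h6 : (((k : ℤ) + 2) ^ 2 + 1) * R ≤ S'.card * R := mul_le_mul_of_nonneg_right hcon' hRpos.le
  obtain ⟨n, hn⟩ : ∃ n : ℤ, n = (S'.card : ℤ) * R := ⟨_, rfl⟩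
  obtain ⟨B, hB⟩ : ∃ B : ℤ, B = (ic G (k + 1) S' : ℤ) := ⟨_, rfl⟩
  rw [← hn] at h6
  have h2' : ((k : ℤ) + 2) * (k * ((k + 2) ^ 2 * R - u) + n) ≤ (k + 2) * ((k + 1) * B) := by
    rw [hn, hB]; linarith
  have h7 := le_of_mul_le_mul_left h2' (by positivity)
  rw [← hB] at hD
  have h8 := mul_le_mul_of_nonneg_left hD (show (0 : ℤ) ≤ (k : ℤ) + 1 by positivity)
  -- R + u ≤ (k+1)(g-1)
  have h9 : (R : ℤ) + u ≤ (k + 1) * (g - 1) := by linarith
  have h10 := mul_le_mul_of_nonneg_left h9 (show (0 : ℤ) ≤ ((k : ℤ) + 2) * (k + 3) by positivity)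
  have h11 := mul_lt_mul_of_pos_left hNX (show (0 : ℤ) < (k : ℤ) + 1 by positivity)
  have h12 : (0 : ℤ) ≤ (k : ℤ) * R := by positivity
  linarith

end Pool.H87.NM
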