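import Pool.Agent.Helper87.NM.Struct1
import Pool.Agent.Helper87.NM.Multi

/-! The structure of `S' = S - z`: it is a disjoint union of `m` cliques of size `m`. -/

open Finset Polynomial

namespace Pool.H87.NM

open Pool.H78.ND

variable {V : Type}

theorem amhm {ι : Type} [DecidableEq ι] (I : Finset ι) (s : ι → ℕ) (m : ℕ) (hm : 3 ≤ m)
    (hI : I.card = m) (h1 : ∀ x ∈ I, 1 ≤ s x) (h2 : ∑ x ∈ I, s x ≤ m ^ 2)
    (h3 : ∑ x ∈ I, (1 : ℚ) / s x < 1 + 2 / (m * ((m : ℚ) ^ 2 - 1))) : ∀ x ∈ I, s x = m := by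
  by_contra hcon
  push Not at hcon
  obtain ⟨x₀, hx₀, hne⟩ := hcon
  have hm0 : (3 : ℚ) ≤ m := by exact_mod_cast hm
  have hmpos : (0 : ℚ) < m := by linarith
  obtain ⟨e, he⟩ : ∃ e : ι → ℚ, e = fun x => ((s x : ℚ) - m) ^ 2 / ((m : ℚ) ^ 2 * s x) := ⟨_, rfl⟩
  have hs : ∀ x ∈ I, (0 : ℚ) < s x := by
    intro x hx
    have := h1 x hx
    exact_mod_cast this
  have he0 : ∀ x ∈ I, 0 ≤ e x := by
    intro x hx
    have := hs x hx
    rw [he]
    positivity
  have h4 : ∀ x ∈ I, (1 : ℚ) / s x = 2 / m - (s x : ℚ) / m ^ 2 + e x := by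
    intro x hx
    have := hs x hx
    rw [he]
    field_simp
    ring
  rw [sum_congr rfl h4, sum_add_distrib, sum_sub_distrib, sum_const, hI, ← sum_div,
    nsmul_eq_mul] at h3
  obtain ⟨sg, hsg⟩ : ∃ q : ℕ, q = ∑ x ∈ I, s x := ⟨_, rfl⟩
  have h5 : (∑ x ∈ I, (s x : ℚ)) = sg := by rw [hsg]; push_cast; rfl
  rw [h5] at h3
  rw [← hsg] at h2
  have h6 : (m : ℚ) * (2 / m) = 2 := by field_simp
  rw [h6] at h3
  have hm21 : (0 : ℚ) < (m : ℚ) ^ 2 - 1 := by nlinarith
  rcases h2.lt_or_eq with hlt | heq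
  · have h7 : (sg : ℚ) ≤ (m : ℚ) ^ 2 - 1 := by
      have : (sg + 1 : ℕ) ≤ m ^ 2 := hlt
      have h8 : ((sg + 1 : ℕ) : ℚ) ≤ ((m ^ 2 : ℕ) : ℚ) := by exact_mod_cast this
      push_cast at h8
      linarith
    have h8 : (sg : ℚ) / m ^ 2 ≤ 1 - 1 / m ^ 2 := by
      rw [div_le_iff₀ (by positivity)]
      field_simp
      linarith
    have h9 : 2 / (m * ((m : ℚ) ^ 2 - 1)) ≤ 1 / m ^ 2 := by
      rw [div_le_div_iff₀ (by positivity) (by positivity)]
      nlinarith
    have h10 : 0 ≤ ∑ x ∈ I, e x := sum_nonneg he0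
    linarith
  · have h7 : (sg : ℚ) / m ^ 2 = 1 := by
      rw [heq]
      push_cast
      field_simp
    rw [h7] at h3
    -- two exceptional elements
    obtain ⟨x₁, hx₁, hs1, x₂, hx₂, hs2⟩ : ∃ x₁ ∈ I, s x₁ < m ∧ ∃ x₂ ∈ I, m < s x₂ := by
      rcases Nat.lt_or_gt_of_ne hne with h | h
      · refine ⟨x₀, hx₀, h, ?_⟩
        by_contra hc
        push Not at hc
        have : ∑ x ∈ I, s x < ∑ _x ∈ I, m := sum_lt_sum hc ⟨x₀, hx₀, h⟩
        rw [sum_const, hI, smul_eq_mul, ← hsg, heq, pow_two] at this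
        omega
      · have : ∃ x₁ ∈ I, s x₁ < m := by
          by_contra hc
          push Not at hc
          have : ∑ _x ∈ I, m < ∑ x ∈ I, s x := sum_lt_sum hc ⟨x₀, hx₀, h⟩
          rw [sum_const, hI, smul_eq_mul, ← hsg, heq, pow_two] at this
          omega
        obtain ⟨x₁, hx₁, h'⟩ := this
        exact ⟨x₁, hx₁, h', x₀, hx₀, h⟩
    have hne12 : x₁ ≠ x₂ := by
      rintro rfl
      omega
    have e1 : 1 / ((m : ℚ) ^ 2 * (m - 1)) ≤ e x₁ := by
      rw [he]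
      simp only
      have h8 := hs x₁ hx₁
      have h9 : (s x₁ : ℚ) ≤ m - 1 := by
        have : ((s x₁ + 1 : ℕ) : ℚ) ≤ m := by exact_mod_cast hs1
        push_cast at this
        linarith
      rw [div_le_div_iff₀ (by apply mul_pos <;> [positivity; linarith]) (by positivity)]
      have h10 : (1 : ℚ) ≤ ((s x₁ : ℚ) - m) ^ 2 := by nlinarith
      have h11 : (s x₁ : ℚ) ≤ ((s x₁ : ℚ) - m) ^ 2 * (m - 1) := by nlinarith
      have h12 := mul_le_mul_of_nonneg_left h11 (show (0 : ℚ) ≤ (m : ℚ) ^ 2 by positivity)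
      linarith
    have e2 : 1 / ((m : ℚ) ^ 2 * (m + 1)) ≤ e x₂ := by
      rw [he]
      simp only
      have h8 := hs x₂ hx₂
      obtain ⟨d, hd⟩ : ∃ d : ℚ, d = (s x₂ : ℚ) - m := ⟨_, rfl⟩
      have h9 : 1 ≤ d := by
        have : ((m + 1 : ℕ) : ℚ) ≤ s x₂ := by exact_mod_cast hs2
        push_cast at this
        rw [hd]; linarith
      rw [div_le_div_iff₀ (by positivity) (by positivity), ← hd]
      have h10 : (s x₂ : ℚ) = m + d := by rw [hd]; ring
      rw [h10]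
      have h11 : (m : ℚ) + d ≤ d ^ 2 * (m + 1) := by
        have h13 : (1 : ℚ) ≤ d ^ 2 := by nlinarith
        have h14 : d ≤ d ^ 2 := by nlinarith
        nlinarith
      have h12 := mul_le_mul_of_nonneg_left h11 (show (0 : ℚ) ≤ (m : ℚ) ^ 2 by positivity)
      linarith
    have h8 : e x₁ + e x₂ ≤ ∑ x ∈ I, e x := by
      rw [← sum_pair hne12]
      apply sum_le_sum_of_subset_of_nonneg
      · intro x hx
        rw [mem_insert, mem_singleton] at hx
        rcases hx with rfl | rfl <;> assumption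
      · intro x hx _
        exact he0 x hx
    have h9 : 1 / ((m : ℚ) ^ 2 * (m - 1)) + 1 / ((m : ℚ) ^ 2 * (m + 1)) =
        2 / (m * ((m : ℚ) ^ 2 - 1)) := by
      have h10 : (m : ℚ) - 1 ≠ 0 := by
        have : (0 : ℚ) < (m : ℚ) - 1 := by linarith
        exact this.ne'
      have h11 : (m : ℚ) + 1 ≠ 0 := by positivity
      have h12 : (m : ℚ) ^ 2 - 1 = (m - 1) * (m + 1) := by ring
      rw [h12]
      field_simp
      ring
    linarith

theorem ext_self [DecidableEq V] (G : SimpleGraph V) (j : ℕ) (S' I : Finset V)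
    (hI : I ∈ IS G j S') (x : V) (hx : x ∈ I) : x ∈ ext G S' (I.erase x) := by
  rw [mem_IS] at hI
  rw [mem_ext]
  refine ⟨hI.1 hx, notMem_erase _ _, ?_⟩
  rw [insert_erase hx]
  exact hI.2.2

theorem ext_disjoint [DecidableEq V] (G : SimpleGraph V) (j : ℕ) (S' I : Finset V)
    (hI : I ∈ IS G j S') (h0 : ic G (j + 1) S' = 0) (x y : V) (hx : x ∈ I)
    (hxy : x ≠ y) : Disjoint (ext G S' (I.erase x)) (ext G S' (I.erase y)) := by
  rw [Finset.disjoint_left]
  intro w hw hw'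
  rw [mem_IS] at hI
  rw [mem_ext] at hw hw'
  obtain ⟨w1, w2, w3⟩ := hw
  obtain ⟨_, w5, w6⟩ := hw'
  have hwI : w ∉ I := by
    intro h
    rw [mem_erase] at w2 w5
    have h1 : w = x := by
      by_contra h'
      exact w2 ⟨h', h⟩
    have h2 : w = y := by
      by_contra h'
      exact w5 ⟨h', h⟩
    exact hxy (h1.symm.trans h2)
  have h1 := (indep_insert G w _ w2).1 w3
  have h2 := (indep_insert G w _ w5).1 w6
  have h3 : G.IsIndepSet ((insert w I : Finset V) : Set V) := by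
    rw [indep_insert G w I hwI]
    refine ⟨hI.2.2, ?_⟩
    intro v hv
    by_cases h : v = x
    · subst h
      exact h2.2 v (mem_erase.2 ⟨hxy, hv⟩)
    · exact h1.2 v (mem_erase.2 ⟨h, hv⟩)
  have h4 : insert w I ∈ IS G (j + 1) S' := by
    rw [mem_IS]
    exact ⟨insert_subset w1 hI.1, by rw [card_insert_of_notMem hwI, hI.2.1], h3⟩
  have h5 : (IS G (j + 1) S').card = 0 := by rw [card_IS, h0]
  rw [card_eq_zero] at h5
  rw [h5] at h4
  exact absurd h4 (notMem_empty _)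

theorem find_clique [DecidableEq V] (k : ℕ) (hk : 1 ≤ k) (G : SimpleGraph V) (S' : Finset V)
    (h0 : ic G (k + 3) S' = 0) (hcard : S'.card ≤ (k + 2) ^ 2)
    (hratio : (ic G (k + 1) S' : ℚ) < (1 + 2 / (((k + 2 : ℕ) : ℚ) * (((k + 2 : ℕ) : ℚ) ^ 2 - 1))) *
      ic G (k + 2) S') :
    ∃ I ∈ IS G (k + 2) S', ∀ x ∈ I, (ext G S' (I.erase x)).card = k + 2 := by
  have h1 := dcount G (k + 1) S' (fun R => 1 / ((ext G S' R).card : ℚ))
  have h2 : ∑ R ∈ IS G (k + 1) S', ((ext G S' R).card : ℚ) * (1 / ((ext G S' R).card : ℚ)) ≤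
      ic G (k + 1) S' := by
    calc _ ≤ ∑ R ∈ IS G (k + 1) S', (1 : ℚ) := by
          apply sum_le_sum
          intro R _
          rw [mul_one_div]
          exact div_self_le_one _
      _ = ic G (k + 1) S' := by rw [sum_const, card_IS, nsmul_eq_mul, mul_one]
  rw [← h1] at h2
  obtain ⟨B, hB⟩ : ∃ B : ℚ, B = 1 + 2 / (((k + 2 : ℕ) : ℚ) * (((k + 2 : ℕ) : ℚ) ^ 2 - 1)) := ⟨_, rfl⟩
  rw [← hB] at hratio
  have h3 : ∑ I ∈ IS G (k + 1 + 1) S', ∑ x ∈ I, (1 / ((ext G S' (I.erase x)).card : ℚ)) <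
      ∑ _I ∈ IS G (k + 1 + 1) S', B := by
    rw [sum_const, card_IS, nsmul_eq_mul, mul_comm]
    exact lt_of_le_of_lt h2 hratio
  obtain ⟨I, hI, hlt⟩ := exists_lt_of_sum_lt h3
  refine ⟨I, hI, ?_⟩
  have hI' := (mem_IS G _ _ _).1 hI
  apply amhm I (fun x => (ext G S' (I.erase x)).card) (k + 2) (by omega) hI'.2.1
  · intro x hx
    exact card_pos.2 ⟨x, ext_self G _ S' I hI x hx⟩
  · rw [← card_biUnion]
    · refine le_trans (card_le_card ?_) hcard
      intro w hw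
      rw [mem_biUnion] at hw
      obtain ⟨x, _, hw⟩ := hw
      rw [mem_ext] at hw
      exact hw.1
    · intro x hx y hy hxy
      exact ext_disjoint G _ S' I hI h0 x y hx hxy
  · rw [← hB]
    exact hlt

/-- the structure of `S'` -/
theorem structure_S' [DecidableEq V] (k : ℕ) (hk : 1 ≤ k) (G : SimpleGraph V) (S' : Finset V)
    (h0 : ic G (k + 3) S' = 0) (hcard : S'.card ≤ (k + 2) ^ 2)
    (hratio : (ic G (k + 1) S' : ℚ) < (1 + 2 / (((k + 2 : ℕ) : ℚ) * (((k + 2 : ℕ) : ℚ) ^ 2 - 1))) *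
      ic G (k + 2) S')
    (hlo : ∀ v ∈ S', (k + 1) * (k + 2) ^ k < ic G (k + 1) (link G S' v)) :
    ∃ (I : Finset V) (F : V → Finset V), I.card = k + 2 ∧ (∀ x ∈ I, (F x).card = k + 2) ∧
      (∀ x ∈ I, Clq G (F x)) ∧
      (∀ x ∈ I, ∀ y ∈ I, x ≠ y → Disjoint (F x) (F y)) ∧
      (∀ x ∈ I, ∀ y ∈ I, x ≠ y → ∀ a ∈ F x, ∀ b ∈ F y, ¬ G.Adj a b) ∧ S' = I.biUnion F := by
  obtain ⟨I, hI, hc⟩ := find_clique k hk G S' h0 hcard hratio
  have hI' := (mem_IS G _ _ _).1 hI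
  obtain ⟨F, hF⟩ : ∃ F : V → Finset V, F = fun x => ext G S' (I.erase x) := ⟨_, rfl⟩
  have hFc : ∀ x ∈ I, (F x).card = k + 2 := by rw [hF]; exact hc
  have hFS : ∀ x, F x ⊆ S' := by
    intro x w hw
    rw [hF] at hw
    simp only at hw
    rw [mem_ext] at hw
    exact hw.1
  have hd : ∀ x ∈ I, ∀ y ∈ I, x ≠ y → Disjoint (F x) (F y) := by
    intro x hx y hy hxy
    rw [hF]
    exact ext_disjoint G _ S' I hI h0 x y hx hxy
  have hq : ∀ x ∈ I, Clq G (F x) := by
    intro x hx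
    rw [hF]
    apply ext_clique G (k + 1) S' (I.erase x) _ h0
    rw [mem_IS]
    refine ⟨(erase_subset _ _).trans hI'.1, ?_, indep_subset G (erase_subset _ _) hI'.2.2⟩
    rw [card_erase_of_mem hx, hI'.2.1]; rfl
  have hU : S' = I.biUnion F := by
    symm
    apply eq_of_subset_of_card_le
    · intro w hw
      rw [mem_biUnion] at hw
      obtain ⟨x, _, hw⟩ := hw
      exact hFS x hw
    · rw [card_biUnion hd, sum_congr rfl hFc, sum_const, hI'.2.1, smul_eq_mul, ← pow_two]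
      exact hcard
  refine ⟨I, F, hI'.2.1, hFc, hq, hd, ?_, hU⟩
  intro x hx y hy hxy a ha c hc' hadj
  -- the link of `a` is small
  have haS : a ∈ S' := hFS x ha
  have h1 := hlo a haS
  obtain ⟨F', hF'⟩ : ∃ F' : V → Finset V, F' = fun w => if w = y then (F y).erase c else F w :=
    ⟨_, rfl⟩
  have hyI : y ∈ I.erase x := mem_erase.2 ⟨hxy.symm, hy⟩
  have h2 := ic_cover G F' (I.erase x) (link G S' a) (by
    intro w hw
    rw [hF']
    simp only
    split_ifs with h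
    · exact (hq y hy).mono (erase_subset _ _)
    · exact hq w (mem_of_mem_erase hw)) (by
    intro w hw
    rw [mem_link] at hw
    obtain ⟨w1, w2, w3⟩ := hw
    rw [hU, mem_biUnion] at w1
    obtain ⟨i, hi, hwi⟩ := w1
    have hix : i ≠ x := by
      rintro rfl
      exact w3 (hq i hi a ha w hwi (Ne.symm w2))
    rw [mem_biUnion]
    refine ⟨i, mem_erase.2 ⟨hix, hi⟩, ?_⟩
    rw [hF']
    simp only
    split_ifs with h
    · rw [mem_erase]
      refine ⟨?_, h ▸ hwi⟩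
      rintro rfl
      exact w3 hadj
    · exact hwi)
  have hcard1 : (I.erase x).card = k + 1 := by
    rw [card_erase_of_mem hx, hI'.2.1]; rfl
  have h3 := h2.2
  rw [hcard1, ← mul_prod_erase _ _ hyI] at h3
  have e1 : (F' y).card = k + 1 := by
    rw [hF']
    simp only [if_true]
    rw [card_erase_of_mem hc', hFc y hy]; rfl
  have e2 : ∏ w ∈ (I.erase x).erase y, (F' w).card = (k + 2) ^ k := by
    have : ∀ w ∈ (I.erase x).erase y, (F' w).card = k + 2 := by
      intro w hw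
      rw [hF']
      simp only
      rw [if_neg (ne_of_mem_erase hw)]
      exact hFc w (mem_of_mem_erase (mem_of_mem_erase hw))
    rw [prod_congr rfl this, prod_const, card_erase_of_mem hyI, hcard1, Nat.add_sub_cancel]
  rw [e1, e2] at h3
  omega

end Pool.H87.NM
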