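import Pool.Agent.Helper87.NM.Low2
import Pool.Agent.Helper78.ND.Realize

/-! The upper bound for `m ≥ 4`: the base graph with the optimal box. -/

open Finset Polynomial

namespace Pool.H87.NM

open Pool.H78.ND

/-- the polynomial of a box -/
noncomputable def bx {n : ℕ} (t : Fin n → ℕ) : ℕ[X] := ∏ i, (1 + C (t i) * X)

theorem Rz_box (m : ℕ) {n : ℕ} (hn : n ≤ m) (t : Fin n → ℕ) (ht : ∀ i, t i ≤ m) :
    Rz ((1 + C m * X) ^ m + X * bx t) := by
  classical
  obtain ⟨F, hF⟩ : ∃ F : Fin n → Finset (ℕ × ℕ), F = fun i : Fin n => ({(i : ℕ)} : Finset ℕ) ×ˢ range (t i) := ⟨_, rfl⟩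
  have hmem : ∀ (i : Fin n) (x : ℕ × ℕ), x ∈ F i ↔ x.1 = i ∧ x.2 < t i := by
    intro i x
    rw [hF]
    simp only [mem_product, mem_singleton, mem_range]
  have hP : P cl (univ.biUnion F) = bx t := by
    rw [P_multi cl F univ]
    · rw [bx]
      apply prod_congr rfl
      intro i _
      have : (F i).card = t i := by
        rw [hF]
        simp only [card_product, card_singleton, card_range, one_mul]
      rw [this]
    · intro i _ x hx y hy hxy
      rw [hmem] at hx hy
      exact ⟨hx.1.trans hy.1.symm, hxy⟩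
    · intro i _ j _ hij
      rw [Finset.disjoint_left]
      intro x hx hx'
      rw [hmem] at hx hx'
      exact hij (Fin.ext (hx.1.symm.trans hx'.1))
    · intro i _ j _ hij x hx y hy hadj
      rw [hmem] at hx hy
      exact hij (Fin.ext (hx.1.symm.trans (hadj.1.trans hy.1)))
  refine ⟨_, _, _, (P_clv (univ.biUnion F) (range m ×ˢ range m) ?_).trans ?_⟩
  · intro x hx
    rw [mem_biUnion] at hx
    obtain ⟨i, _, hx⟩ := hx
    rw [hmem] at hx
    rw [mem_product, mem_range, mem_range]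
    have := ht i
    have := i.2
    omega
  · rw [P_cl_rect, hP]

theorem bx_top {n : ℕ} (t : Fin n → ℕ) : (bx t).coeff n = ∏ i, t i := by
  have := (coeff_prod_lin t univ).2.1
  rw [card_univ, Fintype.card_fin] at this
  exact this

theorem bx_zero {n : ℕ} (t : Fin n → ℕ) (j : ℕ) (hj : n < j) : (bx t).coeff j = 0 := by
  have := (coeff_prod_lin t univ).1 j
  rw [card_univ, Fintype.card_fin] at this
  exact this hj

theorem bx_next {n : ℕ} (t : Fin (n + 1) → ℕ) (ht : ∀ i, 1 ≤ t i) :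
    ((bx t).coeff n : ℚ) = (∏ i, (t i : ℚ)) * ∑ i, (1 : ℚ) / t i := by
  have := (coeff_prod_lin t univ).2.2 n
  rw [card_univ, Fintype.card_fin] at this
  exact this rfl (fun j _ => ht j)

theorem coeff_ratio {ι : Type} [DecidableEq ι] (t : ι → ℕ) : ∀ J : Finset ι,
    (∀ j ∈ J, 1 ≤ t j) → ∀ k : ℕ,
      ((J.card : ℚ) - k) * ((∏ j ∈ J, (1 + C (t j) * X : ℕ[X])).coeff k : ℚ) ≤
        (∑ j ∈ J, (1 : ℚ) / t j) * ((∏ j ∈ J, (1 + C (t j) * X : ℕ[X])).coeff (k + 1) : ℚ) := by
  intro J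
  induction J using Finset.induction_on with
  | empty =>
    intro _ k
    simp only [card_empty, prod_empty, sum_empty, zero_mul]
    rcases Nat.eq_zero_or_pos k with rfl | hk
    · simp
    · rw [coeff_one, if_neg (by omega)]; simp
  | insert j J hj ih =>
    intro ht k
    have ih' := ih (fun i hi => ht i (mem_insert_of_mem hi))
    have htj : (0 : ℚ) < t j := by
      have := ht j (mem_insert_self _ _)
      exact_mod_cast this
    have e : ∏ i ∈ insert j J, (1 + C (t i) * X : ℕ[X]) =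
        (∏ i ∈ J, (1 + C (t i) * X : ℕ[X])) * (1 + C (t j) * X) := by
      rw [prod_insert hj, mul_comm]
    rw [e, card_insert_of_notMem hj, sum_insert hj]
    obtain ⟨q, hq⟩ : ∃ q, q = ∏ i ∈ J, (1 + C (t i) * X : ℕ[X]) := ⟨_, rfl⟩
    obtain ⟨s, hs⟩ : ∃ s, s = ∑ i ∈ J, (1 : ℚ) / t i := ⟨_, rfl⟩
    rw [← hq, ← hs] at ih' ⊢
    have hs0 : 0 ≤ s := by
      rw [hs]; exact sum_nonneg (fun i _ => by positivity)
    have h1 := ih' k
    have hinv : (1 : ℚ) / t j * t j = 1 := by field_simp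
    rcases k with _ | k
    · rw [coeff_lin_mul, coeff_lin_mul_zero]
      push_cast at h1 ⊢
      have h2 : (0 : ℚ) ≤ 1 / t j * (q.coeff (0 + 1) : ℚ) := by positivity
      have h3 : (0 : ℚ) ≤ s * (t j * q.coeff 0) := by positivity
      have h4 : (1 : ℚ) / t j * (t j * q.coeff 0) = q.coeff 0 := by rw [← mul_assoc, hinv, one_mul]
      have h5 : (1 / (t j : ℚ) + s) * ((q.coeff (0 + 1) : ℚ) + t j * q.coeff 0) =
        1 / t j * (q.coeff (0 + 1) : ℚ) + 1 / t j * (t j * q.coeff 0) +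
        (s * (q.coeff (0 + 1) : ℚ) + s * (t j * q.coeff 0)) := by ring
      rw [h5, h4]
      linarith
    · rw [coeff_lin_mul, coeff_lin_mul]
      have h2 := ih' k
      push_cast at h1 h2 ⊢
      have h3 : (0 : ℚ) ≤ 1 / t j * (q.coeff (k + 1 + 1) : ℚ) := by positivity
      have h4 : (1 : ℚ) / t j * (t j * q.coeff (k + 1)) = q.coeff (k + 1) := by
        rw [← mul_assoc, hinv, one_mul]
      have h5 : (1 / (t j : ℚ) + s) * ((q.coeff (k + 1 + 1) : ℚ) + t j * q.coeff (k + 1)) =
        1 / t j * (q.coeff (k + 1 + 1) : ℚ) + 1 / t j * (t j * q.coeff (k + 1)) +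
        (s * (q.coeff (k + 1 + 1) : ℚ) + t j * (s * q.coeff (k + 1))) := by ring
      rw [h5, h4]
      have h6 := mul_le_mul_of_nonneg_left h2 htj.le
      linarith

theorem bx_ratio {n : ℕ} (t : Fin n → ℕ) (ht : ∀ i, 1 ≤ t i) (hs : ∑ i, (1 : ℚ) / t i < 1)
    (m i : ℕ) (hm : m = n + 1) (hi1 : 1 ≤ i) (hi : i < m - 1) :
    m * (bx t).coeff (i - 1) ≤ (i + 1) * (bx t).coeff i := by
  obtain ⟨k, rfl⟩ : ∃ k, i = k + 1 := ⟨i - 1, by omega⟩
  have h1 := coeff_ratio t univ (fun j _ => ht j) k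
  rw [card_univ, Fintype.card_fin] at h1
  rw [Nat.add_sub_cancel]
  change ((n : ℚ) - k) * ((bx t).coeff k : ℚ) ≤ _ * ((bx t).coeff (k + 1) : ℚ) at h1
  have h2 : ((n : ℚ) - k) * ((bx t).coeff k : ℚ) ≤ (bx t).coeff (k + 1) := by
    refine h1.trans ?_
    have h3 : (0 : ℚ) ≤ (bx t).coeff (k + 1) := by positivity
    have := mul_le_mul_of_nonneg_right hs.le h3
    linarith
  have h3 : (n - k) * (bx t).coeff k ≤ (bx t).coeff (k + 1) := by
    have h4 : ((n - k : ℕ) : ℚ) = (n : ℚ) - k := by rw [Nat.cast_sub (by omega)]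
    rw [← h4] at h2
    exact_mod_cast h2
  have h4 : m ≤ (k + 1 + 1) * (n - k) := by
    obtain ⟨d, hd⟩ : ∃ d, n = k + (d + 1) := ⟨n - k - 1, by omega⟩
    rw [show n - k = d + 1 by omega]
    have : (k + 1 + 1) * (d + 1) = k * d + k + 2 * d + 2 := by ring
    have : 0 ≤ k * d := Nat.zero_le _
    omega
  calc m * (bx t).coeff k ≤ ((k + 1 + 1) * (n - k)) * (bx t).coeff k := Nat.mul_le_mul_right _ h4
    _ = (k + 1 + 1) * ((n - k) * (bx t).coeff k) := by ring
    _ ≤ (k + 1 + 1) * (bx t).coeff (k + 1) := Nat.mul_le_mul_left _ h3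

/-- some side equals `m` -/
theorem ex_big (k : ℕ) (t : Fin (k + 1) → ℕ) (ht : ∀ i, 1 ≤ t i ∧ t i ≤ k + 2)
    (hs : ∑ i, (1 : ℚ) / t i < 1) : ∃ i, t i = k + 2 := by
  by_contra hcon
  push Not at hcon
  have h1 : ∑ _i : Fin (k + 1), (1 : ℚ) / (k + 1) ≤ ∑ i, (1 : ℚ) / t i := by
    apply sum_le_sum
    intro i _
    have h2 := ht i
    have h3 := hcon i
    have h4 : t i ≤ k + 1 := by omega
    apply one_div_le_one_div_of_le
    · have := h2.1
      exact_mod_cast this
    · exact_mod_cast h4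
  rw [sum_const, card_univ, Fintype.card_fin, nsmul_eq_mul] at h1
  have h5 : ((k + 1 : ℕ) : ℚ) * (1 / (k + 1)) = 1 := by
    push_cast; field_simp
  rw [h5] at h1
  linarith

/-- two large sides are equal -/
theorem ex_pair (k : ℕ) (hk : 2 ≤ k) (t : Fin (k + 1) → ℕ) (ht : ∀ i, 1 ≤ t i ∧ t i ≤ k + 2)
    (hs : ∑ i, (1 : ℚ) / t i < 1) : ∃ i j, i ≠ j ∧ t i = t j ∧ k + 1 ≤ t i := by
  classical
  by_contra hcon
  push Not at hcon
  have hcard : ∀ s, k + 1 ≤ s → (univ.filter (fun i => t i = s)).card ≤ 1 := by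
    intro s hs'
    rw [card_le_one]
    intro a ha b hb
    rw [mem_filter] at ha hb
    by_contra hab
    have := hcon a b hab (ha.2.trans hb.2.symm)
    omega
  have hk0 : (0 : ℚ) < k := by
    have : 0 < k := by omega
    exact_mod_cast this
  obtain ⟨α, hα⟩ : ∃ α : ℚ, α = 1 / k - 1 / (k + 2) := ⟨_, rfl⟩
  obtain ⟨β, hβ⟩ : ∃ β : ℚ, β = 1 / k - 1 / (k + 1) := ⟨_, rfl⟩
  have hα0 : 0 ≤ α := by
    rw [hα]
    have : (1 : ℚ) / (k + 2) ≤ 1 / k := one_div_le_one_div_of_le hk0 (by linarith)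
    linarith
  have hβ0 : 0 ≤ β := by
    rw [hβ]
    have : (1 : ℚ) / (k + 1) ≤ 1 / k := one_div_le_one_div_of_le hk0 (by linarith)
    linarith
  have h1 : ∀ i, (1 : ℚ) / k - α * (if t i = k + 2 then 1 else 0) -
      β * (if t i = k + 1 then 1 else 0) ≤ 1 / t i := by
    intro i
    have h2 := ht i
    by_cases h3 : t i = k + 2
    · rw [if_pos h3, if_neg (by omega), hα, h3]
      push_cast
      linarith
    · by_cases h4 : t i = k + 1
      · rw [if_neg h3, if_pos h4, hβ, h4]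
        push_cast
        linarith
      · rw [if_neg h3, if_neg h4]
        have h5 : t i ≤ k := by omega
        have h6 : (1 : ℚ) / k ≤ 1 / t i := by
          apply one_div_le_one_div_of_le
          · exact_mod_cast h2.1
          · exact_mod_cast h5
        linarith
  have h2 := sum_le_sum (fun i (_ : i ∈ (univ : Finset (Fin (k + 1)))) => h1 i)
  rw [sum_sub_distrib, sum_sub_distrib, ← mul_sum, ← mul_sum, sum_const, card_univ,
    Fintype.card_fin, nsmul_eq_mul, sum_boole, sum_boole] at h2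
  have h3 : ((univ.filter (fun i => t i = k + 2)).card : ℚ) ≤ 1 := by
    exact_mod_cast hcard (k + 2) (by omega)
  have h4 : ((univ.filter (fun i => t i = k + 1)).card : ℚ) ≤ 1 := by
    exact_mod_cast hcard (k + 1) (by omega)
  have h5 := mul_le_mul_of_nonneg_left h3 hα0
  have h6 := mul_le_mul_of_nonneg_left h4 hβ0
  have h7 : (1 : ℚ) ≤ ((k + 1 : ℕ) : ℚ) * (1 / k) - α - β := by
    have hk2 : (2 : ℚ) ≤ k := by exact_mod_cast hk
    have e : ((k + 1 : ℕ) : ℚ) * (1 / k) - α - β - 1 =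
        ((k : ℚ) ^ 2 - 2) / (k * (k + 1) * (k + 2)) := by
      rw [hα, hβ]
      push_cast
      field_simp
      ring
    have h8 : (0 : ℚ) ≤ ((k : ℚ) ^ 2 - 2) / (k * (k + 1) * (k + 2)) := by
      apply div_nonneg
      · nlinarith
      · positivity
    linarith
  linarith

/-- the optimal box -/
theorem opt_box (k : ℕ) (hk : 2 ≤ k) : ∃ t : Fin (k + 1) → ℕ, (∀ i, 1 ≤ t i ∧ t i ≤ k + 2) ∧
    ∑ i, (1 : ℚ) / t i < 1 ∧ ∏ i, t i = minProd (k + 2) ∧
    (bx t).coeff k + (k + 1) ≤ minProd (k + 2) ∧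
    minProd (k + 2) ≤ (bx t).coeff k + (k + 2) ^ (k - 1) := by
  classical
  obtain ⟨t, ht, hs, hT⟩ := minProd_mem k
  have ht1 : ∀ i, 1 ≤ t i := fun i => (ht i).1
  have htq : ∀ i, (0 : ℚ) < t i := fun i => by exact_mod_cast ht1 i
  have hnext := bx_next t ht1
  obtain ⟨s, hsd⟩ : ∃ s, s = ∑ i, (1 : ℚ) / t i := ⟨_, rfl⟩
  have hTq : (∏ i, (t i : ℚ)) = minProd (k + 2) := by rw [hT]; push_cast; rfl
  have hTpos : (0 : ℚ) < minProd (k + 2) := by
    rw [← hTq]; exact prod_pos (fun i _ => htq i)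
  refine ⟨t, ht, hs, hT.symm, ?_, ?_⟩
  · -- lower bound by divisibility
    obtain ⟨i, j, hij, htij, hti⟩ := ex_pair k hk t ht hs
    have he : (bx t).coeff k = ∑ l, ∏ x ∈ univ.erase l, t x := by
      have h1 : ((bx t).coeff k : ℚ) = ((∑ l, ∏ x ∈ univ.erase l, t x : ℕ) : ℚ) := by
        rw [hnext, mul_sum]
        push_cast
        apply sum_congr rfl
        intro l _
        rw [← mul_prod_erase univ (fun x => (t x : ℚ)) (mem_univ l)]
        have := htq l
        field_simp
      exact_mod_cast h1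
    have hd1 : t i ∣ (bx t).coeff k := by
      rw [he]
      apply dvd_sum
      intro l _
      by_cases hl : l = i
      · subst hl
        rw [htij]
        exact dvd_prod_of_mem t (mem_erase.2 ⟨hij.symm, mem_univ _⟩)
      · exact dvd_prod_of_mem t (mem_erase.2 ⟨Ne.symm hl, mem_univ _⟩)
    have hd2 : t i ∣ minProd (k + 2) := by
      rw [hT]
      exact dvd_prod_of_mem t (mem_univ _)
    have hlt : (bx t).coeff k < minProd (k + 2) := by
      have h1 : ((bx t).coeff k : ℚ) < minProd (k + 2) := by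
        rw [hnext, hTq]
        have := mul_lt_mul_of_pos_left hs hTpos
        linarith
      exact_mod_cast h1
    have hd3 := Nat.dvd_sub hd2 hd1
    have := Nat.le_of_dvd (by omega) hd3
    omega
  · -- upper bound by minimality
    obtain ⟨i, hi⟩ := ex_big k t ht hs
    have hge : 1 ≤ s - 1 / (k + 2) + 1 / (k + 1) := by
      by_contra hcon
      push Not at hcon
      have hmem : ∏ x, (Function.update t i (k + 1)) x ∈ BoxSet (k + 1) (k + 2) := by
        refine ⟨Function.update t i (k + 1), ?_, ?_, rfl⟩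
        · intro x
          by_cases hx : x = i
          · subst hx
            rw [Function.update_self]
            omega
          · rw [Function.update_of_ne hx]
            exact ht x
        · rw [← add_sum_erase univ _ (mem_univ i), Function.update_self]
          have h1 : ∑ x ∈ univ.erase i, (1 : ℚ) / ((Function.update t i (k + 1) x : ℕ) : ℚ) =
              ∑ x ∈ univ.erase i, (1 : ℚ) / t x := by
            apply sum_congr rfl
            intro x hx
            rw [Function.update_of_ne (ne_of_mem_erase hx)]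
          rw [h1]
          have h2 := add_sum_erase univ (fun x => (1 : ℚ) / t x) (mem_univ i)
          rw [hi, ← hsd] at h2
          push_cast at h2 ⊢
          linarith
      have h1 : minProd (k + 2) ≤ ∏ x, (Function.update t i (k + 1)) x := Nat.sInf_le hmem
      rw [hT, ← mul_prod_erase univ _ (mem_univ i), ← mul_prod_erase univ
        (Function.update t i (k + 1)) (mem_univ i), Function.update_self, hi] at h1
      have h2 : ∏ x ∈ univ.erase i, Function.update t i (k + 1) x = ∏ x ∈ univ.erase i, t x := by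
        apply prod_congr rfl
        intro x hx
        rw [Function.update_of_ne (ne_of_mem_erase hx)]
      rw [h2] at h1
      have h3 : 0 < ∏ x ∈ univ.erase i, t x := prod_pos (fun x _ => ht1 x)
      have h4 : (k + 1) * ∏ x ∈ univ.erase i, t x < (k + 2) * ∏ x ∈ univ.erase i, t x :=
        Nat.mul_lt_mul_of_pos_right (by omega) h3
      omega
    have hmp := minProd_le k
    obtain ⟨j, rfl⟩ : ∃ j, k = j + 1 := ⟨k - 1, by omega⟩
    rw [Nat.add_sub_cancel]
    have h1 : (minProd (j + 1 + 2) : ℚ) ≤ ((bx t).coeff (j + 1) : ℚ) + ((j : ℚ) + 1 + 1) ^ j := by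
      rw [hnext, hTq, ← hsd]
      have h2 : 1 - s ≤ 1 / (((j : ℚ) + 1 + 1) * (j + 1 + 2)) := by
        have h3 : (1 : ℚ) / (((j + 1 : ℕ) : ℚ) + 1) - 1 / (((j + 1 : ℕ) : ℚ) + 2) =
            1 / (((j : ℚ) + 1 + 1) * (j + 1 + 2)) := by
          push_cast
          field_simp
          ring
        rw [← h3]
        linarith
      have h4 : (minProd (j + 1 + 2) : ℚ) ≤ (j + 1 + 2) * ((j : ℚ) + 1 + 1) ^ (j + 1) := by
        exact_mod_cast hmp
      have h5 := mul_le_mul_of_nonneg_left h2 hTpos.le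
      have h6 : (minProd (j + 1 + 2) : ℚ) * (1 / (((j : ℚ) + 1 + 1) * (j + 1 + 2))) ≤
          ((j : ℚ) + 1 + 1) ^ j := by
        rw [mul_one_div, div_le_iff₀ (by positivity)]
        calc (minProd (j + 1 + 2) : ℚ) ≤ (j + 1 + 2) * ((j : ℚ) + 1 + 1) ^ (j + 1) := h4
          _ = ((j : ℚ) + 1 + 1) ^ j * (((j : ℚ) + 1 + 1) * (j + 1 + 2)) := by
            rw [pow_succ]; ring
      linarith
    have h2 : minProd (j + 1 + 2) ≤ (bx t).coeff (j + 1) + (j + 1 + 1) ^ j := by exact_mod_cast h1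
    refine h2.trans ?_
    apply Nat.add_le_add_left
    exact Nat.pow_le_pow_left (by omega) _

end Pool.H87.NM
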